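import Pool.Agent.SOCX.Defs

namespace Pool.Agent.SOCX

open Matrix

variable {A B : Type} [Fintype A] [Fintype B] [DecidableEq A] [DecidableEq B]

/-- extension by zero -/
noncomputable def extz {n : ℕ} (κ : B ↪ Fin n) (v : B → ℝ) : Fin n → ℝ :=
  Function.extend κ v (fun _ => (0 : ℝ))

theorem extz_apply {n : ℕ} (κ : B ↪ Fin n) (v : B → ℝ) (j : B) : extz κ v (κ j) = v j :=
  κ.injective.extend_apply v (fun _ => (0 : ℝ)) j

theorem extz_out {n : ℕ} (κ : B ↪ Fin n) (v : B → ℝ) {l : Fin n} (h : l ∉ Set.range κ) :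
    extz κ v l = 0 := Function.extend_apply' v (fun _ => (0 : ℝ)) l (fun ⟨j, hj⟩ => h ⟨j, hj⟩)

theorem sum_extz {n : ℕ} (κ : B ↪ Fin n) (v : B → ℝ) (f : Fin n → ℝ) :
    ∑ l, f l * extz κ v l = ∑ j, f (κ j) * v j :=
  (Fintype.sum_of_injective κ κ.injective (fun j => f (κ j) * v j) (fun l => f l * extz κ v l)
    (fun l hl => by rw [extz_out κ v hl, mul_zero]) (fun j => by rw [extz_apply])).symm

theorem extz_dot {n : ℕ} (κ : B ↪ Fin n) (v : B → ℝ) : extz κ v ⬝ᵥ extz κ v = v ⬝ᵥ v := by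
  show ∑ l, extz κ v l * extz κ v l = ∑ j, v j * v j
  rw [sum_extz]
  exact Finset.sum_congr rfl fun j _ => by rw [extz_apply]

theorem norm_rot {n : ℕ} {X : Matrix (Fin n) (Fin n) ℝ} (hX : Xᵀ * X = 1) (w : Fin n → ℝ) :
    (X *ᵥ w) ⬝ᵥ (X *ᵥ w) = w ⬝ᵥ w := by
  rw [dotProduct_mulVec, ← mulVec_transpose, mulVec_mulVec, hX, one_mulVec]

theorem mulVec_extz {n : ℕ} {ι : A ↪ Fin n} {κ : B ↪ Fin n} {Z : Matrix A B ℝ}
    {X : Matrix (Fin n) (Fin n) ℝ} (h : ∀ i j, Z i j = X (ι i) (κ j)) (v : B → ℝ) (i : A) :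
    (Z *ᵥ v) i = (X *ᵥ extz κ v) (ι i) := by
  show ∑ j, Z i j * v j = ∑ l, X (ι i) l * extz κ v l
  rw [sum_extz κ v (fun l => X (ι i) l)]
  exact Finset.sum_congr rfl fun j _ => by rw [h]

theorem sum_emb {n : ℕ} (ι : A ↪ Fin n) (g : Fin n → ℝ) (hg : ∀ k ∉ Set.range ι, g k = 0) :
    ∑ i, g (ι i) = ∑ k, g k :=
  Fintype.sum_of_injective ι ι.injective (fun i => g (ι i)) g hg (fun _ => rfl)

theorem sum_emb_le {n : ℕ} (ι : A ↪ Fin n) (g : Fin n → ℝ) (hg : ∀ k, 0 ≤ g k) :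
    ∑ i, g (ι i) ≤ ∑ k, g k := by
  have h := Finset.sum_le_sum_of_subset_of_nonneg (f := g)
    (Finset.subset_univ (Finset.univ.map ι)) (fun k _ _ => hg k)
  rwa [Finset.sum_map] at h

theorem blk_ctr {n : ℕ} {ι : A ↪ Fin n} {κ : B ↪ Fin n} {Z : Matrix A B ℝ}
    (hZ : Z ∈ blk n ι κ) : Ctr Z := by
  obtain ⟨X, hX, h⟩ := hZ
  intro v
  have h1 : (Z *ᵥ v) ⬝ᵥ (Z *ᵥ v) =
      ∑ i, (fun k => (X *ᵥ extz κ v) k * (X *ᵥ extz κ v) k) (ι i) := by
    show ∑ i, (Z *ᵥ v) i * (Z *ᵥ v) i = _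
    exact Finset.sum_congr rfl fun i _ => by rw [mulVec_extz h]
  rw [h1, ← extz_dot κ v, ← norm_rot hX.1]
  exact sum_emb_le ι _ fun k => mul_self_nonneg _

theorem blk_vec {n r : ℕ} {ι : A ↪ Fin n} {κ : B ↪ Fin n}
    (hcard : Fintype.card A + Fintype.card B = n + r + 1) {Z : Matrix A B ℝ}
    (hZ : Z ∈ blk n ι κ) (V : Matrix B (Fin r) ℝ) :
    ∃ v : B → ℝ, v ≠ 0 ∧ Vᵀ *ᵥ v = 0 ∧ (Z *ᵥ v) ⬝ᵥ (Z *ᵥ v) = v ⬝ᵥ v := by
  classical
  obtain ⟨X, hX, h⟩ := hZ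
  let K := {k : Fin n // k ∉ Set.range ι}
  let Q : Matrix K B ℝ := fun k j => X k.1 (κ j)
  let Φ : (B → ℝ) →ₗ[ℝ] (Fin r → ℝ) × (K → ℝ) := (Vᵀ).mulVecLin.prod Q.mulVecLin
  have hK : Fintype.card K = n - Fintype.card A := by
    have h1 : Fintype.card K = Fintype.card (Fin n) - Fintype.card (Set.range ι) := by
      exact Fintype.card_subtype_compl _
    rw [h1, Fintype.card_fin, Set.card_range_of_injective ι.injective]
  have hA : Fintype.card A ≤ n := by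
    have := Fintype.card_le_of_embedding ι
    simpa using this
  have hlt : Module.finrank ℝ ((Fin r → ℝ) × (K → ℝ)) < Module.finrank ℝ (B → ℝ) := by
    rw [Module.finrank_prod, Module.finrank_fintype_fun_eq_card,
      Module.finrank_fintype_fun_eq_card, Module.finrank_fintype_fun_eq_card, hK,
      Fintype.card_fin]
    omega
  have hker := LinearMap.ker_ne_bot_of_finrank_lt (f := Φ) hlt
  obtain ⟨v, hv, hv0⟩ := (Submodule.ne_bot_iff _).1 hker
  rw [LinearMap.mem_ker] at hv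
  have hv1 : Vᵀ *ᵥ v = 0 := congrArg Prod.fst hv
  have hv2 : Q *ᵥ v = 0 := congrArg Prod.snd hv
  refine ⟨v, hv0, hv1, ?_⟩
  have h1 : (Z *ᵥ v) ⬝ᵥ (Z *ᵥ v) =
      ∑ i, (fun k => (X *ᵥ extz κ v) k * (X *ᵥ extz κ v) k) (ι i) := by
    show ∑ i, (Z *ᵥ v) i * (Z *ᵥ v) i = _
    exact Finset.sum_congr rfl fun i _ => by rw [mulVec_extz h]
  rw [h1, ← extz_dot κ v, ← norm_rot hX.1]
  refine sum_emb ι (fun k => (X *ᵥ extz κ v) k * (X *ᵥ extz κ v) k) fun k hk => ?_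
  have h2 : (X *ᵥ extz κ v) k = 0 := by
    show ∑ l, X k l * extz κ v l = 0
    rw [sum_extz κ v (fun l => X k l)]
    exact congrFun hv2 ⟨k, hk⟩
  show (X *ᵥ extz κ v) k * (X *ᵥ extz κ v) k = 0
  rw [h2, mul_zero]

theorem isCompact_SO (n : ℕ) : IsCompact (SO n) := by
  have h1 : IsCompact (Set.pi Set.univ fun _ : Fin n =>
      Set.pi Set.univ fun _ : Fin n => Set.Icc (-1 : ℝ) 1) :=
    isCompact_univ_pi fun _ => isCompact_univ_pi fun _ => isCompact_Icc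
  refine IsCompact.of_isClosed_subset h1 ?_ ?_
  · have h2 : IsClosed {X : Matrix (Fin n) (Fin n) ℝ | Xᵀ * X = 1} :=
      isClosed_eq (continuous_id.matrix_transpose.matrix_mul continuous_id) continuous_const
    have h3 : IsClosed {X : Matrix (Fin n) (Fin n) ℝ | X.det = 1} :=
      isClosed_eq (continuous_id.matrix_det) continuous_const
    exact h2.inter h3
  · intro X hX k _ l _
    have h4 := congrFun (congrFun hX.1 l) l
    rw [Matrix.mul_apply, Matrix.one_apply_eq] at h4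
    simp only [Matrix.transpose_apply] at h4
    have h5 : X k l * X k l ≤ ∑ m, X m l * X m l :=
      Finset.single_le_sum (f := fun m => X m l * X m l) (fun m _ => mul_self_nonneg _)
        (Finset.mem_univ k)
    rw [h4] at h5
    have h6 : |X k l| ≤ 1 := by
      rw [← sq_le_one_iff_abs_le_one]; nlinarith
    exact ⟨(abs_le.1 h6).1, (abs_le.1 h6).2⟩

theorem isClosed_att (n : ℕ) (ι : A ↪ Fin n) (κ : B ↪ Fin n) (H : A → B → Prop) :
    IsClosed (att n ι κ H) := by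
  let F : Matrix (Fin n) (Fin n) ℝ → ({p : A × B // ¬ H p.1 p.2} → ℝ) :=
    fun X p => X (ι p.1.1) (κ p.1.2)
  let G : Matrix A B ℝ → ({p : A × B // ¬ H p.1 p.2} → ℝ) := fun Z p => Z p.1.1 p.1.2
  have hF : Continuous F := continuous_pi fun p => (continuous_apply_apply _ _)
  have hG : Continuous G := continuous_pi fun p => (continuous_apply_apply _ _)
  have h1 : IsClosed (F '' SO n) := ((isCompact_SO n).image hF).isClosed
  have h2 : att n ι κ H = G ⁻¹' (F '' SO n) := by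
    ext Z
    constructor
    · rintro ⟨Z', ⟨X, hX, hZ'⟩, hZ⟩
      refine ⟨X, hX, ?_⟩
      funext p
      show X (ι p.1.1) (κ p.1.2) = Z p.1.1 p.1.2
      rw [hZ _ _ p.2, hZ']
    · rintro ⟨X, hX, hXZ⟩
      refine ⟨fun i j => X (ι i) (κ j), ⟨X, hX, fun _ _ => rfl⟩, fun i j hij => ?_⟩
      exact (congrFun hXZ ⟨(i, j), hij⟩).symm
  rw [h2]
  exact h1.preimage hG

theorem convex_proj_iff (n : ℕ) (ι : A ↪ Fin n) (κ : B ↪ Fin n) (H : A → B → Prop) :
    Convex ℝ (proj n (pos n ι κ H)) ↔ Convex ℝ (att n ι κ H) := by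
  classical
  have hch : ∀ s : pos n ι κ H, ∃ q : A × B, ¬ H q.1 q.2 ∧ s.1 = (ι q.1, κ q.2) := fun s => by
    obtain ⟨i, j, h1, h2⟩ := s.2
    exact ⟨(i, j), h1, h2⟩
  choose q hq1 hq2 using hch
  let G : Matrix A B ℝ →ₗ[ℝ] (pos n ι κ H → ℝ) :=
    { toFun := fun Z s => Z (q s).1 (q s).2
      map_add' := fun _ _ => rfl
      map_smul' := fun _ _ => rfl }
  have h1 : att n ι κ H = G ⁻¹' (proj n (pos n ι κ H)) := by
    ext Z
    constructor
    · rintro ⟨Z', ⟨X, hX, hZ'⟩, hZ⟩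
      refine ⟨X, hX, ?_⟩
      funext s
      show X s.1.1 s.1.2 = Z (q s).1 (q s).2
      rw [hZ _ _ (hq1 s), hZ', hq2 s]
    · rintro ⟨X, hX, hXZ⟩
      refine ⟨fun i j => X (ι i) (κ j), ⟨X, hX, fun _ _ => rfl⟩, fun i j hij => ?_⟩
      let s : pos n ι κ H := ⟨(ι i, κ j), i, j, hij, rfl⟩
      have h3 := congrFun hXZ s
      have h4 := hq2 s
      have h5 : ι i = ι (q s).1 := congrArg Prod.fst h4
      have h6 : κ j = κ (q s).2 := congrArg Prod.snd h4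
      have h7 := ι.injective h5
      have h8 := κ.injective h6
      show Z i j = X (ι i) (κ j)
      have h9 : X (ι i) (κ j) = Z (q s).1 (q s).2 := h3
      rw [h9, ← h7, ← h8]
  have hsurj : Function.Surjective G := by
    intro y
    refine ⟨fun i j => if h : ¬ H i j then y ⟨(ι i, κ j), i, j, h, rfl⟩ else 0, ?_⟩
    funext s
    show (if h : ¬ H (q s).1 (q s).2 then y ⟨(ι (q s).1, κ (q s).2), _⟩ else 0) = y s
    rw [dif_pos (hq1 s)]
    congr 1
    exact Subtype.ext (hq2 s).symm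
  constructor
  · intro h
    rw [h1]
    exact h.linear_preimage G
  · intro h
    have h2 : proj n (pos n ι κ H) = G '' (att n ι κ H) := by
      rw [h1, Set.image_preimage_eq _ hsurj]
    rw [h2]
    exact h.linear_image G

end Pool.Agent.SOCX
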