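import Pool.Agent.SOCX.Defs

/-!
# Blocks of rotations, part A: `blk_ctr'` and `blk_vec'`
-/

namespace Pool.Agent.SOCX

open Matrix

variable {A B : Type} [Fintype A] [Fintype B] [DecidableEq A] [DecidableEq B]

/-- Extension by zero along an embedding, as a linear map. -/
noncomputable def BlkA_ext {n : ℕ} (κ : B ↪ Fin n) : (B → ℝ) →ₗ[ℝ] (Fin n → ℝ) where
  toFun v := Function.extend κ v 0
  map_add' v w := by
    ext k
    by_cases h : ∃ j, κ j = k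
    · obtain ⟨j, rfl⟩ := h
      simp only [Pi.add_apply, κ.injective.extend_apply]
    · simp only [Pi.add_apply, Function.extend_apply' _ _ _ h, Pi.zero_apply, add_zero]
  map_smul' c v := by
    ext k
    by_cases h : ∃ j, κ j = k
    · obtain ⟨j, rfl⟩ := h
      simp only [Pi.smul_apply, κ.injective.extend_apply, RingHom.id_apply]
    · simp only [Pi.smul_apply, Function.extend_apply' _ _ _ h, Pi.zero_apply, smul_zero]

lemma BlkA_ext_apply {n : ℕ} (κ : B ↪ Fin n) (v : B → ℝ) (j : B) :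
    BlkA_ext κ v (κ j) = v j := κ.injective.extend_apply _ _ j

lemma BlkA_ext_dot {n : ℕ} (κ : B ↪ Fin n) (f : Fin n → ℝ) (v : B → ℝ) :
    f ⬝ᵥ BlkA_ext κ v = ∑ j, f (κ j) * v j := by
  unfold dotProduct
  symm
  refine Fintype.sum_of_injective κ κ.injective _ _ ?_ ?_
  · intro k hk
    have : ¬ ∃ j, κ j = k := fun ⟨j, hj⟩ => hk ⟨j, hj⟩
    have h2 : BlkA_ext κ v k = 0 := Function.extend_apply' _ _ _ this
    rw [h2, mul_zero]
  · intro j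
    rw [BlkA_ext_apply]

lemma BlkA_norm {n : ℕ} {R : Matrix (Fin n) (Fin n) ℝ} (hR : Rᵀ * R = 1) (κ : B ↪ Fin n)
    (v : B → ℝ) :
    (R *ᵥ BlkA_ext κ v) ⬝ᵥ (R *ᵥ BlkA_ext κ v) = v ⬝ᵥ v := by
  have h1 : (R *ᵥ BlkA_ext κ v) ⬝ᵥ (R *ᵥ BlkA_ext κ v) = BlkA_ext κ v ⬝ᵥ BlkA_ext κ v := by
    rw [dotProduct_mulVec, ← mulVec_transpose, mulVec_mulVec, hR, one_mulVec]
  rw [h1, BlkA_ext_dot]
  unfold dotProduct
  exact Finset.sum_congr rfl fun j _ => by rw [BlkA_ext_apply]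

lemma BlkA_entry {n : ℕ} {ι : A ↪ Fin n} {κ : B ↪ Fin n} {Z : Matrix A B ℝ}
    {R : Matrix (Fin n) (Fin n) ℝ} (hZR : ∀ i j, Z i j = R (ι i) (κ j)) (v : B → ℝ) (i : A) :
    (Z *ᵥ v) i = (R *ᵥ BlkA_ext κ v) (ι i) := by
  have h1 : (R *ᵥ BlkA_ext κ v) (ι i) = (fun k => R (ι i) k) ⬝ᵥ BlkA_ext κ v := rfl
  rw [h1, BlkA_ext_dot]
  show ∑ j, Z i j * v j = _
  exact Finset.sum_congr rfl fun j _ => by rw [hZR]

theorem blk_ctr' {n : ℕ} {ι : A ↪ Fin n} {κ : B ↪ Fin n} {Z : Matrix A B ℝ}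
    (hZ : Z ∈ blk n ι κ) : Ctr Z := by
  obtain ⟨R, ⟨hR, _⟩, hZR⟩ := hZ
  intro v
  rw [← BlkA_norm hR κ v]
  unfold dotProduct
  calc ∑ i, (Z *ᵥ v) i * (Z *ᵥ v) i
      = ∑ i, (R *ᵥ BlkA_ext κ v) (ι i) * (R *ᵥ BlkA_ext κ v) (ι i) :=
        Finset.sum_congr rfl fun i _ => by rw [BlkA_entry hZR]
    _ = ∑ k ∈ Finset.univ.map ι, (R *ᵥ BlkA_ext κ v) k * (R *ᵥ BlkA_ext κ v) k := by
        rw [Finset.sum_map]
    _ ≤ ∑ k, (R *ᵥ BlkA_ext κ v) k * (R *ᵥ BlkA_ext κ v) k :=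
        Finset.sum_le_sum_of_subset_of_nonneg (Finset.subset_univ _)
          fun _ _ _ => mul_self_nonneg _

theorem blk_vec' {n r : ℕ} {ι : A ↪ Fin n} {κ : B ↪ Fin n}
    (hcard : Fintype.card A + Fintype.card B = n + r + 1) {Z : Matrix A B ℝ}
    (hZ : Z ∈ blk n ι κ) (V : Matrix B (Fin r) ℝ) :
    ∃ v : B → ℝ, v ≠ 0 ∧ Vᵀ *ᵥ v = 0 ∧ (Z *ᵥ v) ⬝ᵥ (Z *ᵥ v) = v ⬝ᵥ v := by
  classical
  obtain ⟨R, ⟨hR, _⟩, hZR⟩ := hZ
  let W : Type := {k : Fin n // k ∉ Set.range ι}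
  let L1 : (B → ℝ) →ₗ[ℝ] (Fin r → ℝ) := Vᵀ.mulVecLin
  let L2 : (B → ℝ) →ₗ[ℝ] (W → ℝ) :=
    (LinearMap.funLeft ℝ ℝ (Subtype.val : W → Fin n)).comp (R.mulVecLin.comp (BlkA_ext κ))
  have hcW : Fintype.card W + Fintype.card A = n := by
    have h1 : Fintype.card {k : Fin n // k ∈ Set.range ι} = Fintype.card A := by
      rw [Fintype.card_congr (Equiv.ofInjective ι ι.injective)]
    have h2 := Fintype.card_subtype_compl (fun k : Fin n => k ∈ Set.range ι)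
    have h3 : Fintype.card {k : Fin n // k ∈ Set.range ι} ≤ Fintype.card (Fin n) :=
      Fintype.card_subtype_le _
    rw [Fintype.card_fin] at h2 h3
    show Fintype.card {k : Fin n // ¬ k ∈ Set.range ι} + _ = n
    omega
  have hlt : Module.finrank ℝ ((Fin r → ℝ) × (W → ℝ)) < Module.finrank ℝ (B → ℝ) := by
    rw [Module.finrank_prod, Module.finrank_fintype_fun_eq_card,
      Module.finrank_fintype_fun_eq_card, Module.finrank_fintype_fun_eq_card, Fintype.card_fin]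
    omega
  have hker := LinearMap.ker_ne_bot_of_finrank_lt (f := L1.prod L2) hlt
  obtain ⟨v, hv, hv0⟩ := Submodule.exists_mem_ne_zero_of_ne_bot hker
  rw [LinearMap.mem_ker] at hv
  have hv1 : L1 v = 0 := congrArg Prod.fst hv
  have hv2 : L2 v = 0 := congrArg Prod.snd hv
  refine ⟨v, hv0, hv1, ?_⟩
  rw [← BlkA_norm hR κ v]
  unfold dotProduct
  have hz : ∀ k : Fin n, k ∉ Set.range ι → (R *ᵥ BlkA_ext κ v) k = 0 := by
    intro k hk
    have := congrFun hv2 ⟨k, hk⟩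
    exact this
  refine Fintype.sum_of_injective ι ι.injective _ _ ?_ ?_
  · intro k hk
    rw [hz k hk, mul_zero]
  · intro i
    rw [BlkA_entry hZR]

end Pool.Agent.SOCX
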