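import Pool.Agent.SOCX.Defs

/-!
# Completion of a contraction to a rotation

Proof.  `D = 1 - Xᵀ X` is positive semidefinite (`Ctr X`), and its kernel contains `m = r + 1`
orthonormal vectors `V i`.  In an orthonormal basis which begins with the `V i` the matrix `D` has
only a lower right block, of size `card B - m`, and this block is a Gram matrix `Qᵀ Q`
(`exists_Y`): `Xᵀ X + Yᵀ Y = 1` with `Y` of `card B - m = n - card A` rows.  The columns of
`(X, Y)` are orthonormal; put them in the columns `κ j` and extend to an orthonormal basis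
(`onb_ext`); if the determinant is `-1`, negate a column outside the range of `κ`
(`card B < n`).
-/

namespace Pool.Agent.SOCX

open Matrix

/-- A positive semidefinite real matrix is a Gram matrix. -/
theorem psd_gram {C : Type*} [Fintype C] [DecidableEq C] (N : Matrix C C ℝ)
    (hN : N.PosSemidef) : ∃ Q : Matrix C C ℝ, N = Qᵀ * Q := by
  open scoped MatrixOrder in
  obtain ⟨Q, hQ⟩ := CStarAlgebra.nonneg_iff_eq_star_mul_self.mp hN.nonneg
  refine ⟨Q, ?_⟩
  rw [hQ, Matrix.star_eq_conjTranspose, Matrix.conjTranspose_eq_transpose_of_trivial]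

theorem quad_compl {A B : Type*} [Fintype A] [Fintype B] [DecidableEq B]
    (X : Matrix A B ℝ) (v : B → ℝ) :
    v ⬝ᵥ ((1 - Xᵀ * X) *ᵥ v) = v ⬝ᵥ v - (X *ᵥ v) ⬝ᵥ (X *ᵥ v) := by
  rw [Matrix.sub_mulVec, Matrix.one_mulVec, dotProduct_sub,
      ← Matrix.mulVec_mulVec, Matrix.mulVec_transpose, _root_.dotProduct_comm v (_ ᵥ* X),
      ← Matrix.dotProduct_mulVec]

/-- The Gram matrix of the complement of a contraction. -/
theorem psd_compl {A B : Type*} [Fintype A] [Fintype B] [DecidableEq B] (X : Matrix A B ℝ)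
    (hX : ∀ v : B → ℝ, (X *ᵥ v) ⬝ᵥ (X *ᵥ v) ≤ v ⬝ᵥ v) :
    (1 - Xᵀ * X).PosSemidef := by
  refine Matrix.PosSemidef.of_dotProduct_mulVec_nonneg ?_ ?_
  · rw [Matrix.IsHermitian, Matrix.conjTranspose_eq_transpose_of_trivial]
    simp [Matrix.transpose_sub, Matrix.transpose_mul]
  · intro v
    have h := hX v
    rw [star_trivial, quad_compl]
    linarith

/-- Extension of an orthonormal family to an orthogonal matrix. -/
theorem onb_ext {κ ι ρ : Type*} [Fintype κ] [DecidableEq κ] [Fintype ι] [DecidableEq ι]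
    [Fintype ρ] [DecidableEq ρ] (hc : Fintype.card ρ = Fintype.card ι) (f : κ → ι)
    (hf : Function.Injective f) (w : κ → ρ → ℝ)
    (hw : ∀ i j, w i ⬝ᵥ w j = if i = j then 1 else 0) :
    ∃ R : Matrix ρ ι ℝ, Rᵀ * R = 1 ∧ R * Rᵀ = 1 ∧ ∀ k r, R r (f k) = w k r := by
  have hfin : Module.finrank ℝ (EuclideanSpace ℝ ρ) = Fintype.card ι := by
    rw [finrank_euclideanSpace, hc]
  set v : ι → EuclideanSpace ℝ ρ :=
    Function.extend f (fun k => WithLp.toLp 2 (w k)) 0 with hv
  have hvf : ∀ k, v (f k) = WithLp.toLp 2 (w k) := fun k => hf.extend_apply _ _ k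
  have ho : Orthonormal ℝ ((Set.range f).domRestrict v) := by
    rw [orthonormal_iff_ite]
    rintro ⟨_, i, rfl⟩ ⟨_, j, rfl⟩
    simp only [Set.domRestrict_apply, hvf]
    rw [EuclideanSpace.inner_eq_star_dotProduct]
    simp only [star_trivial]
    rw [hw j i]
    by_cases hij : i = j
    · subst hij; simp
    · rw [if_neg (fun h => hij h.symm), if_neg]
      intro h
      exact hij (hf (congrArg Subtype.val h))
  obtain ⟨b, hb⟩ := ho.exists_orthonormalBasis_extension_of_card_eq hfin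
  set R : Matrix ρ ι ℝ := Matrix.of fun r i => (b i) r with hR
  have h1 : Rᵀ * R = 1 := by
    ext i j
    rw [Matrix.mul_apply]
    have := orthonormal_iff_ite.mp b.orthonormal i j
    rw [EuclideanSpace.inner_eq_star_dotProduct] at this
    simp only [star_trivial, dotProduct] at this
    rw [Matrix.one_apply, ← this]
    refine Finset.sum_congr rfl fun r _ => ?_
    simp [hR, mul_comm]
  refine ⟨R, h1, ?_, ?_⟩
  · have e : ι ≃ ρ := Fintype.equivOfCardEq hc.symm
    exact (Matrix.mul_eq_one_comm_of_equiv e).mp h1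
  · intro k r
    simp only [hR, Matrix.of_apply]
    rw [hb (f k) ⟨k, rfl⟩, hvf]

/-- Square root of `1 - X^T X` with `card B - m` rows. -/
theorem exists_Y {m : ℕ} {A B C : Type*} [Fintype A] [Fintype B] [DecidableEq B] [Fintype C]
    [DecidableEq C]
    (hc : Fintype.card C + m = Fintype.card B) (X : Matrix A B ℝ)
    (hX : ∀ v : B → ℝ, (X *ᵥ v) ⬝ᵥ (X *ᵥ v) ≤ v ⬝ᵥ v) (V : Fin m → B → ℝ)
    (hV : ∀ i j, V i ⬝ᵥ V j = if i = j then 1 else 0)
    (h1 : ∀ i, (X *ᵥ V i) ⬝ᵥ (X *ᵥ V i) = 1) :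
    ∃ Y : Matrix C B ℝ, Xᵀ * X + Yᵀ * Y = 1 := by
  obtain ⟨R, hR1, hR2, hR3⟩ := onb_ext (ι := Fin m ⊕ C) (ρ := B)
    (by simp [← hc, add_comm]) Sum.inl Sum.inl_injective V hV
  set M : Matrix B B ℝ := 1 - Xᵀ * X with hM
  have hMp : M.PosSemidef := psd_compl X hX
  have hMT : Mᵀ = M := by
    have := hMp.isHermitian
    rwa [Matrix.IsHermitian, Matrix.conjTranspose_eq_transpose_of_trivial] at this
  have hMV : ∀ i, M *ᵥ V i = 0 := by
    intro i
    refine (hMp.dotProduct_mulVec_zero_iff (V i)).mp ?_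
    rw [star_trivial, hM, quad_compl, h1, hV, if_pos rfl, sub_self]
  set M' : Matrix (Fin m ⊕ C) (Fin m ⊕ C) ℝ := Rᵀ * M * R with hM'
  have hM'p : M'.PosSemidef := by
    have := hMp.conjTranspose_mul_mul_same R
    rwa [Matrix.conjTranspose_eq_transpose_of_trivial] at this
  have hM'T : M'ᵀ = M' := by
    have := hM'p.isHermitian
    rwa [Matrix.IsHermitian, Matrix.conjTranspose_eq_transpose_of_trivial] at this
  have hM'l : ∀ k i, M' k (Sum.inl i) = 0 := by
    intro k i
    have hcol : (M * R) *ᵥ (Pi.single (Sum.inl i) 1) = 0 := by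
      rw [← Matrix.mulVec_mulVec, Matrix.mulVec_single_one]
      have : R.col (Sum.inl i) = V i := by
        ext r; exact hR3 i r
      rw [this, hMV]
    have : M' *ᵥ (Pi.single (Sum.inl i) 1) = 0 := by
      rw [hM', Matrix.mul_assoc, ← Matrix.mulVec_mulVec, hcol, Matrix.mulVec_zero]
    rw [Matrix.mulVec_single_one] at this
    exact congrFun this k
  have hM'l2 : ∀ k i, M' (Sum.inl i) k = 0 := by
    intro k i
    rw [← hM'T, Matrix.transpose_apply, hM'l]
  obtain ⟨Q, hQ⟩ := psd_gram (M'.submatrix Sum.inr Sum.inr) (hM'p.submatrix _)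
  set Y' : Matrix C (Fin m ⊕ C) ℝ := Matrix.of fun c k => Sum.elim (fun _ => 0) (fun d => Q c d) k
    with hY'
  have hYY : Y'ᵀ * Y' = M' := by
    ext k l
    rw [Matrix.mul_apply]
    rcases k with i | c
    · rw [hM'l2]; simp [hY']
    · rcases l with j | d
      · rw [hM'l]; simp [hY']
      · have := congrFun (congrFun hQ c) d
        rw [Matrix.submatrix_apply] at this
        rw [this, Matrix.mul_apply]
        simp [hY']
  refine ⟨Y' * Rᵀ, ?_⟩
  have hfin : (Y' * Rᵀ)ᵀ * (Y' * Rᵀ) = M := by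
    rw [Matrix.transpose_mul, Matrix.transpose_transpose]
    calc R * Y'ᵀ * (Y' * Rᵀ) = R * (Y'ᵀ * Y') * Rᵀ := by simp only [Matrix.mul_assoc]
      _ = (R * Rᵀ) * M * (R * Rᵀ) := by rw [hYY, hM']; simp only [Matrix.mul_assoc]
      _ = M := by rw [hR2, Matrix.one_mul, Matrix.mul_one]
  rw [hfin, hM]
  abel

/-- Completion to `SO(n)`. -/
theorem dil {m : ℕ} {A B : Type*} [Fintype A] [Fintype B] [DecidableEq A] [DecidableEq B] {n : ℕ}
    (α : A → Fin n) (β : B → Fin n) (hα : Function.Injective α) (hβ : Function.Injective β)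
    (hc : Fintype.card A + Fintype.card B = n + m) (hB : Fintype.card B < n)
    (X : Matrix A B ℝ) (hX : ∀ v : B → ℝ, (X *ᵥ v) ⬝ᵥ (X *ᵥ v) ≤ v ⬝ᵥ v)
    (V : Fin m → B → ℝ) (hV : ∀ i j, V i ⬝ᵥ V j = if i = j then 1 else 0)
    (h1 : ∀ i, (X *ᵥ V i) ⬝ᵥ (X *ᵥ V i) = 1) :
    ∃ O : Matrix (Fin n) (Fin n) ℝ, Oᵀ * O = 1 ∧ O.det = 1 ∧ ∀ i j, O (α i) (β j) = X i j := by
  classical
  have hcA : Fintype.card A ≤ n := by
    simpa using Fintype.card_le_of_injective α hα
  have hcC : Fintype.card ((Set.range α)ᶜ : Set (Fin n)) = n - Fintype.card A := by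
    rw [Fintype.card_compl_set, Fintype.card_fin, Set.card_range_of_injective hα]
  set C := ((Set.range α)ᶜ : Set (Fin n)) with hC
  obtain ⟨Y, hY⟩ := exists_Y (C := C) (by rw [hcC]; omega) X hX V hV h1
  let σ : A ⊕ C ≃ Fin n :=
    (Equiv.sumCongr (Equiv.ofInjective α hα) (Equiv.refl _)).trans (Equiv.Set.sumCompl (Set.range α))
  have hσ : ∀ a, σ (Sum.inl a) = α a := by
    intro a
    rfl
  set W : B → Fin n → ℝ := fun b i => Sum.elim (fun a => X a b) (fun c => Y c b) (σ.symm i) with hW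
  have hWo : ∀ b b', W b ⬝ᵥ W b' = if b = b' then 1 else 0 := by
    intro b b'
    have h := congrFun (congrFun hY b) b'
    rw [Matrix.add_apply, Matrix.mul_apply, Matrix.mul_apply, Matrix.one_apply] at h
    rw [← h, dotProduct, ← Equiv.sum_comp σ, Fintype.sum_sum_type]
    simp [hW]
  obtain ⟨R, hR1, hR2, hR3⟩ := onb_ext (ι := Fin n) (ρ := Fin n) rfl β hβ W hWo
  have hblk : ∀ i j, R (α i) (β j) = X i j := by
    intro i j
    rw [hR3, hW, ← hσ]
    simp
  have hdet : R.det * R.det = 1 := by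
    have := congrArg Matrix.det hR1
    rwa [Matrix.det_mul, Matrix.det_transpose, Matrix.det_one] at this
  rcases mul_self_eq_one_iff.mp hdet with h | h
  · exact ⟨R, hR1, h, hblk⟩
  · obtain ⟨k₀, hk₀⟩ : ∃ k₀, k₀ ∉ Set.range β := by
      by_contra hcon
      push Not at hcon
      have : Function.Surjective β := fun k => hcon k
      have := Fintype.card_le_of_surjective β this
      rw [Fintype.card_fin] at this
      omega
    set d : Fin n → ℝ := fun k => if k = k₀ then -1 else 1 with hd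
    have hdd : Matrix.diagonal d * Matrix.diagonal d = 1 := by
      rw [Matrix.diagonal_mul_diagonal, ← Matrix.diagonal_one]
      congr 1
      ext k
      simp only [hd]
      split_ifs <;> simp
    refine ⟨R * Matrix.diagonal d, ?_, ?_, ?_⟩
    · rw [Matrix.transpose_mul, Matrix.diagonal_transpose]
      calc Matrix.diagonal d * Rᵀ * (R * Matrix.diagonal d)
          = Matrix.diagonal d * (Rᵀ * R) * Matrix.diagonal d := by simp only [Matrix.mul_assoc]
        _ = 1 := by rw [hR1, Matrix.mul_one, hdd]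
    · rw [Matrix.det_mul, h, Matrix.det_diagonal]
      simp only [hd]
      rw [Finset.prod_ite_eq' Finset.univ k₀]
      simp
    · intro i j
      rw [Matrix.mul_diagonal, hblk]
      have : β j ≠ k₀ := fun h => hk₀ ⟨j, h⟩
      simp [hd, this]

/-- Orthonormal vectors in the kernel of `1 - Xᵀ X`. -/
theorem iso_vecs {A B : Type} [Fintype A] [Fintype B] [DecidableEq B] {k : ℕ}
    (X : Matrix A B ℝ) (hE : Iso k X) :
    ∃ V : Fin k → B → ℝ, (∀ i j, V i ⬝ᵥ V j = if i = j then 1 else 0) ∧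
      ∀ i, (X *ᵥ V i) ⬝ᵥ (X *ᵥ V i) = 1 := by
  classical
  set L : Submodule ℝ (B → ℝ) := LinearMap.ker (1 - Xᵀ * X).mulVecLin with hL
  set K : Submodule ℝ (EuclideanSpace ℝ B) :=
    L.map (WithLp.linearEquiv 2 ℝ (B → ℝ)).symm.toLinearMap with hK
  have hfin : Module.finrank ℝ K = Module.finrank ℝ L := by
    rw [hK]
    exact LinearEquiv.finrank_map_eq (WithLp.linearEquiv 2 ℝ (B → ℝ)).symm L
  have hk : k ≤ Module.finrank ℝ K := by rw [hfin]; exact hE
  set b := stdOrthonormalBasis ℝ K with hb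
  have hV : ∀ i j : Fin k, (WithLp.ofLp (b (Fin.castLE hk i) : EuclideanSpace ℝ B)) ⬝ᵥ
      (WithLp.ofLp (b (Fin.castLE hk j) : EuclideanSpace ℝ B)) = if i = j then 1 else 0 := by
    intro i j
    have := orthonormal_iff_ite.mp b.orthonormal (Fin.castLE hk j) (Fin.castLE hk i)
    rw [Submodule.coe_inner, EuclideanSpace.inner_eq_star_dotProduct] at this
    simp only [star_trivial] at this
    rw [this]
    by_cases h : i = j
    · subst h; simp
    · rw [if_neg h, if_neg]
      intro h'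
      exact h (Fin.castLE_injective hk h').symm
  refine ⟨fun i => WithLp.ofLp (b (Fin.castLE hk i) : EuclideanSpace ℝ B), hV, ?_⟩
  intro i
  have hmem : WithLp.ofLp (b (Fin.castLE hk i) : EuclideanSpace ℝ B) ∈ L := by
    obtain ⟨y, hy, hy2⟩ := (Submodule.mem_map.mp (b (Fin.castLE hk i)).2)
    rw [← hy2]
    exact hy
  have h0 : (1 - Xᵀ * X) *ᵥ WithLp.ofLp (b (Fin.castLE hk i) : EuclideanSpace ℝ B) = 0 := hmem
  have hq := quad_compl X (WithLp.ofLp (b (Fin.castLE hk i) : EuclideanSpace ℝ B))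
  rw [h0, dotProduct_zero, hV, if_pos rfl] at hq
  linarith

variable {A B : Type} [Fintype A] [Fintype B] [DecidableEq A] [DecidableEq B]

theorem mem_blk_of_iso {n r : ℕ} (ι : A ↪ Fin n) (κ : B ↪ Fin n)
    (hcard : Fintype.card A + Fintype.card B = n + r + 1) (hB : Fintype.card B < n)
    (X : Matrix A B ℝ) (hX : Ctr X) (hE : Iso (r + 1) X) : X ∈ blk n ι κ := by
  obtain ⟨V, hV, h1⟩ := iso_vecs X hE
  obtain ⟨O, hO, hd, hO2⟩ := dil (m := r + 1) ι κ ι.injective κ.injective
    (by rw [hcard, add_assoc]) hB X hX V hV h1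
  exact ⟨O, ⟨hO, hd⟩, fun i j => (hO2 i j).symm⟩

end Pool.Agent.SOCX
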