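import Mathlib

/-!
# Coordinate projections of SO(n): definitions

MP_ffc974_lc: CONVEX is coNP-hard (many-one) / NP-hard (one-query Turing).  Blueprint in
`/team-store/SOCX.md`.
-/

namespace Pool.Agent.SOCX

open Matrix

/-- The rotation group `SO(n)`. -/
def SO (n : ℕ) : Set (Matrix (Fin n) (Fin n) ℝ) := {X | Xᵀ * X = 1 ∧ X.det = 1}

/-- The image of `SO(n)` under the projection to the coordinates in `S`, a subset of `ℝ^S`. -/
def proj (n : ℕ) (S : Set (Fin n × Fin n)) : Set (S → ℝ) :=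
  (fun X (p : S) => X p.1.1 p.1.2) '' SO n

variable {A B : Type} [Fintype A] [Fintype B] [DecidableEq A] [DecidableEq B]

/-- The blocks (rows `ι`, columns `κ`) of the matrices of `SO(n)`. -/
def blk (n : ℕ) (ι : A ↪ Fin n) (κ : B ↪ Fin n) : Set (Matrix A B ℝ) :=
  {Z | ∃ X ∈ SO n, ∀ i j, Z i j = X (ι i) (κ j)}

/-- The matrices which agree outside `H` with a block of `SO(n)`. -/
def att (n : ℕ) (ι : A ↪ Fin n) (κ : B ↪ Fin n) (H : A → B → Prop) : Set (Matrix A B ℝ) :=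
  {Z | ∃ Z' ∈ blk n ι κ, ∀ i j, ¬ H i j → Z i j = Z' i j}

/-- The positions of the block outside `H`. -/
def pos (n : ℕ) (ι : A ↪ Fin n) (κ : B ↪ Fin n) (H : A → B → Prop) : Set (Fin n × Fin n) :=
  {p | ∃ i j, ¬ H i j ∧ p = (ι i, κ j)}

/-- `X` is a contraction. -/
def Ctr (X : Matrix A B ℝ) : Prop := ∀ v : B → ℝ, (X *ᵥ v) ⬝ᵥ (X *ᵥ v) ≤ v ⬝ᵥ v

/-- `X` is isometric on a space of dimension `≥ k` (on the kernel of `1 - Xᵀ X`). -/
def Iso (k : ℕ) (X : Matrix A B ℝ) : Prop :=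
  k ≤ Module.finrank ℝ (LinearMap.ker (1 - Xᵀ * X).mulVecLin)

/-! ### The gadget -/

/-- Rows (and columns) of the gadget: two indices `< N` and a type `< 8`. -/
abbrev Pt (N : ℕ) : Type := Fin N × Fin N × Fin 8

/-- `x, y` is an active conflict pair. -/
def act (conf : ℕ → ℕ → Bool) (x y : ℕ) : Bool := decide (x < y) && conf x y

/-- The prescribed entries of the gadget.
Row types: 0 `a`, 1 `b`, 2 `e`, 3 pendant of `c`, 4 pendant of `f`, 5 `g`, 6 `p`, 7 free.
Column types: 0 `c`, 1 `d`, 2 `f`, 3,4,5 `q₀,q₁,q₂`, 6 pendant of `a`, 7 pendant of `g`. -/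
def hB (N M : ℕ) (conf : ℕ → ℕ → Bool) (x y t x' y' t' : ℕ) : Bool :=
  (decide (t ≤ 1) && decide (t' ≤ 1) && (decide (x = x') && decide (y = y'))) ||
  (decide (t ≤ 1) && decide (t = t') && (decide (x = x') && decide (y = y' + 1))) ||
  (decide (t = 0) && decide (t' = 6) && (decide (x = x') && decide (y = y'))) ||
  (decide (t = 3) && decide (t' = 0) && (decide (x = x') && decide (y = y'))) ||
  (decide (t = 4) && decide (t' = 2) && (act conf x' y' && (decide (x = x') && decide (y = y')))) ||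
  (decide (t = 2) && (decide (2 ≤ t') && decide (t' ≤ 5)) &&
    (act conf x' y' && (decide (x = x') && decide (y = y')))) ||
  (decide (t = 0) && decide (t' = 2) && (act conf x' y' &&
    ((decide (x = x') && decide (y = y')) || (decide (x = y') && decide (y = x'))))) ||
  (decide (t = 1) && (decide (3 ≤ t') && decide (t' ≤ 5)) && (act conf x' y' &&
    ((decide (x = x') && decide (y = y')) || (decide (x = y') && decide (y = x'))))) ||
  (decide (t = 5) && decide (t' = 0) && (decide (y = 0) && decide (y' + 1 = N) &&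
    (decide (x < M) && decide (3 * x ≤ x') && decide (x' ≤ 3 * x + 2)))) ||
  (decide (t = 6) && decide (t' = 1) && (decide (y < 3) && decide (y' + 1 = N) &&
    (decide (x < M) && decide (3 * x ≤ x') && decide (x' ≤ 3 * x + 2)))) ||
  (decide (t = 5) && decide (t' = 7) && (decide (y = 0) && decide (y' = 0) &&
    (decide (x < M) && decide (x = x'))))

/-- The set of prescribed entries of the gadget. -/
def Hg (N M : ℕ) (conf : ℕ → ℕ → Bool) (r c : Pt N) : Prop :=
  hB N M conf r.1 r.2.1 r.2.2 c.1 c.2.1 c.2.2 = true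

/-- The prescribed values. -/
noncomputable def wg {N : ℕ} (r c : Pt N) : ℝ :=
  if (r.2.2.val = 1 ∧ c.2.2.val = 1 ∧ r.2.1.val = c.2.1.val + 1) ∨
    (r.2.2.val = 0 ∧ c.2.2.val = 6) ∨ (r.2.2.val = 3 ∧ c.2.2.val = 0) ∨
    (r.2.2.val = 4 ∧ c.2.2.val = 2) ∨ (r.2.2.val = 5 ∧ c.2.2.val = 7) ∨
    (r.2.2.val = 1 ∧ c.2.2.val = 3 ∧ r.1 = c.1) ∨
    (r.2.2.val = 1 ∧ c.2.2.val = 4 ∧ r.1 = c.2.1) ∨
    (r.2.2.val = 2 ∧ c.2.2.val = 5) ∨
    (r.2.2.val = 6 ∧ c.2.2.val = 1 ∧ c.1.val = 3 * r.1.val + r.2.1.val)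
  then 1 else 0

/-- The selection problem: choose occurrences `< N` such that every group `{3x, 3x+1, 3x+2}`,
`x < M`, contains a chosen one and no two chosen ones are in conflict. -/
def Sel (N M : ℕ) (conf : ℕ → ℕ → Bool) : Prop :=
  ∃ T : ℕ → Prop, (∀ x < M, T (3 * x) ∨ T (3 * x + 1) ∨ T (3 * x + 2)) ∧
    ∀ x y, x < y → y < N → conf x y = true → ¬ (T x ∧ T y)

end Pool.Agent.SOCX
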