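import Pool.Agent.SOCX.Defs

/-!
# From a rank 3 completion of the gadget to a selection

Write `u r = U r`, `v c = V c ∈ ℝ³`, `u r ⬝ᵥ v c = wg r c` for `Hg r c`; `×₃` is `crossProduct`.
For `x, y < N` let `a b e g p` be the rows and `c d f q` the columns of the types listed at `hB`.

* (G1) `a(x,y), b(x,y) ⊥ c(x,y), d(x,y)`; so `a ×₃ b = 0` or `c ×₃ d = 0` (if `n = a ×₃ b ≠ 0`,
  then `c ×₃ n = 0`, `d ×₃ n = 0` by the triple product formula, hence `c ×₃ d = 0`).
* (G2) if `y + 1 < N`: `a(x,y+1)·c(x,y) = 0`, `b(x,y+1)·d(x,y) = 1`, and `a(x,y+1) ≠ 0`,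
  `c(x,y) ≠ 0` (pendants, value 1).  So not both `a(x,y+1) ×₃ b(x,y+1) = 0` and
  `c(x,y) ×₃ d(x,y) = 0` (`b = λ a`, `d = μ c` would give `1 = λ μ 0`).
* `T x` := `x < N` and `c(x,N-1) ×₃ d(x,N-1) ≠ 0`.  If `T x` then, going down from `N - 1` with G1
  and G2, `a(x,y) ×₃ b(x,y) = 0` for all `y < N`.
* Groups: if `x < M` and none of `3x, 3x+1, 3x+2` is in `T`, then with `o = 3x + s`,
  `d(o,N-1) = μ c(o,N-1)` (`c ≠ 0`), `g(x)·c(o,N-1) = 0` so `g(x)·d(o,N-1) = 0` for `s = 0,1,2`;
  the rows `p(x,0), p(x,1), p(x,2)` have the dot products `δ` with the three `d`'s, so the three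
  `d`'s are linearly independent and `g(x) = 0`; but `g(x)·(pendant) = 1`.
* Conflicts: `x < y < N`, `conf x y`, `T x`, `T y`: `b(x,y) = μ a(x,y)`, `b(y,x) = μ' a(y,x)`
  (the `a`'s are nonzero), `f(x,y) ⊥ a(x,y), a(y,x), e(x,y)`, so
  `f(x,y) ⊥ b(x,y), b(y,x), e(x,y)`, which are independent because `q_s(x,y)` has the dot products
  `δ` with them; so `f(x,y) = 0`; but pendant`·f(x,y) = 1`.
-/

namespace Pool.Agent.SOCX

open Matrix

/-- the dot product in coordinates -/
private def ext_dt (a b : Fin 3 → ℝ) : ℝ := a 0 * b 0 + a 1 * b 1 + a 2 * b 2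

/-- the cross product vanishes -/
private def ext_par (a b : Fin 3 → ℝ) : Prop :=
  a 0 * b 1 = a 1 * b 0 ∧ a 0 * b 2 = a 2 * b 0 ∧ a 1 * b 2 = a 2 * b 1

private theorem ext_par_smul {a b : Fin 3 → ℝ} (ha : a ≠ 0) (h : ext_par a b) :
    ∃ μ : ℝ, b = μ • a := by
  obtain ⟨h1, h2, h3⟩ := h
  by_cases h0 : a 0 = 0
  · by_cases h1' : a 1 = 0
    · have h2' : a 2 ≠ 0 := by
        intro h2'
        apply ha
        funext i
        fin_cases i
        · exact h0
        · exact h1'
        · exact h2'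
      refine ⟨b 2 / a 2, ?_⟩
      funext i
      fin_cases i
      · show b 0 = b 2 / a 2 * a 0
        rw [h0] at h2 ⊢
        have : a 2 * b 0 = 0 := by linarith
        rcases mul_eq_zero.1 this with h | h
        · exact absurd h h2'
        · rw [h]; ring
      · show b 1 = b 2 / a 2 * a 1
        rw [h1'] at h3 ⊢
        have : a 2 * b 1 = 0 := by linarith
        rcases mul_eq_zero.1 this with h | h
        · exact absurd h h2'
        · rw [h]; ring
      · show b 2 = b 2 / a 2 * a 2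
        field_simp
    · refine ⟨b 1 / a 1, ?_⟩
      funext i
      fin_cases i
      · show b 0 = b 1 / a 1 * a 0
        field_simp
        linarith
      · show b 1 = b 1 / a 1 * a 1
        field_simp
      · show b 2 = b 1 / a 1 * a 2
        field_simp
        linarith
  · refine ⟨b 0 / a 0, ?_⟩
    funext i
    fin_cases i
    · show b 0 = b 0 / a 0 * a 0
      field_simp
    · show b 1 = b 0 / a 0 * a 1
      field_simp
      linarith
    · show b 2 = b 0 / a 0 * a 2
      field_simp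
      linarith

private theorem ext_g1 {a b c d : Fin 3 → ℝ} (hac : ext_dt a c = 0) (had : ext_dt a d = 0)
    (hbc : ext_dt b c = 0) (hbd : ext_dt b d = 0) : ext_par a b ∨ ext_par c d := by
  unfold ext_dt at hac had hbc hbd
  by_cases hn : ext_par a b
  · exact Or.inl hn
  · right
    set n : Fin 3 → ℝ := ![a 1 * b 2 - a 2 * b 1, a 2 * b 0 - a 0 * b 2, a 0 * b 1 - a 1 * b 0]
      with hn'
    have e0 : n 0 = a 1 * b 2 - a 2 * b 1 := rfl
    have e1 : n 1 = a 2 * b 0 - a 0 * b 2 := rfl
    have e2 : n 2 = a 0 * b 1 - a 1 * b 0 := rfl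
    have hne : n ≠ 0 := by
      intro h
      apply hn
      have f0 := congrFun h 0
      have f1 := congrFun h 1
      have f2 := congrFun h 2
      rw [e0] at f0
      rw [e1] at f1
      rw [e2] at f2
      simp only [Pi.zero_apply] at f0 f1 f2
      exact ⟨by linarith, by linarith, by linarith⟩
    have hc : ext_par n c := by
      refine ⟨?_, ?_, ?_⟩
      · rw [e0, e1]; linear_combination (-(a 2)) * hbc + b 2 * hac
      · rw [e0, e2]; linear_combination a 1 * hbc - b 1 * hac
      · rw [e1, e2]; linear_combination (-(a 0)) * hbc + b 0 * hac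
    have hd : ext_par n d := by
      refine ⟨?_, ?_, ?_⟩
      · rw [e0, e1]; linear_combination (-(a 2)) * hbd + b 2 * had
      · rw [e0, e2]; linear_combination a 1 * hbd - b 1 * had
      · rw [e1, e2]; linear_combination (-(a 0)) * hbd + b 0 * had
    obtain ⟨μ, hμ⟩ := ext_par_smul hne hc
    obtain ⟨ν, hν⟩ := ext_par_smul hne hd
    rw [hμ, hν]
    refine ⟨?_, ?_, ?_⟩ <;> simp only [Pi.smul_apply, smul_eq_mul] <;> ring

private theorem ext_dual {p d : Fin 3 → Fin 3 → ℝ} {g : Fin 3 → ℝ}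
    (h : ∀ i j, ext_dt (p i) (d j) = if i = j then 1 else 0) (hg : ∀ j, ext_dt g (d j) = 0) :
    g = 0 := by
  have h1 : (Matrix.of p) * (Matrix.of d)ᵀ = 1 := by
    ext i j
    rw [Matrix.mul_apply, Fin.sum_univ_three, Matrix.one_apply, ← h i j]
    rfl
  have h2 : (Matrix.of d)ᵀ * (Matrix.of p) = 1 := mul_eq_one_comm.1 h1
  have h3 : g ᵥ* (Matrix.of d)ᵀ = 0 := by
    funext j
    have := hg j
    unfold ext_dt at this
    rw [Matrix.vecMul, dotProduct, Fin.sum_univ_three]
    exact this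
  calc g = g ᵥ* (1 : Matrix (Fin 3) (Fin 3) ℝ) := (Matrix.vecMul_one g).symm
    _ = g ᵥ* ((Matrix.of d)ᵀ * (Matrix.of p)) := by rw [h2]
    _ = (g ᵥ* (Matrix.of d)ᵀ) ᵥ* (Matrix.of p) := (Matrix.vecMul_vecMul _ _ _).symm
    _ = 0 := by rw [h3, Matrix.zero_vecMul]

private theorem ext_dt_smul_right (a c : Fin 3 → ℝ) (μ : ℝ) :
    ext_dt a (μ • c) = μ * ext_dt a c := by
  unfold ext_dt
  simp only [Pi.smul_apply, smul_eq_mul]
  ring

private theorem ext_dt_smul_left (a c : Fin 3 → ℝ) (μ : ℝ) :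
    ext_dt (μ • a) c = μ * ext_dt a c := by
  unfold ext_dt
  simp only [Pi.smul_apply, smul_eq_mul]
  ring

private theorem ext_dt_comm (a c : Fin 3 → ℝ) : ext_dt a c = ext_dt c a := by
  unfold ext_dt
  ring

private theorem ext_ne_left {a c : Fin 3 → ℝ} (h : ext_dt a c = 1) : a ≠ 0 := by
  rintro rfl
  unfold ext_dt at h
  simp at h

private theorem ext_ne_right {a c : Fin 3 → ℝ} (h : ext_dt a c = 1) : c ≠ 0 := by
  rintro rfl
  unfold ext_dt at h
  simp at h

theorem sel_of_completion {N M : ℕ} {conf : ℕ → ℕ → Bool} (hNM : 3 * M ≤ N) (hN : 3 ≤ N)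
    (U V : Matrix (Pt N) (Fin 3) ℝ)
    (h : ∀ r c, Hg N M conf r c → (U * Vᵀ) r c = wg r c) : Sel N M conf := by
  classical
  -- total versions of the rows and the columns
  set u : ℕ → ℕ → Fin 8 → Fin 3 → ℝ := fun x y t =>
    if hxy : x < N ∧ y < N then U (⟨x, hxy.1⟩, ⟨y, hxy.2⟩, t) else 0 with hu
  set v : ℕ → ℕ → Fin 8 → Fin 3 → ℝ := fun x y t =>
    if hxy : x < N ∧ y < N then V (⟨x, hxy.1⟩, ⟨y, hxy.2⟩, t) else 0 with hv
  have key : ∀ (x y x' y' : ℕ) (hx : x < N) (hy : y < N) (hx' : x' < N) (hy' : y' < N)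
      (t t' : Fin 8), hB N M conf x y t x' y' t' = true →
      ext_dt (u x y t) (v x' y' t') =
        wg ((⟨x, hx⟩, ⟨y, hy⟩, t) : Pt N) ((⟨x', hx'⟩, ⟨y', hy'⟩, t') : Pt N) := by
    intro x y x' y' hx hy hx' hy' t t' hh
    have h1 := h (⟨x, hx⟩, ⟨y, hy⟩, t) (⟨x', hx'⟩, ⟨y', hy'⟩, t') hh
    rw [← h1, Matrix.mul_apply, Fin.sum_univ_three, hu, hv]
    unfold ext_dt
    simp only [hx, hy, hx', hy', and_self, dif_pos, Matrix.transpose_apply]
  -- the values
  have w0 : ∀ (x y : ℕ), x < N → y < N → ∀ t t' : Fin 8, t.val ≤ 1 → t'.val ≤ 1 →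
      ext_dt (u x y t) (v x y t') = 0 := by
    intro x y hx hy t t' ht ht'
    rw [key x y x y hx hy hx hy t t' (by simp [hB, ht, ht'])]
    unfold wg
    rw [if_neg]
    simp only
    omega
  have w1 : ∀ (x y : ℕ), x < N → y + 1 < N → ext_dt (u x (y + 1) 0) (v x y 0) = 0 := by
    intro x y hx hy
    rw [key x (y + 1) x y hx hy hx (by omega) 0 0 (by simp [hB])]
    unfold wg
    rw [if_neg]
    simp
  have w2 : ∀ (x y : ℕ), x < N → y + 1 < N → ext_dt (u x (y + 1) 1) (v x y 1) = 1 := by
    intro x y hx hy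
    rw [key x (y + 1) x y hx hy hx (by omega) 1 1 (by simp [hB])]
    unfold wg
    rw [if_pos]
    simp
  have w3 : ∀ (x y : ℕ), x < N → y < N → ext_dt (u x y 0) (v x y 6) = 1 := by
    intro x y hx hy
    rw [key x y x y hx hy hx hy 0 6 (by simp [hB])]
    unfold wg
    rw [if_pos]
    simp
  have w4 : ∀ (x y : ℕ), x < N → y < N → ext_dt (u x y 3) (v x y 0) = 1 := by
    intro x y hx hy
    rw [key x y x y hx hy hx hy 3 0 (by simp [hB])]
    unfold wg
    rw [if_pos]
    simp
  -- groups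
  have w5 : ∀ (x s : ℕ), x < M → s < 3 → ext_dt (u x 0 5) (v (3 * x + s) (N - 1) 0) = 0 := by
    intro x s hx hs
    rw [key x 0 (3 * x + s) (N - 1) (by omega) (by omega) (by omega) (by omega) 5 0
      (by simp [hB, hx]; omega)]
    unfold wg
    rw [if_neg]
    simp
  have w6 : ∀ (x s : ℕ), x < M → s < 3 → ∀ j : ℕ, j < 3 →
      ext_dt (u x j 6) (v (3 * x + s) (N - 1) 1) = if j = s then 1 else 0 := by
    intro x s hx hs j hj
    rw [key x j (3 * x + s) (N - 1) (by omega) (by omega) (by omega) (by omega) 6 1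
      (by simp [hB, hx, hj]; omega)]
    unfold wg
    by_cases hjs : j = s
    · rw [if_pos, if_pos hjs]
      simp [hjs]
    · rw [if_neg, if_neg hjs]
      simp
      omega
  have w7 : ∀ x : ℕ, x < M → ext_dt (u x 0 5) (v x 0 7) = 1 := by
    intro x hx
    rw [key x 0 x 0 (by omega) (by omega) (by omega) (by omega) 5 7 (by simp [hB, hx])]
    unfold wg
    rw [if_pos]
    simp
  -- conflicts
  have w8 : ∀ x y : ℕ, x < y → y < N → conf x y = true → ext_dt (u x y 0) (v x y 2) = 0 := by
    intro x y hx hy hc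
    rw [key x y x y (by omega) hy (by omega) hy 0 2 (by simp [hB, act, hc, hx])]
    unfold wg
    rw [if_neg]
    simp
  have w9 : ∀ x y : ℕ, x < y → y < N → conf x y = true → ext_dt (u y x 0) (v x y 2) = 0 := by
    intro x y hx hy hc
    rw [key y x x y hy (by omega) (by omega) hy 0 2 (by simp [hB, act, hc, hx])]
    unfold wg
    rw [if_neg]
    simp
  have w10 : ∀ x y : ℕ, x < y → y < N → conf x y = true → ext_dt (u x y 2) (v x y 2) = 0 := by
    intro x y hx hy hc
    rw [key x y x y (by omega) hy (by omega) hy 2 2 (by simp [hB, act, hc, hx])]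
    unfold wg
    rw [if_neg]
    simp
  have w11 : ∀ x y : ℕ, x < y → y < N → conf x y = true → ext_dt (u x y 4) (v x y 2) = 1 := by
    intro x y hx hy hc
    rw [key x y x y (by omega) hy (by omega) hy 4 2 (by simp [hB, act, hc, hx])]
    unfold wg
    rw [if_pos]
    simp
  have wb : ∀ x y : ℕ, x < y → y < N → conf x y = true →
      ext_dt (u x y 1) (v x y 3) = 1 ∧ ext_dt (u x y 1) (v x y 4) = 0 ∧
      ext_dt (u x y 1) (v x y 5) = 0 := by
    intro x y hx hy hc
    refine ⟨?_, ?_, ?_⟩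
    · rw [key x y x y (by omega) hy (by omega) hy 1 3 (by simp [hB, act, hc, hx])]
      unfold wg
      rw [if_pos]
      simp
    · rw [key x y x y (by omega) hy (by omega) hy 1 4 (by simp [hB, act, hc, hx])]
      unfold wg
      rw [if_neg]
      simp
      omega
    · rw [key x y x y (by omega) hy (by omega) hy 1 5 (by simp [hB, act, hc, hx])]
      unfold wg
      rw [if_neg]
      simp
  have wb' : ∀ x y : ℕ, x < y → y < N → conf x y = true →
      ext_dt (u y x 1) (v x y 3) = 0 ∧ ext_dt (u y x 1) (v x y 4) = 1 ∧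
      ext_dt (u y x 1) (v x y 5) = 0 := by
    intro x y hx hy hc
    refine ⟨?_, ?_, ?_⟩
    · rw [key y x x y hy (by omega) (by omega) hy 1 3 (by simp [hB, act, hc, hx])]
      unfold wg
      rw [if_neg]
      simp
      omega
    · rw [key y x x y hy (by omega) (by omega) hy 1 4 (by simp [hB, act, hc, hx])]
      unfold wg
      rw [if_pos]
      simp
    · rw [key y x x y hy (by omega) (by omega) hy 1 5 (by simp [hB, act, hc, hx])]
      unfold wg
      rw [if_neg]
      simp
  have we : ∀ x y : ℕ, x < y → y < N → conf x y = true →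
      ext_dt (u x y 2) (v x y 3) = 0 ∧ ext_dt (u x y 2) (v x y 4) = 0 ∧
      ext_dt (u x y 2) (v x y 5) = 1 := by
    intro x y hx hy hc
    refine ⟨?_, ?_, ?_⟩
    · rw [key x y x y (by omega) hy (by omega) hy 2 3 (by simp [hB, act, hc, hx])]
      unfold wg
      rw [if_neg]
      simp
    · rw [key x y x y (by omega) hy (by omega) hy 2 4 (by simp [hB, act, hc, hx])]
      unfold wg
      rw [if_neg]
      simp
    · rw [key x y x y (by omega) hy (by omega) hy 2 5 (by simp [hB, act, hc, hx])]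
      unfold wg
      rw [if_pos]
      simp
  -- G1
  have G1 : ∀ x y : ℕ, x < N → y < N → ext_par (u x y 0) (u x y 1) ∨
      ext_par (v x y 0) (v x y 1) := by
    intro x y hx hy
    exact ext_g1 (w0 x y hx hy 0 0 (by simp) (by simp)) (w0 x y hx hy 0 1 (by simp) (by simp))
      (w0 x y hx hy 1 0 (by simp) (by simp)) (w0 x y hx hy 1 1 (by simp) (by simp))
  -- G2
  have G2 : ∀ x y : ℕ, x < N → y + 1 < N → ext_par (u x (y + 1) 0) (u x (y + 1) 1) →
      ¬ ext_par (v x y 0) (v x y 1) := by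
    intro x y hx hy h1 h2
    obtain ⟨μ, hμ⟩ := ext_par_smul (ext_ne_left (w3 x (y + 1) hx hy)) h1
    obtain ⟨ν, hν⟩ := ext_par_smul (ext_ne_right (w4 x y hx (by omega))) h2
    have h3 := w2 x y hx hy
    rw [hμ, hν, ext_dt_smul_left, ext_dt_smul_right, w1 x y hx hy] at h3
    simp at h3
  -- going down
  have down : ∀ x : ℕ, x < N → ¬ ext_par (v x (N - 1) 0) (v x (N - 1) 1) →
      ∀ k : ℕ, k < N → ext_par (u x (N - 1 - k) 0) (u x (N - 1 - k) 1) := by
    intro x hx hT k
    induction k with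
    | zero =>
      intro _
      rcases G1 x (N - 1) hx (by omega) with h1 | h1
      · simpa using h1
      · exact absurd h1 hT
    | succ k ih =>
      intro hk
      have h1 := ih (by omega)
      have e : N - 1 - k = (N - 1 - (k + 1)) + 1 := by omega
      rw [e] at h1
      have h2 := G2 x (N - 1 - (k + 1)) hx (by omega) h1
      rcases G1 x (N - 1 - (k + 1)) hx (by omega) with h3 | h3
      · exact h3
      · exact absurd h3 h2
  have down' : ∀ x : ℕ, x < N → ¬ ext_par (v x (N - 1) 0) (v x (N - 1) 1) →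
      ∀ y : ℕ, y < N → ∃ μ : ℝ, u x y 1 = μ • u x y 0 := by
    intro x hx hT y hy
    have h1 := down x hx hT (N - 1 - y) (by omega)
    have e : N - 1 - (N - 1 - y) = y := by omega
    rw [e] at h1
    exact ext_par_smul (ext_ne_left (w3 x y hx hy)) h1
  refine ⟨fun x => x < N ∧ ¬ ext_par (v x (N - 1) 0) (v x (N - 1) 1), ?_, ?_⟩
  · -- groups
    intro x hx
    by_contra hcon
    push Not at hcon
    obtain ⟨n0, n1, n2⟩ := hcon
    have hg : ∀ s : ℕ, s < 3 → ext_dt (u x 0 5) (v (3 * x + s) (N - 1) 1) = 0 := by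
      intro s hs
      have hp : ext_par (v (3 * x + s) (N - 1) 0) (v (3 * x + s) (N - 1) 1) := by
        have hs' : s = 0 ∨ s = 1 ∨ s = 2 := by omega
        rcases hs' with rfl | rfl | rfl
        · exact n0 (by omega)
        · exact n1 (by omega)
        · exact n2 (by omega)
      obtain ⟨μ, hμ⟩ := ext_par_smul
        (ext_ne_right (w4 (3 * x + s) (N - 1) (by omega) (by omega))) hp
      rw [hμ, ext_dt_smul_right, w5 x s hx hs, mul_zero]
    have hzero : u x 0 5 = 0 := by
      refine ext_dual (p := fun j => u x j.val 6)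
        (d := fun s => v (3 * x + s.val) (N - 1) 1) ?_ ?_
      · intro i j
        rw [w6 x j.val hx j.isLt i.val i.isLt]
        by_cases hij : i = j
        · rw [if_pos hij, if_pos (congrArg Fin.val hij)]
        · rw [if_neg hij, if_neg (fun h' => hij (Fin.ext h'))]
      · intro j
        exact hg j.val j.isLt
    exact ext_ne_left (w7 x hx) hzero
  · -- conflicts
    intro x y hxy hy hc ⟨⟨hxN, hTx⟩, ⟨hyN, hTy⟩⟩
    obtain ⟨μ, hμ⟩ := down' x hxN hTx y hy
    obtain ⟨ν, hν⟩ := down' y hyN hTy x hxN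
    have hzero : v x y 2 = 0 := by
      refine ext_dual (p := fun j => v x y (![3, 4, 5] j))
        (d := ![u x y 1, u y x 1, u x y 2]) ?_ ?_
      · intro i j
        rw [ext_dt_comm]
        fin_cases i <;> fin_cases j
        · exact (wb x y hxy hy hc).1
        · exact (wb' x y hxy hy hc).1
        · exact (we x y hxy hy hc).1
        · exact (wb x y hxy hy hc).2.1
        · exact (wb' x y hxy hy hc).2.1
        · exact (we x y hxy hy hc).2.1
        · exact (wb x y hxy hy hc).2.2
        · exact (wb' x y hxy hy hc).2.2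
        · exact (we x y hxy hy hc).2.2
      · intro j
        rw [ext_dt_comm]
        fin_cases j
        · show ext_dt (u x y 1) (v x y 2) = 0
          rw [hμ, ext_dt_smul_left, w8 x y hxy hy hc, mul_zero]
        · show ext_dt (u y x 1) (v x y 2) = 0
          rw [hν, ext_dt_smul_left, w9 x y hxy hy hc, mul_zero]
        · exact w10 x y hxy hy hc
    exact ext_ne_right (w11 x y hxy hy hc) hzero

end Pool.Agent.SOCX
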