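import Pool.Agent.SOCX.Defs

/-!
# Normalising the columns with free rows (row NegB)

`exists_normalised`: with free rows `eA`, `eB` (no entry of `H` there) the matrices `U`, `V` can be
changed in these rows so that `Uᵀ U = s = Vᵀ V`; the other hypotheses are kept.
-/

namespace Pool.Agent.SOCX

open Matrix

open scoped MatrixOrder

variable {A B : Type} [Fintype A] [Fintype B] [DecidableEq A] [DecidableEq B]

omit [DecidableEq A] in
private theorem NegB_bound {r : ℕ} (U : Matrix A (Fin r) ℝ) (x : Fin r → ℝ) :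
    (U *ᵥ x) ⬝ᵥ (U *ᵥ x) ≤ (∑ i, ∑ k, U i k ^ 2) * (x ⬝ᵥ x) := by
  have h1 : (U *ᵥ x) ⬝ᵥ (U *ᵥ x) = ∑ i, (∑ k, U i k * x k) ^ 2 := by
    simp only [dotProduct, mulVec]
    exact Finset.sum_congr rfl fun i _ => by rw [sq]
  have h2 : (x ⬝ᵥ x) = ∑ k, x k ^ 2 := by
    simp only [dotProduct]
    exact Finset.sum_congr rfl fun i _ => by rw [sq]
  rw [h1, h2, Finset.sum_mul]
  exact Finset.sum_le_sum fun i _ => Finset.sum_mul_sq_le_sq_mul_sq _ _ _

omit [DecidableEq A] in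
private theorem NegB_sqrt {r : ℕ} (U : Matrix A (Fin r) ℝ) (s : ℝ)
    (hs : ∑ i, ∑ k, U i k ^ 2 ≤ s) :
    ∃ C : Matrix (Fin r) (Fin r) ℝ, Uᵀ * U + Cᵀ * C = s • (1 : Matrix (Fin r) (Fin r) ℝ) := by
  have hpsd : (s • (1 : Matrix (Fin r) (Fin r) ℝ) - Uᵀ * U).PosSemidef := by
    refine .of_dotProduct_mulVec_nonneg ?_ (fun x => ?_)
    · unfold IsHermitian
      rw [conjTranspose_eq_transpose_of_trivial, transpose_sub, transpose_smul, transpose_one,
        transpose_mul, transpose_transpose]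
    · have h1 := NegB_bound U x
      have h2 : 0 ≤ x ⬝ᵥ x := by
        simp only [dotProduct]
        exact Finset.sum_nonneg fun i _ => mul_self_nonneg _
      have h3 : star x ⬝ᵥ ((s • (1 : Matrix (Fin r) (Fin r) ℝ) - Uᵀ * U) *ᵥ x) =
          s * (x ⬝ᵥ x) - (U *ᵥ x) ⬝ᵥ (U *ᵥ x) := by
        rw [star_trivial, sub_mulVec, dotProduct_sub, smul_mulVec, one_mulVec, dotProduct_smul,
          smul_eq_mul, ← mulVec_mulVec, dotProduct_mulVec, vecMul_transpose]
      rw [h3]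
      nlinarith [mul_le_mul_of_nonneg_right hs h2]
  obtain ⟨C, hC⟩ := CStarAlgebra.nonneg_iff_eq_star_mul_self.mp hpsd.nonneg
  refine ⟨C, ?_⟩
  rw [star_eq_conjTranspose, conjTranspose_eq_transpose_of_trivial] at hC
  rw [← hC]
  abel

/-- change the rows `e k` -/
private theorem NegB_rows {r : ℕ} (U : Matrix A (Fin r) ℝ) (e : Fin r ↪ A) (s : ℝ)
    (hs : ∑ i, ∑ k, U i k ^ 2 ≤ s) :
    ∃ U' : Matrix A (Fin r) ℝ, U'ᵀ * U' = s • (1 : Matrix (Fin r) (Fin r) ℝ) ∧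
      ∀ i, (∀ k, e k ≠ i) → ∀ l, U' i l = U i l := by
  classical
  obtain ⟨U0, hU0⟩ : ∃ U0 : Matrix A (Fin r) ℝ,
      ∀ i l, U0 i l = if i ∈ Set.range e then 0 else U i l :=
    ⟨of fun i l => if i ∈ Set.range e then 0 else U i l, fun _ _ => rfl⟩
  have hs0 : ∑ i, ∑ k, U0 i k ^ 2 ≤ s := by
    refine le_trans (Finset.sum_le_sum fun i _ => Finset.sum_le_sum fun k _ => ?_) hs
    rw [hU0]
    split_ifs
    · nlinarith [sq_nonneg (U i k)]
    · exact le_rfl
  obtain ⟨C, hC⟩ := NegB_sqrt U0 s hs0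
  obtain ⟨U1, hU1⟩ : ∃ U1 : Matrix A (Fin r) ℝ,
      ∀ i l, U1 i l = ∑ k, if e k = i then C k l else 0 :=
    ⟨of fun i l => ∑ k, if e k = i then C k l else 0, fun _ _ => rfl⟩
  obtain ⟨W, hW⟩ : ∃ W : Matrix A (Fin r) ℝ,
      ∀ i l, W i l = if i ∈ Set.range e then U1 i l else U i l :=
    ⟨of fun i l => if i ∈ Set.range e then U1 i l else U i l, fun _ _ => rfl⟩
  refine ⟨W, ?_, ?_⟩
  · rw [← hC]
    ext a b
    rw [mul_apply, Matrix.add_apply, mul_apply, mul_apply]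
    simp only [transpose_apply]
    have h1 : ∑ k, C k a * C k b = ∑ i, if i ∈ Set.range e then U1 i a * U1 i b else 0 := by
      rw [← Finset.sum_filter]
      have h2 : (Finset.univ.filter fun i => i ∈ Set.range e) = Finset.univ.map e := by
        ext i
        simp
      rw [h2, Finset.sum_map]
      refine Finset.sum_congr rfl fun k _ => ?_
      simp only [hU1, EmbeddingLike.apply_eq_iff_eq, Finset.sum_ite_eq', Finset.mem_univ, if_true]
    rw [h1, ← Finset.sum_add_distrib]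
    refine Finset.sum_congr rfl fun i _ => ?_
    rw [hU0, hU0, hW, hW]
    split_ifs <;> ring
  · intro i hi l
    have : i ∉ Set.range e := by
      rintro ⟨k, hk⟩
      exact hi k hk
    rw [hW, if_neg this]

theorem exists_normalised {r : ℕ}
    (H : A → B → Prop) (U : Matrix A (Fin r) ℝ) (V : Matrix B (Fin r) ℝ)
    (eA : Fin r ↪ A) (heA : ∀ k j, ¬ H (eA k) j) (eB : Fin r ↪ B) (heB : ∀ i k, ¬ H i (eB k))
    (h0 : ∀ i j, H i j → (U * Vᵀ) i j = 0)
    (hreg : ∀ Y : Matrix A B ℝ, (∀ i j, ¬ H i j → Y i j = 0) → Uᵀ * Y = 0 → Y * V = 0 → Y = 0) :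
    ∃ (s : ℝ) (U' : Matrix A (Fin r) ℝ) (V' : Matrix B (Fin r) ℝ), 0 < s ∧
      U'ᵀ * U' = s • (1 : Matrix (Fin r) (Fin r) ℝ) ∧
      V'ᵀ * V' = s • (1 : Matrix (Fin r) (Fin r) ℝ) ∧
      (∀ i j, H i j → (U' * V'ᵀ) i j = 0) ∧
      (∀ Y : Matrix A B ℝ, (∀ i j, ¬ H i j → Y i j = 0) → U'ᵀ * Y = 0 → Y * V' = 0 → Y = 0) := by
  have hUn : 0 ≤ ∑ i, ∑ k, U i k ^ 2 :=
    Finset.sum_nonneg fun i _ => Finset.sum_nonneg fun k _ => sq_nonneg _
  have hVn : 0 ≤ ∑ i, ∑ k, V i k ^ 2 :=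
    Finset.sum_nonneg fun i _ => Finset.sum_nonneg fun k _ => sq_nonneg _
  obtain ⟨U', hU', hU'e⟩ := NegB_rows U eA
    (∑ i, ∑ k, U i k ^ 2 + ∑ i, ∑ k, V i k ^ 2 + 1) (by linarith)
  obtain ⟨V', hV', hV'e⟩ := NegB_rows V eB
    (∑ i, ∑ k, U i k ^ 2 + ∑ i, ∑ k, V i k ^ 2 + 1) (by linarith)
  have hUrow : ∀ i j, H i j → ∀ l, U' i l = U i l := fun i j h l =>
    hU'e i (fun k hk => heA k j (hk ▸ h)) l
  have hVrow : ∀ i j, H i j → ∀ l, V' j l = V j l := fun i j h l =>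
    hV'e j (fun k hk => heB i k (hk ▸ h)) l
  refine ⟨_, U', V', by linarith, hU', hV', ?_, ?_⟩
  · intro i j h
    rw [← h0 i j h, mul_apply, mul_apply]
    refine Finset.sum_congr rfl fun l _ => ?_
    rw [transpose_apply, transpose_apply, hUrow i j h, hVrow i j h]
  · intro Y hY h1 h2
    apply hreg Y hY
    · rw [← h1]
      ext l j
      rw [mul_apply, mul_apply]
      refine Finset.sum_congr rfl fun i _ => ?_
      by_cases h : H i j
      · rw [transpose_apply, transpose_apply, hUrow i j h]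
      · rw [hY i j h, mul_zero, mul_zero]
    · rw [← h2]
      ext i l
      rw [mul_apply, mul_apply]
      refine Finset.sum_congr rfl fun j _ => ?_
      by_cases h : H i j
      · rw [hVrow i j h]
      · rw [hY i j h, zero_mul, zero_mul]

end Pool.Agent.SOCX
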