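import Mathlib

namespace Pool.Agent.SOCX

open Matrix

section Vec

variable {A B : Type*} [Fintype A] [Fintype B]

theorem dp_self_nonneg (x : A → ℝ) : 0 ≤ x ⬝ᵥ x :=
  Finset.sum_nonneg fun i _ => mul_self_nonneg (x i)

theorem dp_self_eq_zero {x : A → ℝ} (h : x ⬝ᵥ x ≤ 0) : x = 0 := by
  have h0 : x ⬝ᵥ x = 0 := le_antisymm h (dp_self_nonneg x)
  unfold dotProduct at h0
  rw [Finset.sum_eq_zero_iff_of_nonneg (fun i _ => mul_self_nonneg (x i))] at h0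
  funext i
  exact mul_self_eq_zero.mp (h0 i (Finset.mem_univ i))

/-- Bessel's inequality for a finite orthonormal family. -/
theorem bessel {m : ℕ} (v : Fin m → B → ℝ)
    (hv : ∀ k l, v k ⬝ᵥ v l = if k = l then 1 else 0) (x : B → ℝ) :
    ∑ k, (v k ⬝ᵥ x) ^ 2 ≤ x ⬝ᵥ x := by
  have h0 := dp_self_nonneg (x - ∑ k, (v k ⬝ᵥ x) • v k)
  have h1 : x ⬝ᵥ (∑ k, (v k ⬝ᵥ x) • v k) = ∑ k, (v k ⬝ᵥ x) ^ 2 := by
    rw [dotProduct_sum]
    refine Finset.sum_congr rfl fun k _ => ?_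
    rw [dotProduct_smul, smul_eq_mul, dotProduct_comm x (v k)]
    ring
  have h2 : (∑ k, (v k ⬝ᵥ x) • v k) ⬝ᵥ (∑ k, (v k ⬝ᵥ x) • v k) = ∑ k, (v k ⬝ᵥ x) ^ 2 := by
    rw [sum_dotProduct]
    refine Finset.sum_congr rfl fun k _ => ?_
    rw [smul_dotProduct, dotProduct_sum]
    have : ∀ l, v k ⬝ᵥ ((v l ⬝ᵥ x) • v l) = if k = l then v l ⬝ᵥ x else 0 := by
      intro l
      rw [dotProduct_smul, hv, smul_eq_mul]
      split_ifs <;> simp
    simp_rw [this]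
    rw [Finset.sum_ite_eq]
    simp only [Finset.mem_univ, if_true, smul_eq_mul]
    ring
  have h3 : (x - ∑ k, (v k ⬝ᵥ x) • v k) ⬝ᵥ (x - ∑ k, (v k ⬝ᵥ x) • v k)
      = x ⬝ᵥ x - ∑ k, (v k ⬝ᵥ x) ^ 2 := by
    rw [sub_dotProduct, dotProduct_sub, dotProduct_sub, h1, h2,
      dotProduct_comm (∑ k, (v k ⬝ᵥ x) • v k) x, h1]
    ring
  rw [h3] at h0
  linarith

/-- A unit vector orthogonal to fewer than `card A` given vectors. -/
theorem exists_unit_orth {m : ℕ} (hA : m < Fintype.card A) (u : Fin m → A → ℝ) :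
    ∃ z : A → ℝ, (∀ k, u k ⬝ᵥ z = 0) ∧ z ⬝ᵥ z = 1 := by
  have hker : LinearMap.ker (Matrix.mulVecLin (Matrix.of u)) ≠ ⊥ := by
    apply LinearMap.ker_ne_bot_of_finrank_lt
    rw [Module.finrank_fintype_fun_eq_card, Module.finrank_fintype_fun_eq_card, Fintype.card_fin]
    exact hA
  obtain ⟨x, hx, hx0⟩ := (Submodule.ne_bot_iff _).mp hker
  rw [LinearMap.mem_ker] at hx
  have hxk : ∀ k, u k ⬝ᵥ x = 0 := by
    intro k
    have := congrFun hx k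
    simpa [Matrix.mulVecLin_apply, Matrix.mulVec] using this
  have hpos : 0 < x ⬝ᵥ x := by
    rcases (dp_self_nonneg x).lt_or_eq with h | h
    · exact h
    · exact absurd (dp_self_eq_zero h.symm.le) hx0
  refine ⟨(√(x ⬝ᵥ x))⁻¹ • x, ?_, ?_⟩
  · intro k
    rw [dotProduct_smul, hxk, smul_zero]
  · rw [smul_dotProduct, dotProduct_smul, smul_eq_mul, smul_eq_mul]
    have hs : √(x ⬝ᵥ x) ≠ 0 := (Real.sqrt_pos.mpr hpos).ne'
    have := Real.mul_self_sqrt hpos.le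
    field_simp
    rw [pow_two, this]

/-- The partial isometry `∑ uₖ vₖᵀ`. -/
def PI {m : ℕ} (u : Fin m → A → ℝ) (v : Fin m → B → ℝ) : Matrix A B ℝ :=
  Matrix.of fun i j => ∑ k, u k i * v k j

theorem PI_mulVec {m : ℕ} (u : Fin m → A → ℝ) (v : Fin m → B → ℝ) (x : B → ℝ) :
    PI u v *ᵥ x = ∑ k, (v k ⬝ᵥ x) • u k := by
  funext i
  simp only [Matrix.mulVec, dotProduct, PI, Matrix.of_apply, Finset.sum_apply, Pi.smul_apply,
    smul_eq_mul]
  simp_rw [Finset.sum_mul]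
  rw [Finset.sum_comm]
  refine Finset.sum_congr rfl fun k _ => ?_
  refine Finset.sum_congr rfl fun j _ => ?_
  ring

theorem sum_smul_dp {m : ℕ} (u : Fin m → A → ℝ)
    (hu : ∀ k l, u k ⬝ᵥ u l = if k = l then 1 else 0) (c : Fin m → ℝ) :
    (∑ k, c k • u k) ⬝ᵥ (∑ k, c k • u k) = ∑ k, (c k) ^ 2 := by
  rw [sum_dotProduct]
  refine Finset.sum_congr rfl fun k _ => ?_
  rw [smul_dotProduct, dotProduct_sum]
  have : ∀ l, u k ⬝ᵥ (c l • u l) = if k = l then c l else 0 := by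
    intro l
    rw [dotProduct_smul, hu, smul_eq_mul]
    split_ifs <;> simp
  simp_rw [this]
  rw [Finset.sum_ite_eq]
  simp only [Finset.mem_univ, if_true, smul_eq_mul]
  ring

theorem PI_norm {m : ℕ} (u : Fin m → A → ℝ) (v : Fin m → B → ℝ)
    (hu : ∀ k l, u k ⬝ᵥ u l = if k = l then 1 else 0) (x : B → ℝ) :
    (PI u v *ᵥ x) ⬝ᵥ (PI u v *ᵥ x) = ∑ k, (v k ⬝ᵥ x) ^ 2 := by
  rw [PI_mulVec, sum_smul_dp u hu]

theorem PI_apply_v {m : ℕ} (u : Fin m → A → ℝ) (v : Fin m → B → ℝ)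
    (hv : ∀ k l, v k ⬝ᵥ v l = if k = l then 1 else 0) (l : Fin m) :
    PI u v *ᵥ v l = u l := by
  rw [PI_mulVec]
  have : ∀ k, (v k ⬝ᵥ v l) • u k = if k = l then u k else 0 := by
    intro k
    rw [hv]
    split_ifs <;> simp
  simp_rw [this]
  rw [Finset.sum_ite_eq']
  simp

theorem contraction_transpose (N : Matrix A B ℝ)
    (hN : ∀ x : B → ℝ, (N *ᵥ x) ⬝ᵥ (N *ᵥ x) ≤ x ⬝ᵥ x) (u : A → ℝ) :
    (u ᵥ* N) ⬝ᵥ (u ᵥ* N) ≤ u ⬝ᵥ u := by
  have h1 : (u ᵥ* N) ⬝ᵥ (u ᵥ* N) = u ⬝ᵥ (N *ᵥ (u ᵥ* N)) := by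
    rw [dotProduct_mulVec]
  have h2 := dp_self_nonneg (u - N *ᵥ (u ᵥ* N))
  have h3 := hN (u ᵥ* N)
  rw [sub_dotProduct, dotProduct_sub, dotProduct_sub,
    dotProduct_comm (N *ᵥ (u ᵥ* N)) u, ← h1] at h2
  linarith

theorem pair_eq_sum {m : ℕ} (u : Fin m → A → ℝ) (v : Fin m → B → ℝ) (N : Matrix A B ℝ) :
    ∑ i, ∑ j, PI u v i j * N i j = ∑ k, u k ⬝ᵥ (N *ᵥ v k) := by
  simp only [Matrix.mulVec, dotProduct, PI, Matrix.of_apply]
  simp_rw [Finset.sum_mul, Finset.mul_sum]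
  have : ∀ i, ∑ j, ∑ k, u k i * v k j * N i j = ∑ k, ∑ j, u k i * v k j * N i j :=
    fun i => Finset.sum_comm
  simp_rw [this]
  rw [Finset.sum_comm]
  refine Finset.sum_congr rfl fun k _ => ?_
  refine Finset.sum_congr rfl fun i _ => ?_
  refine Finset.sum_congr rfl fun j _ => ?_
  ring

/-- Equality in the Cauchy-Schwarz inequality for contractions. -/
theorem tight_of_pair {m : ℕ} (u : Fin m → A → ℝ) (v : Fin m → B → ℝ)
    (hu : ∀ k l, u k ⬝ᵥ u l = if k = l then 1 else 0)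
    (hv : ∀ k l, v k ⬝ᵥ v l = if k = l then 1 else 0) (N : Matrix A B ℝ)
    (hN : ∀ x : B → ℝ, (N *ᵥ x) ⬝ᵥ (N *ᵥ x) ≤ x ⬝ᵥ x)
    (hp : (m : ℝ) ≤ ∑ i, ∑ j, PI u v i j * N i j) :
    (∀ k, N *ᵥ v k = u k) ∧ (∀ k, u k ᵥ* N = v k) := by
  rw [pair_eq_sum] at hp
  have hle : ∀ k, u k ⬝ᵥ (N *ᵥ v k) ≤ 1 := by
    intro k
    have h2 := dp_self_nonneg (N *ᵥ v k - u k)
    have h3 := hN (v k)
    have hk := hv k k
    have hk' := hu k k
    simp only [if_true] at hk hk'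
    rw [sub_dotProduct, dotProduct_sub, dotProduct_sub, dotProduct_comm (N *ᵥ v k) (u k)] at h2
    linarith
  have heq : ∀ k, u k ⬝ᵥ (N *ᵥ v k) = 1 := by
    by_contra hcon
    push Not at hcon
    obtain ⟨k, hk⟩ := hcon
    have hlt : ∑ k, u k ⬝ᵥ (N *ᵥ v k) < ∑ _k : Fin m, (1 : ℝ) :=
      Finset.sum_lt_sum (fun k _ => hle k) ⟨k, Finset.mem_univ k, lt_of_le_of_ne (hle k) hk⟩
    simp only [Finset.sum_const, Finset.card_univ, Fintype.card_fin, nsmul_eq_mul, mul_one] at hlt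
    linarith
  constructor
  · intro k
    have h3 := hN (v k)
    have hk := hv k k
    have hk' := hu k k
    simp only [if_true] at hk hk'
    have : N *ᵥ v k - u k = 0 := by
      apply dp_self_eq_zero
      rw [sub_dotProduct, dotProduct_sub, dotProduct_sub, dotProduct_comm (N *ᵥ v k) (u k),
        heq k]
      linarith
    exact sub_eq_zero.mp this
  · intro k
    have h3 := contraction_transpose N hN (u k)
    have hk := hv k k
    have hk' := hu k k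
    simp only [if_true] at hk hk'
    have h4 : (u k ᵥ* N) ⬝ᵥ v k = 1 := by
      rw [← dotProduct_mulVec]; exact heq k
    have : u k ᵥ* N - v k = 0 := by
      apply dp_self_eq_zero
      rw [sub_dotProduct, dotProduct_sub, dotProduct_sub, dotProduct_comm (v k) (u k ᵥ* N), h4]
      linarith
    exact sub_eq_zero.mp this

end Vec

end Pool.Agent.SOCX
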