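import Pool.Agent.SOCX.Cpl
import Pool.Agent.SOCX.Blk
import Pool.Agent.SOCX.NegCore

/-!
# Non-convexity from a stress-free zero completion
-/

namespace Pool.Agent.SOCX

open Matrix

variable {A B : Type} [Fintype A] [Fintype B] [DecidableEq A] [DecidableEq B]

theorem normalize_col {r : ℕ} (U : Matrix A (Fin r) ℝ) (s : ℝ) (hs : 0 < s)
    (hU : Uᵀ * U = s • (1 : Matrix (Fin r) (Fin r) ℝ)) (k l : Fin r) :
    (fun i => U i k / √s) ⬝ᵥ (fun i => U i l / √s) = if k = l then 1 else 0 := by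
  have hss : √s * √s = s := Real.mul_self_sqrt hs.le
  have h := congrFun (congrFun hU k) l
  rw [Matrix.mul_apply, Matrix.smul_apply, Matrix.one_apply] at h
  simp only [Matrix.transpose_apply] at h
  have h2 : (fun i => U i k / √s) ⬝ᵥ (fun i => U i l / √s)
      = (∑ i, U i k * U i l) / (√s * √s) := by
    rw [Finset.sum_div]
    refine Finset.sum_congr rfl fun i _ => ?_
    rw [div_mul_div_comm]
  rw [h2, hss, h]
  split_ifs
  · rw [smul_eq_mul, mul_one, div_self hs.ne']
  · rw [smul_zero, zero_div]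

theorem cons_orthonormal {r : ℕ} (u : Fin r → A → ℝ)
    (hu : ∀ k l, u k ⬝ᵥ u l = if k = l then 1 else 0) (z : A → ℝ)
    (hz : ∀ k, u k ⬝ᵥ z = 0) (hz1 : z ⬝ᵥ z = 1) (k l : Fin (r + 1)) :
    (Fin.cons z u : Fin (r + 1) → A → ℝ) k ⬝ᵥ (Fin.cons z u : Fin (r + 1) → A → ℝ) l
      = if k = l then 1 else 0 := by
  refine Fin.cases ?_ (fun k => ?_) k
  · refine Fin.cases ?_ (fun l => ?_) l
    · simpa using hz1
    · rw [Fin.cons_zero, Fin.cons_succ, dotProduct_comm, hz, if_neg (Fin.succ_ne_zero l).symm]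
  · refine Fin.cases ?_ (fun l => ?_) l
    · rw [Fin.cons_zero, Fin.cons_succ, hz, if_neg (Fin.succ_ne_zero k)]
    · rw [Fin.cons_succ, Fin.cons_succ, hu]
      simp only [Fin.succ_inj]

theorem not_convex_att_T {n r : ℕ} (ι : A ↪ Fin n) (κ : B ↪ Fin n)
    (hcard : Fintype.card A + Fintype.card B = n + r + 1) (hB : Fintype.card B < n)
    (hrA : r < Fintype.card A) (hrB : r < Fintype.card B)
    (H : A → B → Prop) (U : Matrix A (Fin r) ℝ) (V : Matrix B (Fin r) ℝ)
    (s : ℝ) (hs : 0 < s) (hU : Uᵀ * U = s • (1 : Matrix (Fin r) (Fin r) ℝ))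
    (hV : Vᵀ * V = s • (1 : Matrix (Fin r) (Fin r) ℝ))
    (h0 : ∀ i j, H i j → (U * Vᵀ) i j = 0)
    (hreg : ∀ Y : Matrix A B ℝ, (∀ i j, ¬ H i j → Y i j = 0) → Uᵀ * Y = 0 → Y * V = 0 → Y = 0) :
    ¬ Convex ℝ (att n ι κ H) := by
  classical
  intro hconv
  have hs0 : √s ≠ 0 := (Real.sqrt_pos.mpr hs).ne'
  obtain ⟨u, hud⟩ : ∃ u : Fin r → A → ℝ, ∀ k i, u k i = U i k / √s :=
    ⟨fun k i => U i k / √s, fun _ _ => rfl⟩
  obtain ⟨v, hvd⟩ : ∃ v : Fin r → B → ℝ, ∀ k i, v k i = V i k / √s :=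
    ⟨fun k i => V i k / √s, fun _ _ => rfl⟩
  have hu : ∀ k l, u k ⬝ᵥ u l = if k = l then 1 else 0 := by
    intro k l
    have h := normalize_col U s hs hU k l
    rw [← h]
    congr 1 <;> (funext i; exact hud _ _)
  have hv : ∀ k l, v k ⬝ᵥ v l = if k = l then 1 else 0 := by
    intro k l
    have h := normalize_col V s hs hV k l
    rw [← h]
    congr 1 <;> (funext i; exact hvd _ _)
  obtain ⟨z, hz, hz1⟩ := exists_unit_orth hrA u
  obtain ⟨y, hy, hy1⟩ := exists_unit_orth hrB v
  have hblk : ∀ ε : ℝ, ε * ε = 1 →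
      PI (Fin.cons (ε • z) u : Fin (r + 1) → A → ℝ) (Fin.cons y v : Fin (r + 1) → B → ℝ)
        ∈ blk n ι κ := by
    intro ε hε
    have hu' := cons_orthonormal u hu (ε • z)
      (fun k => by rw [dotProduct_smul, hz, smul_zero])
      (by rw [smul_dotProduct, dotProduct_smul, hz1, smul_eq_mul, smul_eq_mul, mul_one, hε])
    have hv' := cons_orthonormal v hv y hy hy1
    obtain ⟨O, hO, hd, hO2⟩ := dil (m := r + 1) ι κ ι.injective κ.injective
      (by rw [hcard, add_assoc]) hB
      (PI (Fin.cons (ε • z) u : Fin (r + 1) → A → ℝ) (Fin.cons y v : Fin (r + 1) → B → ℝ))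
      (fun x => by rw [PI_norm _ _ hu']; exact bessel _ hv' x)
      (Fin.cons y v) hv'
      (fun k => by
        rw [PI_apply_v _ _ hv']
        simpa using hu' k k)
    exact ⟨O, ⟨hO, hd⟩, fun i j => (hO2 i j).symm⟩
  have hmem : PI u v ∈ att n ι κ H := by
    have h1 := hblk 1 (by norm_num)
    have h2 := hblk (-1) (by norm_num)
    have h1' : PI (Fin.cons ((1 : ℝ) • z) u : Fin (r + 1) → A → ℝ)
        (Fin.cons y v : Fin (r + 1) → B → ℝ) ∈ att n ι κ H :=
      ⟨_, h1, fun _ _ _ => rfl⟩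
    have h2' : PI (Fin.cons ((-1 : ℝ) • z) u : Fin (r + 1) → A → ℝ)
        (Fin.cons y v : Fin (r + 1) → B → ℝ) ∈ att n ι κ H :=
      ⟨_, h2, fun _ _ _ => rfl⟩
    have h3 := hconv h1' h2' (by norm_num : (0 : ℝ) ≤ 1 / 2) (by norm_num : (0 : ℝ) ≤ 1 / 2)
      (by norm_num)
    convert h3 using 1
    ext i j
    simp only [Matrix.add_apply, Matrix.smul_apply, PI, Matrix.of_apply, Fin.sum_univ_succ,
      Fin.cons_zero, Fin.cons_succ, Pi.smul_apply, smul_eq_mul]
    ring
  obtain ⟨Z, hZ, hZe⟩ := hmem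
  have hH0 : ∀ i j, H i j → PI u v i j = 0 := by
    intro i j hij
    have h := h0 i j hij
    rw [Matrix.mul_apply] at h
    simp only [Matrix.transpose_apply] at h
    have h2 : PI u v i j = (∑ k, U i k * V j k) / (√s * √s) := by
      rw [Finset.sum_div]
      show ∑ k, u k i * v k j = _
      refine Finset.sum_congr rfl fun k _ => ?_
      rw [hud, hvd, div_mul_div_comm]
    rw [h2, h, zero_div]
  have hpair : (r : ℝ) ≤ ∑ i, ∑ j, PI u v i j * Z i j := by
    have h1 : ∀ i j, PI u v i j * Z i j = PI u v i j * PI u v i j := by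
      intro i j
      by_cases hij : H i j
      · rw [hH0 i j hij, zero_mul, zero_mul]
      · rw [hZe i j hij]
    simp_rw [h1]
    rw [pair_eq_sum]
    have h2 : ∀ k, u k ⬝ᵥ (PI u v *ᵥ v k) = 1 := by
      intro k
      rw [PI_apply_v _ _ hv]
      simpa using hu k k
    simp_rw [h2]
    simp
  obtain ⟨hZ1, hZ2⟩ := tight_of_pair u v hu hv Z (blk_ctr hZ) hpair
  have hPIt : ∀ k, u k ᵥ* PI u v = v k := by
    intro k
    funext j
    simp only [Matrix.vecMul, dotProduct, PI, Matrix.of_apply]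
    simp_rw [Finset.mul_sum]
    rw [Finset.sum_comm]
    have : ∀ l, ∑ i, u k i * (u l i * v l j) = if k = l then v l j else 0 := by
      intro l
      have h := hu k l
      rw [dotProduct] at h
      have h2 : ∑ i, u k i * (u l i * v l j) = (∑ i, u k i * u l i) * v l j := by
        rw [Finset.sum_mul]
        refine Finset.sum_congr rfl fun i _ => ?_
        ring
      rw [h2, h]
      split_ifs <;> simp
    simp_rw [this]
    rw [Finset.sum_ite_eq]
    simp
  have hUk : ∀ i k, U i k = √s * u k i := by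
    intro i k
    rw [hud]
    field_simp
  have hVk : ∀ i k, V i k = √s * v k i := by
    intro i k
    rw [hvd]
    field_simp
  have hY : Z - PI u v = 0 := by
    apply hreg
    · intro i j hij
      rw [Matrix.sub_apply, hZe i j hij, sub_self]
    · ext k j
      rw [Matrix.mul_apply, Matrix.zero_apply]
      have h1 := congrFun (hZ2 k) j
      have h2 := congrFun (hPIt k) j
      simp only [Matrix.vecMul, dotProduct] at h1 h2
      have h3 : ∑ i, Uᵀ k i * (Z - PI u v) i j
          = √s * (∑ i, u k i * Z i j - ∑ i, u k i * PI u v i j) := by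
        rw [← Finset.sum_sub_distrib, Finset.mul_sum]
        refine Finset.sum_congr rfl fun i _ => ?_
        rw [Matrix.transpose_apply, Matrix.sub_apply, hUk]
        ring
      rw [h3, h1, h2, sub_self, mul_zero]
    · ext i k
      rw [Matrix.mul_apply, Matrix.zero_apply]
      have h1 := congrFun (hZ1 k) i
      have h2 := congrFun (PI_apply_v u v hv k) i
      simp only [Matrix.mulVec, dotProduct] at h1 h2
      have h3 : ∑ j, (Z - PI u v) i j * V j k
          = √s * (∑ j, Z i j * v k j - ∑ j, PI u v i j * v k j) := by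
        rw [← Finset.sum_sub_distrib, Finset.mul_sum]
        refine Finset.sum_congr rfl fun j _ => ?_
        rw [Matrix.sub_apply, hVk]
        ring
      rw [h3, h1, h2, sub_self, mul_zero]
  have hZe' : Z = PI u v := sub_eq_zero.mp hY
  obtain ⟨w, hw0, hw1, hw2⟩ := blk_vec hcard hZ V
  apply hw0
  apply dp_self_eq_zero
  rw [← hw2, hZe', PI_norm u v hu]
  apply le_of_eq
  refine Finset.sum_eq_zero fun k _ => ?_
  have h1 := congrFun hw1 k
  simp only [Matrix.mulVec, dotProduct, Matrix.transpose_apply, Pi.zero_apply] at h1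
  have h2 : v k ⬝ᵥ w = (∑ j, V j k * w j) / √s := by
    rw [Finset.sum_div]
    refine Finset.sum_congr rfl fun j _ => ?_
    rw [hvd]
    ring
  rw [h2, h1, zero_div]
  norm_num

end Pool.Agent.SOCX
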