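import Pool.Agent.SOCX.Cpl
import Pool.Agent.SOCX.Blk
import Pool.Agent.SOCX.NegT
import Pool.Agent.SOCX.NegB

/-!
# Non-convexity from a stress-free zero completion

`not_convex_att`.  Let `X = (1/s) U Vᵀ`.  Choose unit vectors `u ⊥` columns of `U` (`r < card A`)
and `v ⊥` columns of `V` (`r < card B`).  `X± = X ± u vᵀ` satisfy
`X±ᵀ X± = (1/s) V Vᵀ + v vᵀ`, an orthogonal projection onto the span of the `r + 1` orthogonal
vectors `V_k, v`; so `Ctr X±`, `Iso (r+1) X±`, hence `X± ∈ blk` (`mem_blk_of_iso`), and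
`X = (X₊ + X₋)/2 ∈ att` if `att` is convex.  So there is `Z ∈ blk` with `Z = X` off `H`.  As
`U Vᵀ = 0` on `H`, `∑_k U_k · (Z V_k) = ⟨U Vᵀ, Z⟩ = ⟨U Vᵀ, X⟩ = r s` (`U_k`, `V_k` columns, of
square norm `s`), and `|Z V_k|² ≤ s` (`blk_ctr`), so `∑ |U_k - Z V_k|² ≤ 0`: `Z V = U`, similarly
`Zᵀ U = V` (from `|Zᵀ u|² = u · Z (Zᵀ u) ≤ |u| |Zᵀ u|`).  `Y = Z - X` is supported on `H`,
`Y V = 0`, `Uᵀ Y = 0`, so `Y = 0`, `Z = X`.  But `blk_vec` gives `v ≠ 0` with `Vᵀ v = 0` and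
`|Z v| = |v|`, while `X v = 0`.

`not_convex_att'`: replace the rows `eA k` of `U` by the rows of an `r × r` matrix `C` with
`Cᵀ C = s - U₀ᵀ U₀` (`U₀` = `U` with these rows set to zero; `s` large makes this positive
semidefinite, `Matrix.posSemidef_iff_eq_conjTranspose_mul_self`); similarly for `V` with the same
`s`.  As `H` has no entry in these rows/columns nothing changes in `h0`, `hreg`.
-/

namespace Pool.Agent.SOCX

open Matrix

variable {A B : Type} [Fintype A] [Fintype B] [DecidableEq A] [DecidableEq B]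

theorem not_convex_att {n r : ℕ} (ι : A ↪ Fin n) (κ : B ↪ Fin n)
    (hcard : Fintype.card A + Fintype.card B = n + r + 1) (hB : Fintype.card B < n)
    (hrA : r < Fintype.card A) (hrB : r < Fintype.card B)
    (H : A → B → Prop) (U : Matrix A (Fin r) ℝ) (V : Matrix B (Fin r) ℝ)
    (s : ℝ) (hs : 0 < s) (hU : Uᵀ * U = s • (1 : Matrix (Fin r) (Fin r) ℝ))
    (hV : Vᵀ * V = s • (1 : Matrix (Fin r) (Fin r) ℝ))
    (h0 : ∀ i j, H i j → (U * Vᵀ) i j = 0)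
    (hreg : ∀ Y : Matrix A B ℝ, (∀ i j, ¬ H i j → Y i j = 0) → Uᵀ * Y = 0 → Y * V = 0 → Y = 0) :
    ¬ Convex ℝ (att n ι κ H) := by
  exact not_convex_att_T ι κ hcard hB hrA hrB H U V s hs hU hV h0 hreg

theorem not_convex_att' {n r : ℕ} (ι : A ↪ Fin n) (κ : B ↪ Fin n)
    (hcard : Fintype.card A + Fintype.card B = n + r + 1) (hB : Fintype.card B < n)
    (hrA : r < Fintype.card A) (hrB : r < Fintype.card B)
    (H : A → B → Prop) (U : Matrix A (Fin r) ℝ) (V : Matrix B (Fin r) ℝ)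
    (eA : Fin r ↪ A) (heA : ∀ k j, ¬ H (eA k) j) (eB : Fin r ↪ B) (heB : ∀ i k, ¬ H i (eB k))
    (h0 : ∀ i j, H i j → (U * Vᵀ) i j = 0)
    (hreg : ∀ Y : Matrix A B ℝ, (∀ i j, ¬ H i j → Y i j = 0) → Uᵀ * Y = 0 → Y * V = 0 → Y = 0) :
    ¬ Convex ℝ (att n ι κ H) := by
  obtain ⟨s, U', V', hs, hU, hV, h0', hreg'⟩ := exists_normalised H U V eA heA eB heB h0 hreg
  exact not_convex_att ι κ hcard hB hrA hrB H U' V' s hs hU hV h0' hreg'

end Pool.Agent.SOCX
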