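import Pool.Agent.SOCX.ReaCh

/-!
# From a selection to a stress-free zero completion of the gadget

Let `T` be the selection, `α_o = (o, -1, 0)`, `γ_o = (1, o, o²)`; `α_o · γ_o = 0`.

Vectors.  `g_j = ∑_{s<3} [3j+s ∈ T] γ_{3j+s+1} ×₃ γ_{3j+s+2}` (indices `s` mod 3), so
`g_j · γ_{3j+s} = 2 [3j+s ∈ T]`.  `f(x,y) = (s₂ - s₁, s₂ x - s₁ y, 0)` with `s₁ = [x ∉ T]`,
`s₂ = [y ∉ T]`, so `f·α_x = s₁ (y-x)`, `f·α_y = s₂ (y-x)`.
`G(o,y) = g_{o/3}` if `y + 1 = N` and `o/3 < M`, else `γ_o` (so `G·γ_o ≠ 0` if `o ∈ T`).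
`F(o,y) = f(min,max)` of the pair `{o,y}` if it is active, else `α_o` (`F·α_o ≠ 0` if `o ∉ T`).

rows:  0 `a(o,y)` = `α_o` if `o ∈ T` else `γ_o ×₃ F(o,y)`;   1 `b(o,y) = α_o`;
       2 `e(x,y) = (0,0,1)` if the pair is active else 0;   5 `g(j,0) = g_j` (`j < M`), else 0;
       3, 4, 6, 7: 0.
columns: 0 `c(o,y)` = `γ_o` if `o ∉ T` else `α_o ×₃ G(o,y)`;  1 `d(o,y) = γ_o`;
       2 `f(x,y)` if the pair is active else 0;   3-7: 0.

Zero products: clear from `γ_o·α_o = 0` and the construction.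

No stress: let `Y` be supported on `Hg`, `∑_c Y r c • v c = 0`, `∑_r Y r c • u r = 0`.  Every step
is of the form: for a row `r`, a column `c₀` and `z ∈ ℝ³` with `v c₀ · z ≠ 0` and
`Y r c = 0 ∨ v c · z = 0` for all other `c`, conclude `Y r c₀ = 0` (and the same with rows and
columns exchanged).  Order:
 1. pendant columns 6 (z = `a ≠ 0`), pendant columns 7 (z = `g ≠ 0`), pendant rows 3 (z = `c ≠ 0`),
    pendant rows 4 (z = `f ≠ 0`).
 2. columns 3,4,5 of `(x,y)`: rows `b(x,y)`, `b(y,x)`, `e`: z = (1,y,0), (1,x,0), (0,0,1).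
 3. rows 6 `(j,s)`: columns `d(3j+s',N-1)`: z = cross product of the other two `γ`'s.
 4. rows `a(x,y)`, `x ∉ T`: the edge to `f`: z = `α_x`.
 5. columns `f(x,y)`: `e`: z = (0,0,1) (the `a`-entry of an index not in `T` is zero by 4); then
    `a` of the index in `T`: z = `α`.
 6. columns `c(o,N-1)`, `o ∈ T`: the edge to `g`: z = `γ_o`.
 7. row `g_j`: `c(3j+s,N-1)`, `3j+s ∉ T`: z = cross product of the other two `γ`'s.
 8. `o ∈ T`, induction on `y`: row `a(o,y)`: `d` (z = `G(o,y)`), then `c` (z = `c`); row `b(o,y)`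
    the same; column `c(o,y)`: `a(o,y+1)` (z = `α_o`); column `d(o,y)`: `b(o,y+1)` (z = `α_o`).
 9. `o ∉ T`, induction downwards from `y = N-1`: column `c(o,y)`: `b` (z = `F(o,y)`), then `a`
    (z = `a`); column `d(o,y)` the same; row `a(o,y)`: `c(o,y-1)` (z = `γ_o`); row `b(o,y)`:
    `d(o,y-1)` (z = `γ_o`).
-/

namespace Pool.Agent.SOCX

open Matrix

/-- a point from three numbers -/
def mk {N : ℕ} (x y t : ℕ) (hx : x < N) (hy : y < N) (ht : t < 8) : Pt N := (⟨x, hx⟩, ⟨y, hy⟩, ⟨t, ht⟩)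

open Classical in
/-- a matrix on points as a function of six numbers -/
noncomputable def toN {N : ℕ} (Y : Matrix (Pt N) (Pt N) ℝ) (x y t x' y' t' : ℕ) : ℝ :=
  if h : (x < N ∧ y < N ∧ t < 8) ∧ (x' < N ∧ y' < N ∧ t' < 8) then
    Y (mk x y t h.1.1 h.1.2.1 h.1.2.2) (mk x' y' t' h.2.1 h.2.2.1 h.2.2.2)
  else 0

theorem toN_eq {N : ℕ} (Y : Matrix (Pt N) (Pt N) ℝ) (r c : Pt N) :
    toN Y r.1 r.2.1 r.2.2 c.1 c.2.1 c.2.2 = Y r c := by
  unfold toN
  rw [dif_pos ⟨⟨r.1.2, r.2.1.2, r.2.2.2⟩, ⟨c.1.2, c.2.1.2, c.2.2.2⟩⟩]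
  rfl

theorem str_of {N M : ℕ} {conf : ℕ → ℕ → Bool} {T : ℕ → Prop} (U V : Matrix (Pt N) (Fin 3) ℝ)
    (hU : ∀ r, U r = uv N M conf T r.1 r.2.1 r.2.2) (hV : ∀ c, V c = vv N M conf T c.1 c.2.1 c.2.2)
    (Y : Matrix (Pt N) (Pt N) ℝ) (h0 : ∀ r c, ¬ Hg N M conf r c → Y r c = 0)
    (h1 : Uᵀ * Y = 0) (h2 : Y * V = 0) : Str N M conf T (toN Y) := by
  have hrow : ∀ (r : Pt N) (z : Fin 3 → ℝ), ∑ c, Y r c * (V c ⬝ᵥ z) = 0 := by
    intro r z
    have h3 : ∀ k, ∑ c, Y r c * V c k = 0 := fun k => by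
      have := congrFun (congrFun h2 r) k
      simpa [Matrix.mul_apply] using this
    have h4 : ∑ c, Y r c * (V c ⬝ᵥ z) = ∑ k, (∑ c, Y r c * V c k) * z k := by
      simp only [dotProduct, Finset.mul_sum, Finset.sum_mul]
      rw [Finset.sum_comm]
      exact Finset.sum_congr rfl fun k _ => Finset.sum_congr rfl fun c _ => by ring
    rw [h4]
    exact Finset.sum_eq_zero fun k _ => by rw [h3 k, zero_mul]
  have hcol : ∀ (c : Pt N) (z : Fin 3 → ℝ), ∑ r, Y r c * (U r ⬝ᵥ z) = 0 := by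
    intro c z
    have h3 : ∀ k, ∑ r, U r k * Y r c = 0 := fun k => by
      have := congrFun (congrFun h1 k) c
      simpa [Matrix.mul_apply, Matrix.transpose_apply] using this
    have h4 : ∑ r, Y r c * (U r ⬝ᵥ z) = ∑ k, (∑ r, U r k * Y r c) * z k := by
      simp only [dotProduct, Finset.mul_sum, Finset.sum_mul]
      rw [Finset.sum_comm]
      exact Finset.sum_congr rfl fun k _ => Finset.sum_congr rfl fun c _ => by ring
    rw [h4]
    exact Finset.sum_eq_zero fun k _ => by rw [h3 k, zero_mul]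
  refine ⟨?_, ?_⟩
  · intro x y t x0 y0 t0 z hx hy ht hx0 hy0 ht0 hz hh
    set r : Pt N := mk x y t hx hy ht with hr
    set c0 : Pt N := mk x0 y0 t0 hx0 hy0 ht0 with hc0
    have h5 : toN Y x y t x0 y0 t0 = Y r c0 := toN_eq Y r c0
    rw [h5]
    have h6 := hrow r z
    rw [Finset.sum_eq_single c0] at h6
    · rcases mul_eq_zero.1 h6 with h7 | h7
      · exact h7
      · exact absurd (by rw [hV] at h7; exact h7) hz
    · intro c _ hc
      by_cases hHg : Hg N M conf r c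
      · have hne : ¬ ((c.1 : ℕ) = x0 ∧ (c.2.1 : ℕ) = y0 ∧ (c.2.2 : ℕ) = t0) := by
          rintro ⟨e1, e2, e3⟩
          exact hc (Prod.ext (Fin.ext e1) (Prod.ext (Fin.ext e2) (Fin.ext e3)))
        rcases hh c.1 c.2.1 c.2.2 c.1.2 c.2.1.2 c.2.2.2 hHg hne with h7 | h7
        · have h8 : toN Y x y t c.1 c.2.1 c.2.2 = Y r c := toN_eq Y r c
          rw [← h8, h7, zero_mul]
        · rw [hV, h7, mul_zero]
      · rw [h0 r c hHg, zero_mul]
    · intro h; exact absurd (Finset.mem_univ _) h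
  · intro x y t x0 y0 t0 z hx hy ht hx0 hy0 ht0 hz hh
    set c : Pt N := mk x y t hx hy ht with hr
    set r0 : Pt N := mk x0 y0 t0 hx0 hy0 ht0 with hr0
    have h5 : toN Y x0 y0 t0 x y t = Y r0 c := toN_eq Y r0 c
    rw [h5]
    have h6 := hcol c z
    rw [Finset.sum_eq_single r0] at h6
    · rcases mul_eq_zero.1 h6 with h7 | h7
      · exact h7
      · exact absurd (by rw [hU] at h7; exact h7) hz
    · intro r _ hr1
      by_cases hHg : Hg N M conf r c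
      · have hne : ¬ ((r.1 : ℕ) = x0 ∧ (r.2.1 : ℕ) = y0 ∧ (r.2.2 : ℕ) = t0) := by
          rintro ⟨e1, e2, e3⟩
          exact hr1 (Prod.ext (Fin.ext e1) (Prod.ext (Fin.ext e2) (Fin.ext e3)))
        rcases hh r.1 r.2.1 r.2.2 r.1.2 r.2.1.2 r.2.2.2 hHg hne with h7 | h7
        · have h8 : toN Y r.1 r.2.1 r.2.2 x y t = Y r c := toN_eq Y r c
          rw [← h8, h7, zero_mul]
        · rw [hU, h7, mul_zero]
      · rw [h0 r c hHg, zero_mul]
    · intro h; exact absurd (Finset.mem_univ _) h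

theorem realization {N M : ℕ} {conf : ℕ → ℕ → Bool} (hNM : 3 * M ≤ N) (hN : 3 ≤ N)
    (hS : Sel N M conf) : ∃ U V : Matrix (Pt N) (Fin 3) ℝ,
      (∀ r c, Hg N M conf r c → (U * Vᵀ) r c = 0) ∧
      ∀ Y : Matrix (Pt N) (Pt N) ℝ, (∀ r c, ¬ Hg N M conf r c → Y r c = 0) →
        Uᵀ * Y = 0 → Y * V = 0 → Y = 0 := by
  obtain ⟨T, hg, hc⟩ := hS
  let U : Matrix (Pt N) (Fin 3) ℝ := fun r => uv N M conf T r.1 r.2.1 r.2.2
  let V : Matrix (Pt N) (Fin 3) ℝ := fun c => vv N M conf T c.1 c.2.1 c.2.2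
  refine ⟨U, V, ?_, ?_⟩
  · intro r c h
    exact products hc c.2.1.2 h
  · intro Y h0 h1 h2
    have hs := str_of U V (fun _ => rfl) (fun _ => rfl) Y h0 h1 h2
    ext r c
    by_cases hh : Hg N M conf r c
    · have h3 := stress_zero hs hNM hN hg hc r.1.2 r.2.1.2 c.1.2 c.2.1.2 hh
      rw [toN_eq] at h3
      exact h3
    · exact h0 r c hh

end Pool.Agent.SOCX
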