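import Pool.Agent.SOCX.Pos
import Pool.Agent.SOCX.Neg
import Pool.Agent.SOCX.Ext
import Pool.Agent.SOCX.Rea

/-!
# The gadget inside `SO(n)`, `n = 16 N² - 4`

`gadget`: `Fintype.card (Pt N) = 8 N²`, so `card + card = n + 3 + 1`.
If `Sel` fails, then `wg` has no completion with three columns (`sel_of_completion`), and
`convex_att` applies (with `convex_proj_iff`, `mem_posL`).  If `Sel` holds, `realization` and
`not_convex_att'` apply with the rows `(k, 0, 7)` and the columns `(k, 1, 7)`, `k < 3`, in which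
`Hg` has no entry.
-/

namespace Pool.Agent.SOCX

open Matrix

/-- The size of the rotation group. -/
def gn (N : ℕ) : ℕ := 16 * (N * N) - 4

/-- The number of a point. -/
def idx (N x y t : ℕ) : ℕ := (x * N + y) * 8 + t

theorem gad_card_lt {N : ℕ} (hN : 3 ≤ N) : 8 * (N * N) < gn N := by
  unfold gn
  have : 9 ≤ N * N := Nat.mul_le_mul hN hN
  omega

theorem idx_lt {N x y t : ℕ} (hN : 3 ≤ N) (hx : x < N) (hy : y < N) (ht : t < 8) :
    idx N x y t < gn N := by
  refine lt_trans ?_ (gad_card_lt hN)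
  unfold idx
  have h1 : (x + 1) * N ≤ N * N := Nat.mul_le_mul_right N hx
  have h2 : (x + 1) * N = x * N + N := by ring
  omega

theorem idx_inj {N x y t x' y' t' : ℕ} (hy : y < N) (ht : t < 8) (hy' : y' < N) (ht' : t' < 8)
    (h : idx N x y t = idx N x' y' t') : x = x' ∧ y = y' ∧ t = t' := by
  unfold idx at h
  have h1 : t = t' := by omega
  have h2 : x * N + y = x' * N + y' := by omega
  have hN : 0 < N := by omega
  have h3 : x = x' := by
    have h4 : (x * N + y) / N = (x' * N + y') / N := by rw [h2]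
    rw [mul_comm x N, mul_comm x' N, Nat.mul_add_div hN, Nat.mul_add_div hN,
      Nat.div_eq_of_lt hy, Nat.div_eq_of_lt hy'] at h4
    simpa using h4
  subst h3
  exact ⟨rfl, by omega, h1⟩

/-- The numbering of the points. -/
def emb (N : ℕ) (hN : 3 ≤ N) : Pt N ↪ Fin (gn N) where
  toFun p := ⟨idx N p.1 p.2.1 p.2.2, idx_lt hN p.1.2 p.2.1.2 p.2.2.2⟩
  inj' p q h := by
    have h1 := idx_inj p.2.1.2 p.2.2.2 q.2.1.2 q.2.2.2 (Fin.mk.inj_iff.1 h)
    obtain ⟨h2, h3, h4⟩ := h1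
    exact Prod.ext (Fin.ext h2) (Prod.ext (Fin.ext h3) (Fin.ext h4))

/-- The list of the positions of the projection. -/
def posL (N M : ℕ) (conf : ℕ → ℕ → Bool) : List (ℕ × ℕ) :=
  (List.range N).flatMap fun x => (List.range N).flatMap fun y => (List.range 8).flatMap fun t =>
  (List.range N).flatMap fun x' => (List.range N).flatMap fun y' =>
  (List.range 8).flatMap fun t' =>
    if hB N M conf x y t x' y' t' then [] else [(idx N x y t, idx N x' y' t')]

theorem gad_mem {N M : ℕ} {conf : ℕ → ℕ → Bool} {q : ℕ × ℕ} :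
    q ∈ posL N M conf ↔ ∃ x < N, ∃ y < N, ∃ t < 8, ∃ x' < N, ∃ y' < N, ∃ t' < 8,
      ¬ hB N M conf x y t x' y' t' = true ∧ q = (idx N x y t, idx N x' y' t') := by
  unfold posL
  simp only [List.mem_flatMap, List.mem_range]
  refine exists_congr fun x => and_congr Iff.rfl (exists_congr fun y => and_congr Iff.rfl
    (exists_congr fun t => and_congr Iff.rfl (exists_congr fun x' => and_congr Iff.rfl
    (exists_congr fun y' => and_congr Iff.rfl (exists_congr fun t' => and_congr Iff.rfl ?_)))))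
  split_ifs with h
  · simp [h]
  · simp [h]

theorem mem_posL {N M : ℕ} (hN : 3 ≤ N) (conf : ℕ → ℕ → Bool) (p : Fin (gn N) × Fin (gn N)) :
    ((p.1 : ℕ), (p.2 : ℕ)) ∈ posL N M conf ↔
      p ∈ pos (gn N) (emb N hN) (emb N hN) (Hg N M conf) := by
  rw [gad_mem]
  constructor
  · rintro ⟨x, hx, y, hy, t, ht, x', hx', y', hy', t', ht', hB, hq⟩
    refine ⟨(⟨x, hx⟩, ⟨y, hy⟩, ⟨t, ht⟩), (⟨x', hx'⟩, ⟨y', hy'⟩, ⟨t', ht'⟩), hB, ?_⟩
    have h1 := congrArg Prod.fst hq
    have h2 := congrArg Prod.snd hq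
    exact Prod.ext (Fin.ext h1) (Fin.ext h2)
  · rintro ⟨i, j, hH, rfl⟩
    exact ⟨i.1, i.1.2, i.2.1, i.2.1.2, i.2.2, i.2.2.2, j.1, j.1.2, j.2.1, j.2.1.2, j.2.2,
      j.2.2.2, hH, rfl⟩

theorem posL_lt {N M : ℕ} (hN : 3 ≤ N) (conf : ℕ → ℕ → Bool) :
    ∀ q ∈ posL N M conf, q.1 < gn N ∧ q.2 < gn N := by
  intro q hq
  obtain ⟨x, hx, y, hy, t, ht, x', hx', y', hy', t', ht', -, rfl⟩ := gad_mem.1 hq
  exact ⟨idx_lt hN hx hy ht, idx_lt hN hx' hy' ht'⟩

theorem gad_row {N M : ℕ} {conf : ℕ → ℕ → Bool} {x y x' y' t' : ℕ} :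
    ¬ hB N M conf x y 7 x' y' t' = true := by
  simp [hB]

theorem gad_col {N M : ℕ} {conf : ℕ → ℕ → Bool} {x y t x' : ℕ} :
    ¬ hB N M conf x y t x' 1 7 = true := by
  simp [hB]
  omega

theorem gadget {N M : ℕ} (hN : 3 ≤ N) (hNM : 3 * M ≤ N) (conf : ℕ → ℕ → Bool) :
    Convex ℝ (proj (gn N) {p | ((p.1 : ℕ), (p.2 : ℕ)) ∈ posL N M conf}) ↔ ¬ Sel N M conf := by
  have hS : {p : Fin (gn N) × Fin (gn N) | ((p.1 : ℕ), (p.2 : ℕ)) ∈ posL N M conf} =
      pos (gn N) (emb N hN) (emb N hN) (Hg N M conf) := by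
    ext p
    exact mem_posL hN conf p
  rw [hS, convex_proj_iff]
  have hc : Fintype.card (Pt N) = 8 * (N * N) := by
    simp only [Pt, Fintype.card_prod, Fintype.card_fin]
    ring
  have hlt := gad_card_lt hN
  have h9 : 9 ≤ N * N := Nat.mul_le_mul hN hN
  have hcard : Fintype.card (Pt N) + Fintype.card (Pt N) = gn N + 3 + 1 := by
    rw [hc]
    unfold gn
    omega
  have hB : Fintype.card (Pt N) < gn N := by rw [hc]; exact hlt
  have h3 : 3 < Fintype.card (Pt N) := by rw [hc]; omega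
  constructor
  · intro hconv hSel
    obtain ⟨U, V, h0, hreg⟩ := realization hNM hN hSel
    refine not_convex_att' (emb N hN) (emb N hN) hcard hB h3 h3 (Hg N M conf) U V
      ⟨fun k => (⟨k, by omega⟩, ⟨0, by omega⟩, 7), ?_⟩ ?_
      ⟨fun k => (⟨k, by omega⟩, ⟨1, by omega⟩, 7), ?_⟩ ?_ h0 hreg hconv
    · intro k l h
      have := congrArg (fun z : Pt N => (z.1 : ℕ)) h
      exact Fin.ext this
    · intro k j
      exact gad_row
    · intro k l h
      have := congrArg (fun z : Pt N => (z.1 : ℕ)) h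
      exact Fin.ext this
    · intro i k
      exact gad_col
  · intro hSel
    refine convex_att (emb N hN) (emb N hN) hcard hB (Hg N M conf) wg ?_
    rintro ⟨U, V, h⟩
    exact hSel (sel_of_completion hNM hN U V h)

end Pool.Agent.SOCX
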