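import Pool.Agent.SOCX.Cpl
import Pool.Agent.SOCX.Blk

/-!
# Non-convexity from a stress-free zero completion (proof of `not_convex_att`)
-/

namespace Pool.Agent.SOCX

open Matrix

variable {A B : Type} [Fintype A] [Fintype B] [DecidableEq A] [DecidableEq B]

omit [DecidableEq A] [DecidableEq B] in
theorem NegA_sq (M : Matrix A B ℝ) (v : B → ℝ) :
    (M *ᵥ v) ⬝ᵥ (M *ᵥ v) = v ⬝ᵥ ((Mᵀ * M) *ᵥ v) := by
  rw [← mulVec_mulVec, dotProduct_mulVec v Mᵀ, vecMul_transpose]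

/-- a nonzero vector killed by `r` linear conditions can be normalised -/
theorem NegA_unit {C : Type} [Fintype C] {r : ℕ} (hr : r < Fintype.card C)
    (V : Matrix C (Fin r) ℝ) : ∃ v : C → ℝ, Vᵀ *ᵥ v = 0 ∧ v ⬝ᵥ v = 1 := by
  have h1 : LinearMap.ker (Vᵀ).mulVecLin ≠ ⊥ := by
    apply LinearMap.ker_ne_bot_of_finrank_lt
    rw [Module.finrank_fintype_fun_eq_card, Module.finrank_fintype_fun_eq_card, Fintype.card_fin]
    exact hr
  obtain ⟨w, hw, hw0⟩ := (Submodule.ne_bot_iff _).1 h1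
  rw [LinearMap.mem_ker, mulVecLin_apply] at hw
  have h2 : 0 < w ⬝ᵥ w := by
    rcases lt_or_eq_of_le (Finset.sum_nonneg fun i _ => mul_self_nonneg (w i) :
      0 ≤ w ⬝ᵥ w) with h | h
    · exact h
    · exact absurd (dotProduct_self_eq_zero.1 h.symm) hw0
  refine ⟨(Real.sqrt (w ⬝ᵥ w))⁻¹ • w, ?_, ?_⟩
  · rw [mulVec_smul, hw, smul_zero]
  · rw [smul_dotProduct, dotProduct_smul, smul_eq_mul, smul_eq_mul]
    have h3 := Real.mul_self_sqrt h2.le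
    have h4 : Real.sqrt (w ⬝ᵥ w) ≠ 0 := (Real.sqrt_pos.2 h2).ne'
    field_simp
    nlinarith

omit [DecidableEq A] [DecidableEq B] in
theorem NegA_ctrT {Z : Matrix A B ℝ} (hZ : Ctr Z) (u : A → ℝ) :
    (Zᵀ *ᵥ u) ⬝ᵥ (Zᵀ *ᵥ u) ≤ u ⬝ᵥ u := by
  set w := Zᵀ *ᵥ u with hw
  have h1 : w ⬝ᵥ w = u ⬝ᵥ (Z *ᵥ w) := by
    rw [dotProduct_mulVec u Z w, ← mulVec_transpose, ← hw]
  have h2 := hZ w
  have h3 : (u ⬝ᵥ (Z *ᵥ w)) ^ 2 ≤ (u ⬝ᵥ u) * ((Z *ᵥ w) ⬝ᵥ (Z *ᵥ w)) := by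
    have := Finset.sum_mul_sq_le_sq_mul_sq Finset.univ u (Z *ᵥ w)
    simpa [dotProduct, sq] using this
  have h4 : 0 ≤ u ⬝ᵥ u := Finset.sum_nonneg fun i _ => mul_self_nonneg (u i)
  have h5 : 0 ≤ w ⬝ᵥ w := Finset.sum_nonneg fun i _ => mul_self_nonneg (w i)
  rw [← h1] at h3
  have h6 : (w ⬝ᵥ w) ^ 2 ≤ (u ⬝ᵥ u) * (w ⬝ᵥ w) := h3.trans (mul_le_mul_of_nonneg_left h2 h4)
  rcases h5.eq_or_lt with h | h
  · rw [← h]; exact h4
  · nlinarith

/-- a matrix which attains the extremal value of a trace form is the extremal one -/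
theorem NegA_eq {C D : Type} [Fintype C] [Fintype D] {r : ℕ} (Z : Matrix C D ℝ)
    (hZ : ∀ v : D → ℝ, (Z *ᵥ v) ⬝ᵥ (Z *ᵥ v) ≤ v ⬝ᵥ v) (U : Matrix C (Fin r) ℝ)
    (V : Matrix D (Fin r) ℝ) (s : ℝ) (hU : Uᵀ * U = s • (1 : Matrix (Fin r) (Fin r) ℝ))
    (hV : Vᵀ * V = s • (1 : Matrix (Fin r) (Fin r) ℝ))
    (ht : trace (Uᵀ * Z * V) = r * s) : Z * V = U := by
  have h1 : trace ((Z * V - U)ᵀ * (Z * V - U)) ≤ 0 := by
    have e1 : (Z * V - U)ᵀ * (Z * V - U) =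
        (Z * V)ᵀ * (Z * V) - (Uᵀ * Z * V)ᵀ - Uᵀ * Z * V + Uᵀ * U := by
      rw [transpose_sub, Matrix.sub_mul, Matrix.mul_sub, Matrix.mul_sub]
      simp only [transpose_mul, transpose_transpose, Matrix.mul_assoc]
      abel
    have e2 : trace ((Z * V)ᵀ * (Z * V)) ≤ r * s := by
      have e3 : trace ((Z * V)ᵀ * (Z * V)) =
          ∑ k, (Z *ᵥ (fun j => V j k)) ⬝ᵥ (Z *ᵥ (fun j => V j k)) := by
        simp only [trace, diag_apply, mul_apply, transpose_apply, dotProduct, mulVec]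
      have e4 : ∑ k, ((fun j => V j k) ⬝ᵥ (fun j => V j k)) = r * s := by
        have e5 : ∀ k, ((fun j => V j k) ⬝ᵥ (fun j => V j k)) = s := by
          intro k
          have := congrFun (congrFun hV k) k
          rw [mul_apply] at this
          simpa [dotProduct] using this
        simp [e5]
      rw [e3, ← e4]
      exact Finset.sum_le_sum fun k _ => hZ _
    rw [e1, trace_add, trace_sub, trace_sub, trace_transpose, ht, hU, trace_smul, trace_one,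
      Fintype.card_fin, smul_eq_mul]
    linarith
  have h2 : trace ((Z * V - U)ᵀ * (Z * V - U)) = ∑ k, ∑ i, ((Z * V - U) i k) ^ 2 := by
    simp only [trace, diag_apply, mul_apply, transpose_apply, sq]
  rw [h2] at h1
  have h3 : ∀ k ∈ (Finset.univ : Finset (Fin r)), 0 ≤ ∑ i, ((Z * V - U) i k) ^ 2 :=
    fun k _ => Finset.sum_nonneg fun i _ => sq_nonneg _
  have h4 := (Finset.sum_eq_zero_iff_of_nonneg h3).1 (le_antisymm h1 (Finset.sum_nonneg h3))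
  have h5 : Z * V - U = 0 := by
    ext i k
    have := (Finset.sum_eq_zero_iff_of_nonneg
      (fun i _ => sq_nonneg ((Z * V - U) i k))).1 (h4 k (Finset.mem_univ _)) i (Finset.mem_univ _)
    exact pow_eq_zero_iff (two_ne_zero) |>.1 this
  exact sub_eq_zero.1 h5

theorem NegA_mem {n r : ℕ} (ι : A ↪ Fin n) (κ : B ↪ Fin n)
    (hcard : Fintype.card A + Fintype.card B = n + r + 1) (hB : Fintype.card B < n)
    (U : Matrix A (Fin r) ℝ) (V : Matrix B (Fin r) ℝ)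
    (s : ℝ) (hs : 0 < s) (hU : Uᵀ * U = s • (1 : Matrix (Fin r) (Fin r) ℝ))
    (hV : Vᵀ * V = s • (1 : Matrix (Fin r) (Fin r) ℝ)) (u : A → ℝ) (v : B → ℝ)
    (hu : Uᵀ *ᵥ u = 0) (huu : u ⬝ᵥ u = 1) (hv : Vᵀ *ᵥ v = 0) (hvv : v ⬝ᵥ v = 1) :
    s⁻¹ • (U * Vᵀ) + vecMulVec u v ∈ blk n ι κ := by
  set P : Matrix A B ℝ := s⁻¹ • (U * Vᵀ) + vecMulVec u v with hP
  have hPT : Pᵀ = s⁻¹ • (V * Uᵀ) + vecMulVec v u := by
    rw [hP, transpose_add, transpose_smul, transpose_mul, transpose_transpose]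
    congr 1
    ext i j
    simp [vecMulVec_apply, mul_comm]
  have hPw : ∀ w, P *ᵥ w = s⁻¹ • (U *ᵥ (Vᵀ *ᵥ w)) + (v ⬝ᵥ w) • u := by
    intro w
    rw [hP, add_mulVec, smul_mulVec, ← mulVec_mulVec]
    congr 1
    ext i
    simp [mulVec, vecMulVec_apply, dotProduct, Finset.mul_sum, mul_comm, mul_left_comm]
  have hQw : ∀ w, (Pᵀ * P) *ᵥ w = s⁻¹ • (V *ᵥ (Vᵀ *ᵥ w)) + (v ⬝ᵥ w) • v := by
    intro w
    rw [← mulVec_mulVec, hPw, hPT, mulVec_add, mulVec_smul, mulVec_smul, add_mulVec, add_mulVec,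
      smul_mulVec, smul_mulVec, ← mulVec_mulVec, ← mulVec_mulVec, hu]
    have e1 : Uᵀ *ᵥ (U *ᵥ (Vᵀ *ᵥ w)) = s • (Vᵀ *ᵥ w) := by
      rw [mulVec_mulVec, hU, smul_mulVec, one_mulVec]
    have e2 : vecMulVec v u *ᵥ (U *ᵥ (Vᵀ *ᵥ w)) = 0 := by
      have : vecMulVec v u *ᵥ (U *ᵥ (Vᵀ *ᵥ w)) = (u ⬝ᵥ (U *ᵥ (Vᵀ *ᵥ w))) • v := by
        ext i
        simp [mulVec, vecMulVec_apply, dotProduct, Finset.mul_sum, mul_comm, mul_left_comm]
      rw [this, dotProduct_mulVec, ← mulVec_transpose, hu, zero_dotProduct, zero_smul]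
    have e3 : vecMulVec v u *ᵥ u = v := by
      have : vecMulVec v u *ᵥ u = (u ⬝ᵥ u) • v := by
        ext i
        simp [mulVec, vecMulVec_apply, dotProduct, Finset.mul_sum, mul_comm, mul_left_comm]
      rw [this, huu, one_smul]
    rw [e1, e2, e3, mulVec_smul, mulVec_zero, smul_zero, zero_add, add_zero]
    congr 2
    rw [smul_smul, inv_mul_cancel₀ hs.ne', one_smul]
  have hVV : ∀ a, Vᵀ *ᵥ (V *ᵥ a) = s • a := by
    intro a
    rw [mulVec_mulVec, hV, smul_mulVec, one_mulVec]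
  have hvV : ∀ a, v ⬝ᵥ (V *ᵥ a) = 0 := by
    intro a
    rw [dotProduct_mulVec, ← mulVec_transpose, hv, zero_dotProduct]
  apply mem_blk_of_iso (r := r) ι κ hcard hB
  · intro w
    rw [NegA_sq, hQw, dotProduct_add, dotProduct_smul, dotProduct_smul]
    have e1 : w ⬝ᵥ (V *ᵥ (Vᵀ *ᵥ w)) = (Vᵀ *ᵥ w) ⬝ᵥ (Vᵀ *ᵥ w) := by
      rw [dotProduct_mulVec, ← mulVec_transpose]
    set a := Vᵀ *ᵥ w with ha
    set z := w - s⁻¹ • (V *ᵥ a) - (v ⬝ᵥ w) • v with hz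
    have h1 : 0 ≤ z ⬝ᵥ z := Finset.sum_nonneg fun i _ => mul_self_nonneg (z i)
    have e2 : (V *ᵥ a) ⬝ᵥ (V *ᵥ a) = s * (a ⬝ᵥ a) := by
      rw [NegA_sq, hV, smul_mulVec, one_mulVec, dotProduct_smul, smul_eq_mul]
    have e3 : (V *ᵥ a) ⬝ᵥ w = a ⬝ᵥ a := by rw [dotProduct_comm, e1]
    have e4 : (V *ᵥ a) ⬝ᵥ v = 0 := by rw [dotProduct_comm, hvV]
    have e5 : w ⬝ᵥ v = v ⬝ᵥ w := dotProduct_comm _ _
    have h2 : z ⬝ᵥ z = w ⬝ᵥ w - s⁻¹ * (a ⬝ᵥ a) - (v ⬝ᵥ w) * (v ⬝ᵥ w) := by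
      rw [hz]
      simp only [sub_dotProduct, dotProduct_sub, smul_dotProduct, dotProduct_smul, smul_eq_mul,
        e1, e2, e3, e4, e5, hvV, hvv]
      field_simp
      ring
    rw [e1, e5, smul_eq_mul, smul_eq_mul]
    linarith
  · have hL : ∃ L : ((Fin r → ℝ) × ℝ) →ₗ[ℝ] (B → ℝ), ∀ p, L p = V *ᵥ p.1 + p.2 • v :=
      ⟨V.mulVecLin.coprod (LinearMap.toSpanSingleton ℝ _ v), fun p => by
        rw [LinearMap.coprod_apply, mulVecLin_apply, LinearMap.toSpanSingleton_apply]⟩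
    obtain ⟨L, hL⟩ := hL
    have hinj : Function.Injective L := by
      rw [← LinearMap.ker_eq_bot, LinearMap.ker_eq_bot']
      rintro ⟨a, b⟩ h
      rw [hL] at h
      have h1 : Vᵀ *ᵥ (V *ᵥ a + b • v) = s • a := by
        rw [mulVec_add, hVV, mulVec_smul, hv, smul_zero, add_zero]
      have h2 : v ⬝ᵥ (V *ᵥ a + b • v) = b := by
        rw [dotProduct_add, hvV, dotProduct_smul, hvv, smul_eq_mul, mul_one, zero_add]
      simp only at h
      rw [h, mulVec_zero] at h1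
      rw [h, dotProduct_zero] at h2
      have h3 : a = 0 := (smul_eq_zero.1 h1.symm).resolve_left hs.ne'
      rw [h3, ← h2]
      rfl
    have h1 := LinearMap.finrank_range_of_inj hinj
    have h2 : LinearMap.range L ≤ LinearMap.ker (1 - Pᵀ * P).mulVecLin := by
      rintro _ ⟨⟨a, b⟩, rfl⟩
      rw [LinearMap.mem_ker, mulVecLin_apply, sub_mulVec, one_mulVec, hQw, hL]
      simp only
      have h3 : Vᵀ *ᵥ (V *ᵥ a + b • v) = s • a := by
        rw [mulVec_add, hVV, mulVec_smul, hv, smul_zero, add_zero]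
      have h4 : v ⬝ᵥ (V *ᵥ a + b • v) = b := by
        rw [dotProduct_add, hvV, dotProduct_smul, hvv, smul_eq_mul, mul_one, zero_add]
      rw [h3, h4, mulVec_smul, smul_smul, inv_mul_cancel₀ hs.ne', one_smul, sub_self]
    have h3 := Submodule.finrank_mono h2
    rw [h1, Module.finrank_prod, Module.finrank_fintype_fun_eq_card, Fintype.card_fin,
      Module.finrank_self] at h3
    exact h3

theorem not_convex_att_A {n r : ℕ} (ι : A ↪ Fin n) (κ : B ↪ Fin n)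
    (hcard : Fintype.card A + Fintype.card B = n + r + 1) (hB : Fintype.card B < n)
    (hrA : r < Fintype.card A) (hrB : r < Fintype.card B)
    (H : A → B → Prop) (U : Matrix A (Fin r) ℝ) (V : Matrix B (Fin r) ℝ)
    (s : ℝ) (hs : 0 < s) (hU : Uᵀ * U = s • (1 : Matrix (Fin r) (Fin r) ℝ))
    (hV : Vᵀ * V = s • (1 : Matrix (Fin r) (Fin r) ℝ))
    (h0 : ∀ i j, H i j → (U * Vᵀ) i j = 0)
    (hreg : ∀ Y : Matrix A B ℝ, (∀ i j, ¬ H i j → Y i j = 0) → Uᵀ * Y = 0 → Y * V = 0 → Y = 0) :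
    ¬ Convex ℝ (att n ι κ H) := by
  intro hconv
  obtain ⟨u, hu, huu⟩ := NegA_unit hrA U
  obtain ⟨v, hv, hvv⟩ := NegA_unit hrB V
  have hu' : Uᵀ *ᵥ (-u) = 0 := by rw [mulVec_neg, hu, neg_zero]
  have huu' : (-u) ⬝ᵥ (-u) = 1 := by rw [neg_dotProduct, dotProduct_neg, neg_neg, huu]
  have m1 := NegA_mem ι κ hcard hB U V s hs hU hV u v hu huu hv hvv
  have m2 := NegA_mem ι κ hcard hB U V s hs hU hV (-u) v hu' huu' hv hvv
  have a1 : s⁻¹ • (U * Vᵀ) + vecMulVec u v ∈ att n ι κ H := ⟨_, m1, fun _ _ _ => rfl⟩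
  have a2 : s⁻¹ • (U * Vᵀ) + vecMulVec (-u) v ∈ att n ι κ H := ⟨_, m2, fun _ _ _ => rfl⟩
  have a3 := hconv a1 a2 (by norm_num : (0 : ℝ) ≤ 1 / 2) (by norm_num : (0 : ℝ) ≤ 1 / 2)
    (by norm_num)
  have a4 : (1 / 2 : ℝ) • (s⁻¹ • (U * Vᵀ) + vecMulVec u v) +
      (1 / 2 : ℝ) • (s⁻¹ • (U * Vᵀ) + vecMulVec (-u) v) = s⁻¹ • (U * Vᵀ) := by
    ext i j
    simp only [Matrix.add_apply, Matrix.smul_apply, vecMulVec_apply, Pi.neg_apply, smul_eq_mul]
    ring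
  rw [a4] at a3
  obtain ⟨Z, hZ, hZX⟩ := a3
  have hctr := blk_ctr hZ
  -- the trace
  have ht : trace (Uᵀ * Z * V) = r * s := by
    have t1 : trace (Uᵀ * Z * V) = ∑ i, ∑ j, (U * Vᵀ) i j * Z i j := by
      have : V * Uᵀ = (U * Vᵀ)ᵀ := by rw [transpose_mul, transpose_transpose]
      rw [trace_mul_comm, ← Matrix.mul_assoc, this]
      simp only [trace, diag_apply, mul_apply (M := (U * Vᵀ)ᵀ), transpose_apply]
      rw [Finset.sum_comm]
    have t2 : ∑ i, ∑ j, (U * Vᵀ) i j * Z i j = ∑ i, ∑ j, (U * Vᵀ) i j * (s⁻¹ • (U * Vᵀ)) i j := by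
      refine Finset.sum_congr rfl fun i _ => Finset.sum_congr rfl fun j _ => ?_
      by_cases h : H i j
      · rw [h0 i j h, zero_mul, zero_mul]
      · rw [hZX i j h]
    have t3 : ∑ i, ∑ j, (U * Vᵀ) i j * (s⁻¹ • (U * Vᵀ)) i j =
        s⁻¹ * trace ((U * Vᵀ)ᵀ * (U * Vᵀ)) := by
      simp only [trace, diag_apply, mul_apply (M := (U * Vᵀ)ᵀ), transpose_apply, Matrix.smul_apply,
        smul_eq_mul]
      rw [Finset.sum_comm, Finset.mul_sum]
      refine Finset.sum_congr rfl fun i _ => ?_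
      rw [Finset.mul_sum]
      exact Finset.sum_congr rfl fun j _ => by ring
    have t4 : trace ((U * Vᵀ)ᵀ * (U * Vᵀ)) = s * (r * s) := by
      have : (U * Vᵀ)ᵀ * (U * Vᵀ) = V * (Uᵀ * U) * Vᵀ := by
        rw [transpose_mul, transpose_transpose]
        simp only [Matrix.mul_assoc]
      rw [this, hU, trace_mul_comm]
      rw [Matrix.mul_smul, Matrix.mul_one, Matrix.mul_smul, trace_smul, hV, trace_smul, trace_one,
        Fintype.card_fin, smul_eq_mul, smul_eq_mul]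
      ring
    rw [t1, t2, t3, t4, ← mul_assoc, inv_mul_cancel₀ hs.ne', one_mul]
  have hZV : Z * V = U := NegA_eq Z hctr U V s hU hV ht
  have hZU : Zᵀ * U = V := by
    refine NegA_eq Zᵀ (NegA_ctrT hctr) V U s hV hU ?_
    rw [← ht, ← trace_transpose (Uᵀ * Z * V)]
    congr 1
    simp only [transpose_mul, transpose_transpose, Matrix.mul_assoc]
  have hY := hreg (Z - s⁻¹ • (U * Vᵀ)) (fun i j h => by
      rw [Matrix.sub_apply, hZX i j h, sub_self]) (by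
      have e1 : Uᵀ * Z = Vᵀ := by
        rw [← hZU, transpose_mul, transpose_transpose]
      rw [Matrix.mul_sub, e1, Matrix.mul_smul, ← Matrix.mul_assoc, hU, Matrix.smul_mul,
        Matrix.one_mul, smul_smul, inv_mul_cancel₀ hs.ne', one_smul, sub_self]) (by
      rw [Matrix.sub_mul, hZV, Matrix.smul_mul, Matrix.mul_assoc, hV, Matrix.mul_smul,
        Matrix.mul_one, smul_smul, inv_mul_cancel₀ hs.ne', one_smul, sub_self])
  obtain ⟨w, hw0, hVw, hww⟩ := blk_vec hcard hZ V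
  have h1 : Z *ᵥ w = 0 := by
    rw [sub_eq_zero.1 hY, smul_mulVec, ← mulVec_mulVec, hVw, mulVec_zero, smul_zero]
  rw [h1, zero_dotProduct] at hww
  exact hw0 (dotProduct_self_eq_zero.1 hww.symm)

end Pool.Agent.SOCX
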