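import Pool.Agent.SOCX.PosB
import Pool.Agent.CVX.P

/-!
# Convexity from a partial matrix without completions of rank `≤ r`

`exists_iso`.  The set `F = {X | Ctr X, X = t Z off H}` is compact and contains `t Z`.  Let `X`
maximise `f X = ∑_{H} w i j * X i j` on `F`.  Let `E = ker (1 - Xᵀ X) = {v | |X v| = |v|}` (for a
contraction).  Suppose `dim E ≤ r`.  Let `K` be the convex hull in `H → ℝ` (functions on pairs of
`H`) of the vectors `κ v = ((X v) i * v j)_{(i,j) ∈ H}`, `v ∈ E`, `|v| = 1`, and of `-w|_H`; it is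
compact.

Case 1, `0 ∈ K`: then `0 = λ k - (1-λ) w` on `H` with `k = (X P)|_H`, `P` in the convex hull of
`{v vᵀ : v ∈ E, |v| = 1}` (so `P` has all its columns in `E`, `tr P = 1`, `Xᵀ X P = P`).  If
`λ = 1` then `X P = 0` on `H`, and `1 = tr P = ⟨X, X P⟩ = ⟨t Z, X P⟩ ≤ t` (for `P = v vᵀ`:
`⟨Z, X v vᵀ⟩ = (Z v)·(X v) ≤ 1`), contradiction.  If `λ < 1` then
`w = (λ/(1-λ)) X P` on `H`, and `X P = ∑_{k<r} (X e_k) p_kᵀ` with `e_k` spanning `E`, a completion
`U Vᵀ` of `w` with `r` columns, contradiction.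

Case 2, `0 ∉ K`: separate: there is `Y` supported on `H` with `⟨Y,w⟩ > 0` and
`(X v)·(Y v) < 0` for all unit `v ∈ E`.  Then for small `ε > 0` the matrix `X + ε Y` is a
contraction (compactness of the unit sphere: near `E` the derivative of `|(X+εY)v|²` is negative,
away from `E` `|X v|² ≤ 1 - η`), it is in `F`, and `f` is larger, contradiction.

`convex_att`: for `Z` in the convex hull of `att`, `Z = Z'` off `H` with a contraction `Z'`
(a convex combination of blocks, `blk_ctr`); for `t < 1` `exists_iso` and `mem_blk_of_iso` give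
`t Z' ∈ att`; `att` is closed.
-/

namespace Pool.Agent.SOCX

open Matrix

variable {A B : Type} [Fintype A] [Fintype B] [DecidableEq A] [DecidableEq B]

/-- Rank factorisation with `r` columns. -/
lemma factor_of_rank_le {r : ℕ} (M : Matrix A B ℝ) (h : M.rank ≤ r) :
    ∃ (U : Matrix A (Fin r) ℝ) (V : Matrix B (Fin r) ℝ), U * Vᵀ = M := by
  have h1 : Module.finrank ℝ (LinearMap.range M.mulVecLin) ≤ r := h
  let b := Module.finBasis ℝ (LinearMap.range M.mulVecLin)
  let k := Module.finrank ℝ (LinearMap.range M.mulVecLin)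
  let col : B → LinearMap.range M.mulVecLin := fun j =>
    ⟨M.mulVecLin (Pi.single j 1), ⟨_, rfl⟩⟩
  refine ⟨Matrix.of fun i l => if hl : l.val < k then (b ⟨l.val, hl⟩ : A → ℝ) i else 0,
    Matrix.of fun j l => if hl : l.val < k then b.repr (col j) ⟨l.val, hl⟩ else 0, ?_⟩
  ext i j
  have h2 : M i j = (col j : A → ℝ) i := by
    show M i j = (M.mulVecLin (Pi.single j 1)) i
    simp
  have h3 := b.sum_repr (col j)
  have h4 : (col j : A → ℝ) i = ∑ l, b.repr (col j) l * (b l : A → ℝ) i := by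
    conv_lhs => rw [← h3]
    simp only [Submodule.coe_sum, Finset.sum_apply, Submodule.coe_smul, Pi.smul_apply, smul_eq_mul]
  rw [h2, h4, Matrix.mul_apply]
  have h5 : ∀ l : Fin k, b.repr (col j) l * (b l : A → ℝ) i =
      (fun l : Fin r => (if hl : l.val < k then (b ⟨l.val, hl⟩ : A → ℝ) i else 0) *
        (if hl : l.val < k then b.repr (col j) ⟨l.val, hl⟩ else 0)) (Fin.castLE h1 l) := by
    intro l
    have : (Fin.castLE h1 l).val < k := l.2
    simp only [dif_pos this]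
    rw [mul_comm]
    rfl
  rw [Finset.sum_congr rfl fun l _ => h5 l]
  symm
  refine Finset.sum_of_injOn (Fin.castLE h1) (Fin.castLE_injective h1).injOn
    (fun _ _ => Finset.mem_coe.mpr (Finset.mem_univ _)) ?_ (fun _ _ => rfl)
  intro l _ hl
  have : ¬ l.val < k := by
    intro hlt
    exact hl ⟨⟨l.val, hlt⟩, Finset.mem_coe.mpr (Finset.mem_univ _), rfl⟩
  simp [this]

theorem exists_iso {r : ℕ} (H : A → B → Prop) (w : A → B → ℝ)
    (hw : ¬ ∃ (U : Matrix A (Fin r) ℝ) (V : Matrix B (Fin r) ℝ),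
      ∀ i j, H i j → (U * Vᵀ) i j = w i j)
    (Z : Matrix A B ℝ) (hZ : Ctr Z) (t : ℝ) (ht0 : 0 ≤ t) (ht1 : t < 1) :
    ∃ X : Matrix A B ℝ, Ctr X ∧ Iso (r + 1) X ∧ ∀ i j, ¬ H i j → X i j = t * Z i j := by
  obtain ⟨X, hX, hXa, hXr⟩ := CVXP.P_approx r H (Matrix.of w) (fun M hM => by
    by_contra hcon
    push Not at hcon
    obtain ⟨U, V, hUV⟩ := factor_of_rank_le M hcon
    exact hw ⟨U, V, fun i j hij => by rw [hUV]; exact hM i j hij⟩) (Z := Z) hZ ht0 ht1
  exact ⟨X, hX, hXr, hXa⟩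

theorem convex_att {n r : ℕ} (ι : A ↪ Fin n) (κ : B ↪ Fin n)
    (hcard : Fintype.card A + Fintype.card B = n + r + 1) (hB : Fintype.card B < n)
    (H : A → B → Prop) (w : A → B → ℝ)
    (hw : ¬ ∃ (U : Matrix A (Fin r) ℝ) (V : Matrix B (Fin r) ℝ),
      ∀ i j, H i j → (U * Vᵀ) i j = w i j) :
    Convex ℝ (att n ι κ H) :=
  convex_att_of ι κ hcard hB H (fun Z hZ t h0 h1 => exists_iso H w hw Z hZ t h0 h1)

end Pool.Agent.SOCX
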