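import Pool.Agent.SOCX.Cpl
import Pool.Agent.SOCX.Blk

/-!
# Convexity of att from the existence of contractions with many isometric directions
-/

namespace Pool.Agent.SOCX

open Matrix Filter Topology

variable {A B : Type} [Fintype A] [Fintype B] [DecidableEq A] [DecidableEq B]

omit [DecidableEq A] [DecidableEq B] in
/-- contractions form a convex set -/
theorem PosB_ctr {X Y : Matrix A B ℝ} (hX : Ctr X) (hY : Ctr Y) {a b : ℝ} (ha : 0 ≤ a)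
    (hb : 0 ≤ b) (hab : a + b = 1) : Ctr (a • X + b • Y) := by
  intro v
  have h1 := hX v
  have h2 := hY v
  have e : (a • X + b • Y) *ᵥ v = a • (X *ᵥ v) + b • (Y *ᵥ v) := by
    rw [Matrix.add_mulVec, Matrix.smul_mulVec, Matrix.smul_mulVec]
  have h3 : 0 ≤ (X *ᵥ v - Y *ᵥ v) ⬝ᵥ (X *ᵥ v - Y *ᵥ v) := by
    unfold dotProduct
    exact Finset.sum_nonneg fun i _ => mul_self_nonneg _
  have h4 : (a • (X *ᵥ v) + b • (Y *ᵥ v)) ⬝ᵥ (a • (X *ᵥ v) + b • (Y *ᵥ v)) =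
      a * ((X *ᵥ v) ⬝ᵥ (X *ᵥ v)) + b * ((Y *ᵥ v) ⬝ᵥ (Y *ᵥ v)) -
        a * b * ((X *ᵥ v - Y *ᵥ v) ⬝ᵥ (X *ᵥ v - Y *ᵥ v)) := by
    have hb' : b = 1 - a := by linarith
    subst hb'
    simp only [dotProduct_add, add_dotProduct, dotProduct_sub, sub_dotProduct, smul_dotProduct,
      dotProduct_smul, smul_eq_mul]
    ring
  rw [e, h4]
  have h5 : 0 ≤ a * b * ((X *ᵥ v - Y *ᵥ v) ⬝ᵥ (X *ᵥ v - Y *ᵥ v)) :=
    mul_nonneg (mul_nonneg ha hb) h3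
  have h6 := mul_le_mul_of_nonneg_left h1 ha
  have h7 := mul_le_mul_of_nonneg_left h2 hb
  have h8 : v ⬝ᵥ v = a * (v ⬝ᵥ v) + b * (v ⬝ᵥ v) := by rw [← add_mul, hab, one_mul]
  linarith

/-- `convex_att` with the conclusion of `exists_iso` as a hypothesis -/
theorem convex_att_of {n r : ℕ} (ι : A ↪ Fin n) (κ : B ↪ Fin n)
    (hcard : Fintype.card A + Fintype.card B = n + r + 1) (hB : Fintype.card B < n)
    (H : A → B → Prop)
    (hiso : ∀ Z : Matrix A B ℝ, Ctr Z → ∀ t : ℝ, 0 ≤ t → t < 1 →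
      ∃ X : Matrix A B ℝ, Ctr X ∧ Iso (r + 1) X ∧ ∀ i j, ¬ H i j → X i j = t * Z i j) :
    Convex ℝ (att n ι κ H) := by
  intro Z₁ h₁ Z₂ h₂ a b ha hb hab
  obtain ⟨Y₁, hY₁, e₁⟩ := h₁
  obtain ⟨Y₂, hY₂, e₂⟩ := h₂
  have hW : Ctr (a • Y₁ + b • Y₂) := PosB_ctr (blk_ctr hY₁) (blk_ctr hY₂) ha hb hab
  have hmem : ∀ t : ℝ, 0 ≤ t → t < 1 → t • (a • Z₁ + b • Z₂) ∈ att n ι κ H := by
    intro t h0 h1
    obtain ⟨X, hX, hI, hXe⟩ := hiso _ hW t h0 h1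
    refine ⟨X, mem_blk_of_iso ι κ hcard hB X hX hI, fun i j hij => ?_⟩
    rw [hXe i j hij]
    simp only [Matrix.smul_apply, Matrix.add_apply, smul_eq_mul]
    rw [e₁ i j hij, e₂ i j hij]
  have ht : Tendsto (fun n : ℕ => (1 - 1 / ((n : ℝ) + 1)) • (a • Z₁ + b • Z₂)) atTop
      (𝓝 (a • Z₁ + b • Z₂)) := by
    have h1 : Tendsto (fun n : ℕ => (1 : ℝ) - 1 / ((n : ℝ) + 1)) atTop (𝓝 (1 - 0)) :=
      tendsto_const_nhds.sub tendsto_one_div_add_atTop_nhds_zero_nat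
    have h2 := h1.smul_const (a • Z₁ + b • Z₂)
    simpa using h2
  refine (isClosed_att n ι κ H).mem_of_tendsto ht (Filter.Eventually.of_forall fun n => ?_)
  have hn : (0 : ℝ) < (n : ℝ) + 1 := by positivity
  refine hmem _ ?_ ?_
  · have : 1 / ((n : ℝ) + 1) ≤ 1 := by
      rw [div_le_one hn]
      have : (0 : ℝ) ≤ n := Nat.cast_nonneg n
      linarith
    linarith
  · have : 0 < 1 / ((n : ℝ) + 1) := by positivity
    linarith

end Pool.Agent.SOCX
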