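import Pool.Agent.SOCX.ReaPf

/-!
# No stress on the chains
-/

namespace Pool.Agent.SOCX

open Matrix

section

variable {N M : ℕ} {conf : ℕ → ℕ → Bool} {T : ℕ → Prop} {Y : ℕ → ℕ → ℕ → ℕ → ℕ → ℕ → ℝ}

/-- the four entries of a `C₄` -/
def Four (Y : ℕ → ℕ → ℕ → ℕ → ℕ → ℕ → ℝ) (x y : ℕ) : Prop :=
  Y x y 0 x y 0 = 0 ∧ Y x y 0 x y 1 = 0 ∧ Y x y 1 x y 0 = 0 ∧ Y x y 1 x y 1 = 0

/-- the two entries between consecutive positions -/
def Two (Y : ℕ → ℕ → ℕ → ℕ → ℕ → ℕ → ℝ) (x y : ℕ) : Prop :=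
  Y x (y + 1) 0 x y 0 = 0 ∧ Y x (y + 1) 1 x y 1 = 0

/-- a row `a` or `b` of an index in `T` whose entry to the previous position is zero -/
theorem rowT (h : Str N M conf T Y)
    (hc : ∀ x y, x < y → y < N → conf x y = true → ¬ (T x ∧ T y)) {x y : ℕ} (hx : x < N)
    (hy : y < N) (hT : T x) (hprev : ∀ y', y = y' + 1 → Two Y x y') : Four Y x y := by
  have hG : ga x ⬝ᵥ Gv N M T x y ≠ 0 := by rw [dotProduct_comm]; exact Gv_ga hT
  have hcG : vv N M conf T x y 0 ⬝ᵥ Gv N M T x y = 0 := by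
    rw [vv0_T hT, dotProduct_comm]; exact dot_cross_self _ _
  have e01 : Y x y 0 x y 1 = 0 := by
    refine h.row x y 0 x y 1 (Gv N M T x y) hx hy (by norm_num) hx hy (by norm_num)
      (by rw [vv1]; exact hG) ?_
    intro x' y' t' h3 h4 _ hh hne
    rcases hB_iff.1 hh with h' | h' | h' | h' | h' | h' | h' | h' | h' | h' | h'
    any_goals exfalso; omega
    · obtain ⟨_, h5, rfl, rfl⟩ := h'
      have : t' = 0 := by omega
      subst this
      right; exact hcG
    · obtain ⟨_, rfl, rfl, h5⟩ := h'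
      left; subst h5; exact (hprev y' rfl).1
    · obtain ⟨_, rfl, _⟩ := h'
      right; rw [vv3 (by norm_num), zdot]
    · obtain ⟨_, rfl, ha, h5⟩ := h'
      left; exact st02 h hc hx hy h3 h4 ha h5
  have e00 : Y x y 0 x y 0 = 0 := by
    refine h.row x y 0 x y 0 _ hx hy (by norm_num) hx hy (by norm_num)
      (dot_self_ne vv0_ne) ?_
    intro x' y' t' h3 h4 _ hh hne
    rcases hB_iff.1 hh with h' | h' | h' | h' | h' | h' | h' | h' | h' | h' | h'
    any_goals exfalso; omega
    · obtain ⟨_, h5, rfl, rfl⟩ := h'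
      have : t' = 1 := by omega
      subst this
      left; exact e01
    · obtain ⟨_, rfl, rfl, h5⟩ := h'
      left; subst h5; exact (hprev y' rfl).1
    · obtain ⟨_, rfl, _⟩ := h'
      right; rw [vv3 (by norm_num), zdot]
    · obtain ⟨_, rfl, ha, h5⟩ := h'
      left; exact st02 h hc hx hy h3 h4 ha h5
  have e11 : Y x y 1 x y 1 = 0 := by
    refine h.row x y 1 x y 1 (Gv N M T x y) hx hy (by norm_num) hx hy (by norm_num)
      (by rw [vv1]; exact hG) ?_
    intro x' y' t' h3 h4 _ hh hne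
    rcases hB_iff.1 hh with h' | h' | h' | h' | h' | h' | h' | h' | h' | h' | h'
    any_goals exfalso; omega
    · obtain ⟨_, h5, rfl, rfl⟩ := h'
      have : t' = 0 := by omega
      subst this
      right; exact hcG
    · obtain ⟨_, rfl, rfl, h5⟩ := h'
      left; subst h5; exact (hprev y' rfl).2
    · obtain ⟨_, h5, _⟩ := h'
      right; rw [vv3 h5, zdot]
  have e10 : Y x y 1 x y 0 = 0 := by
    refine h.row x y 1 x y 0 _ hx hy (by norm_num) hx hy (by norm_num)
      (dot_self_ne vv0_ne) ?_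
    intro x' y' t' h3 h4 _ hh hne
    rcases hB_iff.1 hh with h' | h' | h' | h' | h' | h' | h' | h' | h' | h' | h'
    any_goals exfalso; omega
    · obtain ⟨_, h5, rfl, rfl⟩ := h'
      have : t' = 1 := by omega
      subst this
      left; exact e11
    · obtain ⟨_, rfl, rfl, h5⟩ := h'
      left; subst h5; exact (hprev y' rfl).2
    · obtain ⟨_, h5, _⟩ := h'
      right; rw [vv3 h5, zdot]
  exact ⟨e00, e01, e10, e11⟩

/-- the columns `c`, `d` of an index in `T` -/
theorem colT (h : Str N M conf T Y) (hNM : 3 * M ≤ N) (hN : 3 ≤ N) {x y : ℕ} (hx : x < N)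
    (hy : y + 1 < N) (hT : T x) (h4 : Four Y x y) : Two Y x y := by
  constructor
  · refine h.col x y 0 x (y + 1) 0 (al x) hx (by omega) (by norm_num) hx hy (by norm_num)
      (by rw [uv0_T hT]; exact al_self x) ?_
    intro x' y' t' h5 h6 _ hh hne
    rcases hB_iff.1 hh with h' | h' | h' | h' | h' | h' | h' | h' | h' | h' | h'
    any_goals exfalso; omega
    · obtain ⟨h7, _, rfl, rfl⟩ := h'
      left
      interval_cases t'
      · exact h4.1
      · exact h4.2.2.1
    · obtain ⟨rfl, _⟩ := h'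
      right; rw [uv3, zdot]
  · refine h.col x y 1 x (y + 1) 1 (al x) hx (by omega) (by norm_num) hx hy (by norm_num)
      (by rw [uv1]; exact al_self x) ?_
    intro x' y' t' h5 h6 _ hh hne
    rcases hB_iff.1 hh with h' | h' | h' | h' | h' | h' | h' | h' | h' | h' | h'
    any_goals exfalso; omega
    · obtain ⟨h7, _, rfl, rfl⟩ := h'
      left
      interval_cases t'
      · exact h4.2.1
      · exact h4.2.2.2

theorem chainT (h : Str N M conf T Y) (hNM : 3 * M ≤ N) (hN : 3 ≤ N)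
    (hc : ∀ x y, x < y → y < N → conf x y = true → ¬ (T x ∧ T y)) {x : ℕ} (hx : x < N)
    (hT : T x) : ∀ y, y < N → Four Y x y ∧ (y + 1 < N → Two Y x y) := by
  intro y
  induction y with
  | zero =>
    intro hy
    have h1 := rowT h hc hx hy hT (fun y' h => absurd h (by omega))
    exact ⟨h1, fun h2 => colT h hNM hN hx h2 hT h1⟩
  | succ y ih =>
    intro hy
    have h0 := ih (by omega)
    have h1 := rowT h hc hx hy hT (fun y' h3 => by
      have : y' = y := by omega
      subst this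
      exact h0.2 hy)
    exact ⟨h1, fun h2 => colT h hNM hN hx h2 hT h1⟩

/-- the columns `c`, `d` of an index outside `T` -/
theorem colF (h : Str N M conf T Y) (hNM : 3 * M ≤ N) (hN : 3 ≤ N) {x y : ℕ} (hx : x < N)
    (hy : y < N) (hT : ¬ T x) (hnext : y + 1 < N → Two Y x y) : Four Y x y := by
  have hF : al x ⬝ᵥ Fv conf T x y ≠ 0 := by rw [dotProduct_comm]; exact Fv_al hT
  have haF : uv N M conf T x y 0 ⬝ᵥ Fv conf T x y = 0 := by
    rw [uv0_F hT, dotProduct_comm]; exact dot_cross_self _ _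
  have e10 : Y x y 1 x y 0 = 0 := by
    refine h.col x y 0 x y 1 (Fv conf T x y) hx hy (by norm_num) hx hy (by norm_num)
      (by rw [uv1]; exact hF) ?_
    intro x' y' t' h3 h4 _ hh hne
    rcases hB_iff.1 hh with h' | h' | h' | h' | h' | h' | h' | h' | h' | h' | h'
    any_goals exfalso; omega
    · obtain ⟨_, h5, rfl, rfl⟩ := h'
      have : t' = 0 := by omega
      subst this
      right; exact haF
    · obtain ⟨_, rfl, rfl, rfl⟩ := h'
      left; exact (hnext h4).1
    · obtain ⟨rfl, _⟩ := h'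
      right; rw [uv3, zdot]
    · obtain ⟨rfl, _, rfl, h5, h6, h7, h8⟩ := h'
      left; exact st50 h hNM hN h5 h6 h7 h8
  have e00 : Y x y 0 x y 0 = 0 := by
    refine h.col x y 0 x y 0 _ hx hy (by norm_num) hx hy (by norm_num)
      (dot_self_ne uv0_ne) ?_
    intro x' y' t' h3 h4 _ hh hne
    rcases hB_iff.1 hh with h' | h' | h' | h' | h' | h' | h' | h' | h' | h' | h'
    any_goals exfalso; omega
    · obtain ⟨_, h5, rfl, rfl⟩ := h'
      have : t' = 1 := by omega
      subst this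
      left; exact e10
    · obtain ⟨_, rfl, rfl, rfl⟩ := h'
      left; exact (hnext h4).1
    · obtain ⟨rfl, _⟩ := h'
      right; rw [uv3, zdot]
    · obtain ⟨rfl, _, rfl, h5, h6, h7, h8⟩ := h'
      left; exact st50 h hNM hN h5 h6 h7 h8
  have e11 : Y x y 1 x y 1 = 0 := by
    refine h.col x y 1 x y 1 (Fv conf T x y) hx hy (by norm_num) hx hy (by norm_num)
      (by rw [uv1]; exact hF) ?_
    intro x' y' t' h3 h4 _ hh hne
    rcases hB_iff.1 hh with h' | h' | h' | h' | h' | h' | h' | h' | h' | h' | h'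
    any_goals exfalso; omega
    · obtain ⟨_, h5, rfl, rfl⟩ := h'
      have : t' = 0 := by omega
      subst this
      right; exact haF
    · obtain ⟨_, rfl, rfl, rfl⟩ := h'
      left; exact (hnext h4).2
    · obtain ⟨rfl, _⟩ := h'
      right; rw [uv6, zdot]
  have e01 : Y x y 0 x y 1 = 0 := by
    refine h.col x y 1 x y 0 _ hx hy (by norm_num) hx hy (by norm_num)
      (dot_self_ne uv0_ne) ?_
    intro x' y' t' h3 h4 _ hh hne
    rcases hB_iff.1 hh with h' | h' | h' | h' | h' | h' | h' | h' | h' | h' | h'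
    any_goals exfalso; omega
    · obtain ⟨_, h5, rfl, rfl⟩ := h'
      have : t' = 1 := by omega
      subst this
      left; exact e11
    · obtain ⟨_, rfl, rfl, rfl⟩ := h'
      left; exact (hnext h4).2
    · obtain ⟨rfl, _⟩ := h'
      right; rw [uv6, zdot]
  exact ⟨e00, e01, e10, e11⟩

/-- the rows `a`, `b` of an index outside `T` -/
theorem rowF (h : Str N M conf T Y)
    (hc : ∀ x y, x < y → y < N → conf x y = true → ¬ (T x ∧ T y)) {x y : ℕ} (hx : x < N)
    (hy : y + 1 < N) (hT : ¬ T x) (h4 : Four Y x (y + 1)) : Two Y x y := by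
  constructor
  · refine h.row x (y + 1) 0 x y 0 (ga x) hx hy (by norm_num) hx (by omega) (by norm_num)
      (by rw [vv0_F hT]; exact ga_self x) ?_
    intro x' y' t' h5 h6 _ hh hne
    rcases hB_iff.1 hh with h' | h' | h' | h' | h' | h' | h' | h' | h' | h' | h'
    any_goals exfalso; omega
    · obtain ⟨_, h7, rfl, rfl⟩ := h'
      left
      interval_cases t'
      · exact h4.1
      · exact h4.2.1
    · obtain ⟨_, rfl, _⟩ := h'
      right; rw [vv3 (by norm_num), zdot]
    · obtain ⟨_, rfl, ha, h7⟩ := h'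
      left; exact st02 h hc hx hy h5 h6 ha h7
  · refine h.row x (y + 1) 1 x y 1 (ga x) hx hy (by norm_num) hx (by omega) (by norm_num)
      (by rw [vv1]; exact ga_self x) ?_
    intro x' y' t' h5 h6 _ hh hne
    rcases hB_iff.1 hh with h' | h' | h' | h' | h' | h' | h' | h' | h' | h' | h'
    any_goals exfalso; omega
    · obtain ⟨_, h7, rfl, rfl⟩ := h'
      left
      interval_cases t'
      · exact h4.2.2.1
      · exact h4.2.2.2
    · obtain ⟨_, h7, _⟩ := h'
      right; rw [vv3 h7, zdot]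

theorem chainF (h : Str N M conf T Y) (hNM : 3 * M ≤ N) (hN : 3 ≤ N)
    (hc : ∀ x y, x < y → y < N → conf x y = true → ¬ (T x ∧ T y)) {x : ℕ} (hx : x < N)
    (hT : ¬ T x) : ∀ k y, y + 1 + k = N → Four Y x y ∧ (y + 1 < N → Two Y x y) := by
  intro k
  induction k with
  | zero =>
    intro y hy
    have h2 : y + 1 < N → Two Y x y := fun h3 => absurd h3 (by omega)
    exact ⟨colF h hNM hN hx (by omega) hT h2, h2⟩
  | succ k ih =>
    intro y hy
    have h0 := ih (y + 1) (by omega)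
    have h2 : y + 1 < N → Two Y x y := fun h3 => rowF h hc hx h3 hT h0.1
    exact ⟨colF h hNM hN hx (by omega) hT h2, h2⟩

theorem stress_zero (h : Str N M conf T Y) (hNM : 3 * M ≤ N) (hN : 3 ≤ N)
    (hg : ∀ x < M, T (3 * x) ∨ T (3 * x + 1) ∨ T (3 * x + 2))
    (hc : ∀ x y, x < y → y < N → conf x y = true → ¬ (T x ∧ T y))
    {x y t x' y' t' : ℕ} (hx : x < N) (hy : y < N) (hx' : x' < N) (hy' : y' < N)
    (hh : hB N M conf x y t x' y' t' = true) : Y x y t x' y' t' = 0 := by
  have hch : ∀ o, o < N → ∀ z, z < N → Four Y o z ∧ (z + 1 < N → Two Y o z) := by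
    intro o ho z hz
    by_cases hT : T o
    · exact chainT h hNM hN hc ho hT z hz
    · exact chainF h hNM hN hc ho hT (N - (z + 1)) z (by omega)
  rcases hB_iff.1 hh with h' | h' | h' | h' | h' | h' | h' | h' | h' | h' | h'
  · obtain ⟨h1, h2, rfl, rfl⟩ := h'
    have h3 := (hch x hx y hy).1
    interval_cases t <;> interval_cases t'
    · exact h3.1
    · exact h3.2.1
    · exact h3.2.2.1
    · exact h3.2.2.2
  · obtain ⟨h1, rfl, rfl, rfl⟩ := h'
    have h3 := (hch x hx y' hy').2 hy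
    interval_cases t
    · exact h3.1
    · exact h3.2
  · obtain ⟨rfl, rfl, rfl, rfl⟩ := h'
    exact st06 h hx hy
  · obtain ⟨rfl, rfl, rfl, rfl⟩ := h'
    exact st30 h hx hy
  · obtain ⟨rfl, rfl, ha, rfl, rfl⟩ := h'
    exact st42 h hc hx hy ha
  · obtain ⟨rfl, h1, h2, ha, rfl, rfl⟩ := h'
    by_cases ht : t' = 2
    · subst ht
      exact st22 h hx hy ha
    · exact (stq h hx hy (by omega) h2 ha).2.2
  · obtain ⟨rfl, rfl, ha, h3⟩ := h'
    exact st02 h hc hx hy hx' hy' ha h3
  · obtain ⟨rfl, h1, h2, ha, h3⟩ := h'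
    rcases h3 with ⟨rfl, rfl⟩ | ⟨rfl, rfl⟩
    · exact (stq h hx' hy' h1 h2 ha).1
    · exact (stq h hx' hy' h1 h2 ha).2.1
  · obtain ⟨rfl, rfl, rfl, h1, h2, h3, h4⟩ := h'
    exact st50 h hNM hN h1 h2 h3 h4
  · obtain ⟨rfl, rfl, h0, h1, h2, h3, h4⟩ := h'
    exact st61 h hN hNM h0 h1 h2 h3 h4
  · obtain ⟨rfl, rfl, rfl, rfl, h1, rfl⟩ := h'
    exact st57 h hN hNM hg h1

end

end Pool.Agent.SOCX
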