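import Pool.Agent.SOCX.ReaStr

/-!
# No stress
-/

namespace Pool.Agent.SOCX

open Matrix

/-- `Y` is a stress, in the form in which it is used: elimination of a single entry. -/
structure Str (N M : ℕ) (conf : ℕ → ℕ → Bool) (T : ℕ → Prop)
    (Y : ℕ → ℕ → ℕ → ℕ → ℕ → ℕ → ℝ) : Prop where
  row : ∀ x y t x0 y0 t0 (z : Fin 3 → ℝ), x < N → y < N → t < 8 → x0 < N → y0 < N → t0 < 8 →
    vv N M conf T x0 y0 t0 ⬝ᵥ z ≠ 0 →
    (∀ x' y' t', x' < N → y' < N → t' < 8 → hB N M conf x y t x' y' t' = true →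
      ¬ (x' = x0 ∧ y' = y0 ∧ t' = t0) →
      Y x y t x' y' t' = 0 ∨ vv N M conf T x' y' t' ⬝ᵥ z = 0) →
    Y x y t x0 y0 t0 = 0
  col : ∀ x y t x0 y0 t0 (z : Fin 3 → ℝ), x < N → y < N → t < 8 → x0 < N → y0 < N → t0 < 8 →
    uv N M conf T x0 y0 t0 ⬝ᵥ z ≠ 0 →
    (∀ x' y' t', x' < N → y' < N → t' < 8 → hB N M conf x' y' t' x y t = true →
      ¬ (x' = x0 ∧ y' = y0 ∧ t' = t0) →
      Y x' y' t' x y t = 0 ∨ uv N M conf T x' y' t' ⬝ᵥ z = 0) →
    Y x0 y0 t0 x y t = 0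

section

variable {N M : ℕ} {conf : ℕ → ℕ → Bool} {T : ℕ → Prop} {Y : ℕ → ℕ → ℕ → ℕ → ℕ → ℕ → ℝ}

theorem zdot (z : Fin 3 → ℝ) : (0 : Fin 3 → ℝ) ⬝ᵥ z = 0 := zero_dotProduct z

/-- 1: pendants -/
theorem st06 (h : Str N M conf T Y) {x y : ℕ} (hx : x < N) (hy : y < N) :
    Y x y 0 x y 6 = 0 := by
  refine h.col x y 6 x y 0 _ hx hy (by norm_num) hx hy (by norm_num) (dot_self_ne uv0_ne) ?_
  intro x' y' t' _ _ _ hh hne
  exfalso
  rcases hB_iff.1 hh with h | h | h | h | h | h | h | h | h | h | h <;> omega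

theorem st30 (h : Str N M conf T Y) {x y : ℕ} (hx : x < N) (hy : y < N) :
    Y x y 3 x y 0 = 0 := by
  refine h.row x y 3 x y 0 _ hx hy (by norm_num) hx hy (by norm_num) (dot_self_ne vv0_ne) ?_
  intro x' y' t' _ _ _ hh hne
  exfalso
  rcases hB_iff.1 hh with h | h | h | h | h | h | h | h | h | h | h <;> omega

theorem fv_ne (hc : ∀ x y, x < y → y < N → conf x y = true → ¬ (T x ∧ T y)) {x y : ℕ}
    (hy : y < N) (ha : act conf x y = true) : fv T x y ≠ 0 := by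
  have h1 := hc x y (act_lt ha) hy (act_conf ha)
  have h2 : (x : ℝ) < y := by exact_mod_cast act_lt ha
  by_cases hx : T x
  · have : ¬ T y := fun h => h1 ⟨hx, h⟩
    refine ne_zero_of_dot (z := al y) ?_
    rw [fv_al_right, dl_pos this]
    intro h; linarith
  · refine ne_zero_of_dot (z := al x) ?_
    rw [fv_al_left, dl_pos hx]
    intro h; linarith

theorem st42 (h : Str N M conf T Y)
    (hc : ∀ x y, x < y → y < N → conf x y = true → ¬ (T x ∧ T y)) {x y : ℕ} (hx : x < N)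
    (hy : y < N) (ha : act conf x y = true) : Y x y 4 x y 2 = 0 := by
  refine h.row x y 4 x y 2 (fv T x y) hx hy (by norm_num) hx hy (by norm_num) ?_ ?_
  · rw [vv2 ha]; exact dot_self_ne (fv_ne hc hy ha)
  intro x' y' t' _ _ _ hh hne
  exfalso
  rcases hB_iff.1 hh with h | h | h | h | h | h | h | h | h | h | h <;> omega

theorem gv_ne (hg : ∀ x < M, T (3 * x) ∨ T (3 * x + 1) ∨ T (3 * x + 2)) {x : ℕ} (hx : x < M) :
    gv T x ≠ 0 := by
  rcases hg x hx with h | h | h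
  · refine ne_zero_of_dot (z := ga (3 * x + 0)) ?_
    rw [gv_ga T x 0 (by norm_num), dl_pos (by simpa using h)]; norm_num
  · refine ne_zero_of_dot (z := ga (3 * x + 1)) ?_
    rw [gv_ga T x 1 (by norm_num), dl_pos h]; norm_num
  · refine ne_zero_of_dot (z := ga (3 * x + 2)) ?_
    rw [gv_ga T x 2 (by norm_num), dl_pos h]; norm_num

theorem st57 (h : Str N M conf T Y) (hN : 3 ≤ N) (hNM : 3 * M ≤ N)
    (hg : ∀ x < M, T (3 * x) ∨ T (3 * x + 1) ∨ T (3 * x + 2)) {x : ℕ} (hx : x < M) :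
    Y x 0 5 x 0 7 = 0 := by
  refine h.col x 0 7 x 0 5 (gv T x) (by omega) (by omega) (by norm_num) (by omega) (by omega)
    (by norm_num) ?_ ?_
  · rw [uv5 hx]; exact dot_self_ne (gv_ne hg hx)
  intro x' y' t' _ _ _ hh hne
  exfalso
  rcases hB_iff.1 hh with h | h | h | h | h | h | h | h | h | h | h <;> omega

/-- 2: the columns `q` -/
theorem stq (h : Str N M conf T Y) {x y t : ℕ} (hx : x < N) (hy : y < N)
    (ht : 3 ≤ t) (ht' : t ≤ 5) (ha : act conf x y = true) :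
    Y x y 1 x y t = 0 ∧ Y y x 1 x y t = 0 ∧ Y x y 2 x y t = 0 := by
  have hlt : (x : ℝ) < y := by exact_mod_cast act_lt ha
  have hlt' := act_lt ha
  refine ⟨?_, ?_, ?_⟩
  · refine h.col x y t x y 1 ![1, y, 0] hx hy (by omega) hx hy (by norm_num) ?_ ?_
    · rw [uv1]; simp [al]; intro h; linarith
    intro x' y' t' _ _ _ hh hne
    right
    rcases hB_iff.1 hh with h | h | h | h | h | h | h | h | h | h | h
    any_goals exfalso; omega
    · obtain ⟨rfl, _, _, _, rfl, rfl⟩ := h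
      rw [uv2 ha]; simp
    · obtain ⟨rfl, _, _, _, h⟩ := h
      rcases h with ⟨rfl, rfl⟩ | ⟨rfl, rfl⟩
      · exact absurd ⟨rfl, rfl, rfl⟩ hne
      · rw [uv1]; simp [al]
  · refine h.col x y t y x 1 ![1, x, 0] hx hy (by omega) hy hx (by norm_num) ?_ ?_
    · rw [uv1]; simp [al]; intro h; linarith
    intro x' y' t' _ _ _ hh hne
    right
    rcases hB_iff.1 hh with h | h | h | h | h | h | h | h | h | h | h
    any_goals exfalso; omega
    · obtain ⟨rfl, _, _, _, rfl, rfl⟩ := h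
      rw [uv2 ha]; simp
    · obtain ⟨rfl, _, _, _, h⟩ := h
      rcases h with ⟨rfl, rfl⟩ | ⟨rfl, rfl⟩
      · rw [uv1]; simp [al]
      · exact absurd ⟨rfl, rfl, rfl⟩ hne
  · refine h.col x y t x y 2 ![0, 0, 1] hx hy (by omega) hx hy (by norm_num) ?_ ?_
    · rw [uv2 ha]; simp
    intro x' y' t' _ _ _ hh hne
    right
    rcases hB_iff.1 hh with h | h | h | h | h | h | h | h | h | h | h
    any_goals exfalso; omega
    · obtain ⟨rfl, _, _, _, h⟩ := h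
      rw [uv1]; simp [al]

/-- the vector dual to `γ` in a group -/
theorem exists_dual {x x' : ℕ} (h1 : 3 * x ≤ x') (h2 : x' ≤ 3 * x + 2) :
    ∃ z : Fin 3 → ℝ, ga x' ⬝ᵥ z ≠ 0 ∧
      ∀ y, 3 * x ≤ y → y ≤ 3 * x + 2 → y ≠ x' → ga y ⬝ᵥ z = 0 := by
  have key : ∀ p q r : ℕ, p ≠ q → p ≠ r → q ≠ r → ga r ⬝ᵥ (ga p ⨯₃ ga q) ≠ 0 := by
    intro p q r h1 h2 h3
    rw [dotProduct_comm, ga_det]
    have e1 : (q : ℝ) - p ≠ 0 := sub_ne_zero.2 (by exact_mod_cast h1.symm)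
    have e2 : (r : ℝ) - p ≠ 0 := sub_ne_zero.2 (by exact_mod_cast h2.symm)
    have e3 : (r : ℝ) - q ≠ 0 := sub_ne_zero.2 (by exact_mod_cast h3.symm)
    exact mul_ne_zero (mul_ne_zero e1 e2) e3
  have k2 : ∀ p q : ℕ, ga p ⬝ᵥ (ga p ⨯₃ ga q) = 0 := fun p q => dot_self_cross _ _
  have k3 : ∀ p q : ℕ, ga q ⬝ᵥ (ga p ⨯₃ ga q) = 0 := fun p q => dot_cross_self _ _
  obtain h3 | h3 | h3 : x' = 3 * x ∨ x' = 3 * x + 1 ∨ x' = 3 * x + 2 := by omega
  · refine ⟨ga (3 * x + 1) ⨯₃ ga (3 * x + 2), key _ _ _ (by omega) (by omega) (by omega), ?_⟩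
    intro y h4 h5 h6
    obtain h7 | h7 : y = 3 * x + 1 ∨ y = 3 * x + 2 := by omega
    · rw [h7]; exact k2 _ _
    · rw [h7]; exact k3 _ _
  · refine ⟨ga (3 * x) ⨯₃ ga (3 * x + 2), key _ _ _ (by omega) (by omega) (by omega), ?_⟩
    intro y h4 h5 h6
    obtain h7 | h7 : y = 3 * x ∨ y = 3 * x + 2 := by omega
    · rw [h7]; exact k2 _ _
    · rw [h7]; exact k3 _ _
  · refine ⟨ga (3 * x) ⨯₃ ga (3 * x + 1), key _ _ _ (by omega) (by omega) (by omega), ?_⟩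
    intro y h4 h5 h6
    obtain h7 | h7 : y = 3 * x ∨ y = 3 * x + 1 := by omega
    · rw [h7]; exact k2 _ _
    · rw [h7]; exact k3 _ _

/-- 3: the rows `p` -/
theorem st61 (h : Str N M conf T Y) (hN : 3 ≤ N) (hNM : 3 * M ≤ N) {x y x' y' : ℕ}
    (hy : y < 3) (hy' : y' + 1 = N) (hx : x < M) (h1 : 3 * x ≤ x') (h2 : x' ≤ 3 * x + 2) :
    Y x y 6 x' y' 1 = 0 := by
  obtain ⟨z, hz, hz'⟩ := exists_dual h1 h2
  refine h.row x y 6 x' y' 1 z (by omega) (by omega) (by norm_num) (by omega) (by omega)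
    (by norm_num) (by rw [vv1]; exact hz) ?_
  intro x'' y'' t'' _ _ _ hh hne
  right
  rcases hB_iff.1 hh with h | h | h | h | h | h | h | h | h | h | h
  any_goals exfalso; omega
  obtain ⟨_, rfl, _, h5, _, h6, h7⟩ := h
  rw [vv1]
  exact hz' _ h6 h7 (by omega)

/-- 4: `a`-`f`, index not in `T` -/
theorem st02F (h : Str N M conf T Y) {x y x' y' : ℕ} (hx : x < N) (hy : y < N) (hT : ¬ T x)
    (hx' : x' < N) (hy' : y' < N) (ha : act conf x' y' = true)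
    (he : (x = x' ∧ y = y') ∨ (x = y' ∧ y = x')) : Y x y 0 x' y' 2 = 0 := by
  have hlt : (x' : ℝ) < y' := by exact_mod_cast act_lt ha
  refine h.row x y 0 x' y' 2 (al x) hx hy (by norm_num) hx' hy' (by norm_num) ?_ ?_
  · rw [vv2 ha]
    rcases he with ⟨rfl, rfl⟩ | ⟨rfl, rfl⟩
    · rw [fv_al_left, dl_pos hT]; intro h; linarith
    · rw [fv_al_right, dl_pos hT]; intro h; linarith
  intro x'' y'' t'' _ _ _ hh hne
  right
  rcases hB_iff.1 hh with h | h | h | h | h | h | h | h | h | h | h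
  any_goals exfalso; omega
  · obtain ⟨_, h3, rfl, rfl⟩ := h
    interval_cases t''
    · rw [vv0_F hT, ga_al]
    · rw [vv1, ga_al]
  · obtain ⟨_, rfl, rfl, rfl⟩ := h
    rw [vv0_F hT, ga_al]
  · obtain ⟨_, rfl, rfl, rfl⟩ := h
    rw [vv3 (by norm_num), zdot]
  · exfalso
    obtain ⟨_, rfl, ha', h3⟩ := h
    have h4 := act_lt ha'
    have h5 := act_lt ha
    omega

/-- 5: the column `f` -/
theorem st22 (h : Str N M conf T Y) {x y : ℕ} (hx : x < N) (hy : y < N)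
    (ha : act conf x y = true) : Y x y 2 x y 2 = 0 := by
  refine h.col x y 2 x y 2 ![0, 0, 1] hx hy (by norm_num) hx hy (by norm_num) ?_ ?_
  · rw [uv2 ha]; simp
  intro x' y' t' h3 h4 _ hh hne
  rcases hB_iff.1 hh with h' | h' | h' | h' | h' | h' | h' | h' | h' | h' | h'
  any_goals exfalso; omega
  · obtain ⟨rfl, _⟩ := h'
    right; rw [uv4, zdot]
  · obtain ⟨rfl, _, ha', h5⟩ := h'
    by_cases hT : T x'
    · right; rw [uv0_T hT]; simp [al]
    · left; exact st02F h h3 h4 hT hx hy ha h5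

theorem st02 (h : Str N M conf T Y)
    (hc : ∀ x y, x < y → y < N → conf x y = true → ¬ (T x ∧ T y)) {x y x' y' : ℕ}
    (hx : x < N) (hy : y < N) (hx' : x' < N) (hy' : y' < N) (ha : act conf x' y' = true)
    (he : (x = x' ∧ y = y') ∨ (x = y' ∧ y = x')) : Y x y 0 x' y' 2 = 0 := by
  by_cases hT : T x
  · refine h.col x' y' 2 x y 0 (al x) hx' hy' (by norm_num) hx hy (by norm_num) ?_ ?_
    · rw [uv0_T hT]; exact al_self x
    intro x'' y'' t'' h3 h4 _ hh hne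
    rcases hB_iff.1 hh with h' | h' | h' | h' | h' | h' | h' | h' | h' | h' | h'
    any_goals exfalso; omega
    · obtain ⟨rfl, _⟩ := h'
      right; rw [uv4, zdot]
    · obtain ⟨rfl, _, _, _, rfl, rfl⟩ := h'
      left; exact st22 h hx' hy' ha
    · obtain ⟨rfl, _, ha', h5⟩ := h'
      left
      refine st02F h h3 h4 ?_ hx' hy' ha h5
      intro hT'
      have h6 := act_lt ha
      have h7 := hc x' y' h6 hy' (act_conf ha)
      rcases he with ⟨rfl, rfl⟩ | ⟨rfl, rfl⟩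
      · rcases h5 with ⟨rfl, rfl⟩ | ⟨rfl, rfl⟩
        · omega
        · exact h7 ⟨hT, hT'⟩
      · rcases h5 with ⟨rfl, rfl⟩ | ⟨rfl, rfl⟩
        · exact h7 ⟨hT', hT⟩
        · omega
  · exact st02F h hx hy hT hx' hy' ha he

/-- 6, 7: the row `g` -/
theorem st50T (h : Str N M conf T Y) (hNM : 3 * M ≤ N) {x x' y' : ℕ} (hN : 3 ≤ N)
    (hy' : y' + 1 = N) (hx : x < M) (h1 : 3 * x ≤ x') (h2 : x' ≤ 3 * x + 2) (hT : T x') :
    Y x 0 5 x' y' 0 = 0 := by
  refine h.col x' y' 0 x 0 5 (ga x') (by omega) (by omega) (by norm_num) (by omega) (by omega)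
    (by norm_num) ?_ ?_
  · rw [uv5 hx]
    obtain ⟨s, hs, rfl⟩ : ∃ s, s < 3 ∧ x' = 3 * x + s := ⟨x' - 3 * x, by omega, by omega⟩
    rw [gv_ga T x s hs, dl_pos hT]; norm_num
  intro x'' y'' t'' h3 h4 _ hh hne
  right
  rcases hB_iff.1 hh with h' | h' | h' | h' | h' | h' | h' | h' | h' | h' | h'
  any_goals exfalso; omega
  · obtain ⟨h5, _, rfl, rfl⟩ := h'
    interval_cases t''
    · exact uv0_ga
    · rw [uv1, al_ga]
  · obtain ⟨rfl, _⟩ := h'
    rw [uv3, zdot]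

theorem st50 (h : Str N M conf T Y) (hNM : 3 * M ≤ N) {x x' y' : ℕ} (hN : 3 ≤ N)
    (hy' : y' + 1 = N) (hx : x < M) (h1 : 3 * x ≤ x') (h2 : x' ≤ 3 * x + 2) :
    Y x 0 5 x' y' 0 = 0 := by
  by_cases hT : T x'
  · exact st50T h hNM hN hy' hx h1 h2 hT
  obtain ⟨z, hz, hz'⟩ := exists_dual h1 h2
  refine h.row x 0 5 x' y' 0 z (by omega) (by omega) (by norm_num) (by omega) (by omega)
    (by norm_num) (by rw [vv0_F hT]; exact hz) ?_
  intro x'' y'' t'' _ _ _ hh hne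
  rcases hB_iff.1 hh with h' | h' | h' | h' | h' | h' | h' | h' | h' | h' | h'
  any_goals exfalso; omega
  · obtain ⟨_, rfl, _, h5, _, h6, h7⟩ := h'
    by_cases hT' : T x''
    · left; exact st50T h hNM hN h5 hx h6 h7 hT'
    · right; rw [vv0_F hT']; exact hz' _ h6 h7 (by omega)
  · obtain ⟨_, rfl, _⟩ := h'
    right; rw [vv3 (by norm_num), zdot]

end

end Pool.Agent.SOCX
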