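import Pool.Agent.SOCX.ReaVec

/-!
# The realisation has zero products and no stress
-/

namespace Pool.Agent.SOCX

open Matrix

theorem hB_iff {N M : ℕ} {conf : ℕ → ℕ → Bool} {x y t x' y' t' : ℕ} :
    hB N M conf x y t x' y' t' = true ↔
      (t ≤ 1 ∧ t' ≤ 1 ∧ x = x' ∧ y = y') ∨
      (t ≤ 1 ∧ t = t' ∧ x = x' ∧ y = y' + 1) ∨
      (t = 0 ∧ t' = 6 ∧ x = x' ∧ y = y') ∨
      (t = 3 ∧ t' = 0 ∧ x = x' ∧ y = y') ∨
      (t = 4 ∧ t' = 2 ∧ act conf x' y' = true ∧ x = x' ∧ y = y') ∨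
      (t = 2 ∧ 2 ≤ t' ∧ t' ≤ 5 ∧ act conf x' y' = true ∧ x = x' ∧ y = y') ∨
      (t = 0 ∧ t' = 2 ∧ act conf x' y' = true ∧ ((x = x' ∧ y = y') ∨ (x = y' ∧ y = x'))) ∨
      (t = 1 ∧ 3 ≤ t' ∧ t' ≤ 5 ∧ act conf x' y' = true ∧
        ((x = x' ∧ y = y') ∨ (x = y' ∧ y = x'))) ∨
      (t = 5 ∧ t' = 0 ∧ y = 0 ∧ y' + 1 = N ∧ x < M ∧ 3 * x ≤ x' ∧ x' ≤ 3 * x + 2) ∨
      (t = 6 ∧ t' = 1 ∧ y < 3 ∧ y' + 1 = N ∧ x < M ∧ 3 * x ≤ x' ∧ x' ≤ 3 * x + 2) ∨
      (t = 5 ∧ t' = 7 ∧ y = 0 ∧ y' = 0 ∧ x < M ∧ x = x') := by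
  simp only [hB, Bool.or_eq_true, Bool.and_eq_true, decide_eq_true_eq, and_assoc, or_assoc]

theorem act_lt {conf : ℕ → ℕ → Bool} {x y : ℕ} (h : act conf x y = true) : x < y := by
  simp only [act, Bool.and_eq_true, decide_eq_true_eq] at h
  exact h.1

theorem act_conf {conf : ℕ → ℕ → Bool} {x y : ℕ} (h : act conf x y = true) :
    conf x y = true := by
  simp only [act, Bool.and_eq_true, decide_eq_true_eq] at h
  exact h.2

theorem not_act_symm {conf : ℕ → ℕ → Bool} {x y : ℕ} (h : act conf x y = true) :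
    act conf y x = false := by
  have := act_lt h
  simp only [act, Bool.and_eq_false_iff, decide_eq_false_iff_not]
  left; omega

section

variable {N M : ℕ} {conf : ℕ → ℕ → Bool} {T : ℕ → Prop}

/-- `a` in both cases -/
theorem uv0_T {x y : ℕ} (h : T x) : uv N M conf T x y 0 = al x := by simp [uv, h]
theorem uv0_F {x y : ℕ} (h : ¬ T x) : uv N M conf T x y 0 = ga x ⨯₃ Fv conf T x y := by
  simp [uv, h]
theorem uv1 {x y : ℕ} : uv N M conf T x y 1 = al x := by simp [uv]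
theorem uv2 {x y : ℕ} (h : act conf x y = true) : uv N M conf T x y 2 = ![0, 0, 1] := by
  simp [uv, h]
theorem uv3 {x y : ℕ} : uv N M conf T x y 3 = 0 := by simp [uv]
theorem uv4 {x y : ℕ} : uv N M conf T x y 4 = 0 := by simp [uv]
theorem uv5 {x : ℕ} (h : x < M) : uv N M conf T x 0 5 = gv T x := by simp [uv, h]
theorem uv6 {x y : ℕ} : uv N M conf T x y 6 = 0 := by simp [uv]
theorem uv7 {x y : ℕ} : uv N M conf T x y 7 = 0 := by simp [uv]
theorem vv0_T {x y : ℕ} (h : T x) : vv N M conf T x y 0 = al x ⨯₃ Gv N M T x y := by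
  simp [vv, h]
theorem vv0_F {x y : ℕ} (h : ¬ T x) : vv N M conf T x y 0 = ga x := by simp [vv, h]
theorem vv1 {x y : ℕ} : vv N M conf T x y 1 = ga x := by simp [vv]
theorem vv2 {x y : ℕ} (h : act conf x y = true) : vv N M conf T x y 2 = fv T x y := by
  simp [vv, h]
theorem vv3 {x y t : ℕ} (ht : 3 ≤ t) : vv N M conf T x y t = 0 := by
  unfold vv
  rw [if_neg (by omega), if_neg (by omega), if_neg (by omega)]

/-- `a · γ = 0` -/
theorem uv0_ga {x y : ℕ} : uv N M conf T x y 0 ⬝ᵥ ga x = 0 := by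
  by_cases h : T x
  · rw [uv0_T h, al_ga]
  · rw [uv0_F h, dotProduct_comm, dot_self_cross]

/-- `α · c = 0` -/
theorem al_vv0 {x y : ℕ} : al x ⬝ᵥ vv N M conf T x y 0 = 0 := by
  by_cases h : T x
  · rw [vv0_T h, dot_self_cross]
  · rw [vv0_F h, al_ga]

/-- `a · c = 0` -/
theorem uv0_vv0 {x y y' : ℕ} : uv N M conf T x y 0 ⬝ᵥ vv N M conf T x y' 0 = 0 := by
  by_cases h : T x
  · rw [uv0_T h, al_vv0]
  · rw [vv0_F h, uv0_ga]

/-- `a · f = 0` -/
theorem uv0_fv {x y : ℕ} (hc : ∀ x y, x < y → y < N → conf x y = true → ¬ (T x ∧ T y))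
    (hy : y < N) (h : act conf x y = true) :
    uv N M conf T x y 0 ⬝ᵥ fv T x y = 0 ∧ uv N M conf T y x 0 ⬝ᵥ fv T x y = 0 := by
  constructor
  · by_cases hx : T x
    · rw [uv0_T hx, dotProduct_comm, fv_al_left, dl_neg (by simpa using hx), zero_mul]
    · rw [uv0_F hx]
      simp only [Fv, h, if_true]
      rw [dotProduct_comm, dot_cross_self]
  · by_cases hx : T y
    · rw [uv0_T hx, dotProduct_comm, fv_al_right, dl_neg (by simpa using hx), zero_mul]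
    · rw [uv0_F hx]
      simp only [Fv, h, not_act_symm h, if_true]
      rw [dotProduct_comm]
      exact dot_cross_self _ _

/-- `g · c = 0` in the last position -/
theorem gv_vv0 {x x' y' : ℕ} (hy : y' + 1 = N) (hx : x < M) (h1 : 3 * x ≤ x')
    (h2 : x' ≤ 3 * x + 2) : gv T x ⬝ᵥ vv N M conf T x' y' 0 = 0 := by
  by_cases h : T x'
  · rw [vv0_T h]
    have h3 : x' / 3 = x := by omega
    simp only [Gv, h3, hy, hx, and_self, if_true]
    exact dot_cross_self _ _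
  · rw [vv0_F h]
    obtain ⟨s, hs, rfl⟩ : ∃ s, s < 3 ∧ x' = 3 * x + s := ⟨x' - 3 * x, by omega, by omega⟩
    rw [gv_ga T x s hs, dl_neg h, mul_zero]

theorem products (hc : ∀ x y, x < y → y < N → conf x y = true → ¬ (T x ∧ T y))
    {x y t x' y' t' : ℕ} (hy' : y' < N) (h : hB N M conf x y t x' y' t' = true) :
    uv N M conf T x y t ⬝ᵥ vv N M conf T x' y' t' = 0 := by
  rcases hB_iff.1 h with h | h | h | h | h | h | h | h | h | h | h
  · obtain ⟨h1, h2, rfl, rfl⟩ := h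
    interval_cases t <;> interval_cases t'
    · exact uv0_vv0
    · rw [vv1, uv0_ga]
    · rw [uv1, al_vv0]
    · rw [uv1, vv1, al_ga]
  · obtain ⟨h1, rfl, rfl, rfl⟩ := h
    interval_cases t
    · exact uv0_vv0
    · rw [uv1, vv1, al_ga]
  · obtain ⟨rfl, rfl, rfl, rfl⟩ := h
    rw [vv3 (by norm_num), dotProduct_zero]
  · obtain ⟨rfl, rfl, rfl, rfl⟩ := h
    rw [uv3, zero_dotProduct]
  · obtain ⟨rfl, rfl, h3, rfl, rfl⟩ := h
    rw [uv4, zero_dotProduct]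
  · obtain ⟨rfl, h1, h2, h3, rfl, rfl⟩ := h
    by_cases ht : t' = 2
    · subst ht
      rw [uv2 h3, vv2 h3, dotProduct_comm, fv_e]
    · rw [vv3 (by omega), dotProduct_zero]
  · obtain ⟨rfl, rfl, h3, h4⟩ := h
    rw [vv2 h3]
    rcases h4 with ⟨rfl, rfl⟩ | ⟨rfl, rfl⟩
    · exact (uv0_fv hc hy' h3).1
    · exact (uv0_fv hc hy' h3).2
  · obtain ⟨rfl, h1, h2, h3, h4⟩ := h
    rw [vv3 h1, dotProduct_zero]
  · obtain ⟨rfl, rfl, rfl, h1, h2, h3, h4⟩ := h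
    rw [uv5 h2]
    exact gv_vv0 h1 h2 h3 h4
  · obtain ⟨rfl, rfl, h⟩ := h
    rw [uv6, zero_dotProduct]
  · obtain ⟨rfl, rfl, h⟩ := h
    rw [vv3 (by norm_num), dotProduct_zero]

end

end Pool.Agent.SOCX
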