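import Pool.Agent.SOCX.Defs

/-!
# The vectors of the realisation
-/

namespace Pool.Agent.SOCX

open Matrix

noncomputable section

open Classical in
/-- indicator -/
def dl (P : Prop) : ℝ := if P then 1 else 0

theorem dl_pos {P : Prop} (h : P) : dl P = 1 := by simp [dl, h]
theorem dl_neg {P : Prop} (h : ¬ P) : dl P = 0 := by simp [dl, h]

/-- `α` -/
def al (o : ℕ) : Fin 3 → ℝ := ![(o : ℝ), -1, 0]
/-- `γ` -/
def ga (o : ℕ) : Fin 3 → ℝ := ![1, (o : ℝ), (o : ℝ) ^ 2]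

/-- `g` -/
def gv (T : ℕ → Prop) (j : ℕ) : Fin 3 → ℝ :=
  dl (T (3 * j)) • (ga (3 * j + 1) ⨯₃ ga (3 * j + 2)) +
    dl (T (3 * j + 1)) • (ga (3 * j + 2) ⨯₃ ga (3 * j)) +
    dl (T (3 * j + 2)) • (ga (3 * j) ⨯₃ ga (3 * j + 1))

/-- `f` -/
def fv (T : ℕ → Prop) (x y : ℕ) : Fin 3 → ℝ :=
  ![dl (¬ T y) - dl (¬ T x), dl (¬ T y) * x - dl (¬ T x) * y, 0]

open Classical in
/-- `G` -/
def Gv (N M : ℕ) (T : ℕ → Prop) (o y : ℕ) : Fin 3 → ℝ :=
  if y + 1 = N ∧ o / 3 < M then gv T (o / 3) else ga o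

/-- `F` -/
def Fv (conf : ℕ → ℕ → Bool) (T : ℕ → Prop) (o y : ℕ) : Fin 3 → ℝ :=
  if act conf o y then fv T o y else if act conf y o then fv T y o else al o

open Classical in
/-- the row vectors -/
def uv (N M : ℕ) (conf : ℕ → ℕ → Bool) (T : ℕ → Prop) (x y t : ℕ) : Fin 3 → ℝ :=
  if t = 0 then (if T x then al x else ga x ⨯₃ Fv conf T x y)
  else if t = 1 then al x
  else if t = 2 then (if act conf x y then ![0, 0, 1] else 0)
  else if t = 5 then (if y = 0 ∧ x < M then gv T x else 0)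
  else 0

open Classical in
/-- the column vectors -/
def vv (N M : ℕ) (conf : ℕ → ℕ → Bool) (T : ℕ → Prop) (x y t : ℕ) : Fin 3 → ℝ :=
  if t = 0 then (if T x then al x ⨯₃ Gv N M T x y else ga x)
  else if t = 1 then ga x
  else if t = 2 then (if act conf x y then fv T x y else 0)
  else 0

theorem al_ga (x : ℕ) : al x ⬝ᵥ ga x = 0 := by
  simp [al, ga]

theorem ga_al (x : ℕ) : ga x ⬝ᵥ al x = 0 := by rw [dotProduct_comm, al_ga]

theorem al_self (x : ℕ) : al x ⬝ᵥ al x ≠ 0 := by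
  have : al x ⬝ᵥ al x = (x : ℝ) ^ 2 + 1 := by simp [al, pow_two]
  rw [this]; positivity

theorem ga_self (x : ℕ) : ga x ⬝ᵥ ga x ≠ 0 := by
  have : ga x ⬝ᵥ ga x = 1 + (x : ℝ) ^ 2 + ((x : ℝ) ^ 2) ^ 2 := by
    simp [ga, vec3_dotProduct]; ring
  rw [this]; positivity

theorem fv_al_left (T : ℕ → Prop) (x y : ℕ) :
    fv T x y ⬝ᵥ al x = dl (¬ T x) * ((y : ℝ) - x) := by
  simp [fv, al, vec3_dotProduct]; ring

theorem fv_al_right (T : ℕ → Prop) (x y : ℕ) :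
    fv T x y ⬝ᵥ al y = dl (¬ T y) * ((y : ℝ) - x) := by
  simp [fv, al, vec3_dotProduct]; ring

theorem fv_e (T : ℕ → Prop) (x y : ℕ) : fv T x y ⬝ᵥ ![0, 0, 1] = 0 := by
  simp [fv, vec3_dotProduct]

theorem ga_det (p q r : ℕ) :
    (ga p ⨯₃ ga q) ⬝ᵥ ga r = ((q : ℝ) - p) * ((r : ℝ) - p) * ((r : ℝ) - q) := by
  simp [ga, cross_apply, vec3_dotProduct]; ring

theorem gv_ga (T : ℕ → Prop) (j s : ℕ) (hs : s < 3) :
    gv T j ⬝ᵥ ga (3 * j + s) = 2 * dl (T (3 * j + s)) := by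
  have h0 : gv T j ⬝ᵥ ga (3 * j + s) =
      dl (T (3 * j)) * ((ga (3 * j + 1) ⨯₃ ga (3 * j + 2)) ⬝ᵥ ga (3 * j + s)) +
      dl (T (3 * j + 1)) * ((ga (3 * j + 2) ⨯₃ ga (3 * j)) ⬝ᵥ ga (3 * j + s)) +
      dl (T (3 * j + 2)) * ((ga (3 * j) ⨯₃ ga (3 * j + 1)) ⬝ᵥ ga (3 * j + s)) := by
    simp only [gv, add_dotProduct, smul_dotProduct, smul_eq_mul]
  rw [h0, ga_det, ga_det, ga_det]
  interval_cases s <;> push_cast <;> ring

theorem ne_zero_of_dot {u z : Fin 3 → ℝ} (h : u ⬝ᵥ z ≠ 0) : u ≠ 0 := by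
  rintro rfl; simp at h

theorem dot_self_ne {u : Fin 3 → ℝ} (h : u ≠ 0) : u ⬝ᵥ u ≠ 0 := by
  simpa [dotProduct_self_eq_zero] using h

section props

variable {N M : ℕ} {conf : ℕ → ℕ → Bool} {T : ℕ → Prop}

theorem Fv_al {x y : ℕ} (hT : ¬ T x) : Fv conf T x y ⬝ᵥ al x ≠ 0 := by
  unfold Fv
  split_ifs with h1 h2
  · rw [fv_al_left, dl_pos hT]
    have : x < y := by simpa [act] using (by simp [act] at h1; exact h1.1 : x < y)
    have h3 : (x : ℝ) < y := by exact_mod_cast this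
    intro h; linarith
  · rw [fv_al_right, dl_pos hT]
    have : y < x := by simp [act] at h2; exact h2.1
    have h3 : (y : ℝ) < x := by exact_mod_cast this
    intro h; linarith
  · exact al_self x

theorem Gv_ga {x y : ℕ} (hT : T x) : Gv N M T x y ⬝ᵥ ga x ≠ 0 := by
  unfold Gv
  split_ifs with h1
  · have h2 : x = 3 * (x / 3) + x % 3 := by omega
    have h3 := gv_ga T (x / 3) (x % 3) (by omega)
    rw [← h2, dl_pos hT] at h3
    rw [h3]; norm_num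
  · exact ga_self x

/-- the vector `a` for an index outside `T` -/
theorem cross_ne {p q z : Fin 3 → ℝ} (hpz : p ⬝ᵥ z = 0) (hp : p ⬝ᵥ p ≠ 0) (hq : q ⬝ᵥ z ≠ 0) :
    p ⨯₃ q ≠ 0 := by
  intro h
  have h1 := cross_dot_cross p q z p
  rw [h, zero_dotProduct, hpz, zero_mul, zero_sub] at h1
  have h2 : p ⬝ᵥ p * (q ⬝ᵥ z) = 0 := by linarith
  rcases mul_eq_zero.1 h2 with h3 | h3
  · exact hp h3
  · exact hq h3

theorem uv0_ne {x y : ℕ} : uv N M conf T x y 0 ≠ 0 := by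
  by_cases hT : T x
  · simp only [uv, if_true, hT]
    exact fun h => al_self x (by rw [h]; simp)
  · simp only [uv, if_true, hT, if_false]
    exact cross_ne (z := al x) (ga_al x) (ga_self x) (Fv_al hT)

theorem vv0_ne {x y : ℕ} : vv N M conf T x y 0 ≠ 0 := by
  by_cases hT : T x
  · simp only [vv, if_true, hT]
    exact cross_ne (z := ga x) (al_ga x) (al_self x) (Gv_ga hT)
  · simp only [vv, if_true, hT, if_false]
    exact fun h => ga_self x (by rw [h]; simp)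

end props

end

end Pool.Agent.SOCX
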