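import Pool.Agent.SOCX.Defs
import Pool.Agent.TM2Lib.NP

/-!
# The selection problem is 3-SAT
-/

namespace Pool.Agent.SOCX

open Pool.Agent.TM2Lib Pool.Agent.TM2Lib.NPC

/-- The literals of a formula, in order. -/
def lits (φ : List Clause) : List Lit := φ.flatMap fun c => [c.1, c.2.1, c.2.2]

/-- Two occurrences are in conflict: the same variable, different signs. -/
def cf (φ : List Clause) (x y : ℕ) : Bool :=
  decide (((lits φ).getD x (0, true)).1 = ((lits φ).getD y (0, true)).1) &&
    xor ((lits φ).getD x (0, true)).2 ((lits φ).getD y (0, true)).2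

private theorem lits_getD (φ : List Clause) : ∀ (j : ℕ) (hj : j < φ.length),
    (lits φ).getD (3 * j) (0, true) = (φ[j]).1 ∧
    (lits φ).getD (3 * j + 1) (0, true) = (φ[j]).2.1 ∧
    (lits φ).getD (3 * j + 2) (0, true) = (φ[j]).2.2 := by
  induction φ with
  | nil =>
    intro j hj
    exact absurd hj (Nat.not_lt_zero j)
  | cons c φ ih =>
    intro j hj
    have h0 : lits (c :: φ) = c.1 :: c.2.1 :: c.2.2 :: lits φ := rfl
    rcases j with _ | j
    · rw [h0]
      exact ⟨rfl, rfl, rfl⟩
    · have h1 := ih j (by simpa using hj)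
      have e1 : 3 * (j + 1) = 3 * j + 1 + 1 + 1 := by ring
      rw [h0, e1]
      simp only [List.getD_cons_succ, List.getElem_cons_succ]
      exact h1

private theorem cf_iff (φ : List Clause) (x y : ℕ) : cf φ x y = true ↔
    ((lits φ).getD x (0, true)).1 = ((lits φ).getD y (0, true)).1 ∧
      ((lits φ).getD x (0, true)).2 ≠ ((lits φ).getD y (0, true)).2 := by
  unfold cf
  rw [Bool.and_eq_true, decide_eq_true_iff]
  cases ((lits φ).getD x (0, true)).2 <;> cases ((lits φ).getD y (0, true)).2 <;> simp

theorem sel_iff (φ : List Clause) : Sel (3 * φ.length + 3) φ.length (cf φ) ↔ Satis φ := by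
  classical
  constructor
  · rintro ⟨T, hT1, hT2⟩
    have hconf : ∀ x y, x < 3 * φ.length + 3 → y < 3 * φ.length + 3 → x ≠ y →
        cf φ x y = true → T x → T y → False := by
      intro x y hx hy hxy hc h1 h2
      rcases lt_or_gt_of_ne hxy with h | h
      · exact hT2 x y h hy hc ⟨h1, h2⟩
      · have hc' : cf φ y x = true := by
          rw [cf_iff] at hc ⊢
          exact ⟨hc.1.symm, hc.2.symm⟩
        exact hT2 y x h hx hc' ⟨h2, h1⟩
    have key : ∀ x, x < 3 * φ.length → T x →
        decide (∃ o, o < 3 * φ.length ∧ T o ∧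
          (lits φ).getD o (0, true) = (((lits φ).getD x (0, true)).1, true))
          = ((lits φ).getD x (0, true)).2 := by
      intro x hx hTx
      cases hs : ((lits φ).getD x (0, true)).2 with
      | true =>
        rw [decide_eq_true_iff]
        exact ⟨x, hx, hTx, Prod.ext rfl hs⟩
      | false =>
        rw [decide_eq_false_iff_not]
        rintro ⟨o, ho, hTo, hl⟩
        have hne : x ≠ o := by
          intro h
          subst h
          rw [hl] at hs
          exact Bool.noConfusion hs
        apply hconf x o (by omega) (by omega) hne ?_ hTx hTo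
        rw [cf_iff, hl, hs]
        exact ⟨rfl, Bool.noConfusion⟩
    refine ⟨fun v => decide (∃ o, o < 3 * φ.length ∧ T o ∧
      (lits φ).getD o (0, true) = (v, true)), ?_⟩
    intro c hc
    obtain ⟨j, hj, rfl⟩ := List.getElem_of_mem hc
    obtain ⟨h1, h2, h3⟩ := lits_getD φ j hj
    rcases hT1 j hj with h | h | h
    · refine Or.inl ?_
      have := key _ (by omega) h
      rw [h1] at this
      exact this
    · refine Or.inr (Or.inl ?_)
      have := key _ (by omega) h
      rw [h2] at this
      exact this
    · refine Or.inr (Or.inr ?_)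
      have := key _ (by omega) h
      rw [h3] at this
      exact this
  · rintro ⟨β, hβ⟩
    refine ⟨fun o => β ((lits φ).getD o (0, true)).1 = ((lits φ).getD o (0, true)).2 ∧
      o < 3 * φ.length, ?_, ?_⟩
    · intro j hj
      obtain ⟨h1, h2, h3⟩ := lits_getD φ j hj
      rcases hβ _ (List.getElem_mem hj) with h | h | h
      · refine Or.inl ⟨?_, by omega⟩
        rw [h1]
        exact h
      · refine Or.inr (Or.inl ⟨?_, by omega⟩)
        rw [h2]
        exact h
      · refine Or.inr (Or.inr ⟨?_, by omega⟩)
        rw [h3]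
        exact h
    · rintro x y _ _ hc ⟨⟨h1, _⟩, ⟨h2, _⟩⟩
      rw [cf_iff] at hc
      exact hc.2 (by rw [← h1, ← h2, hc.1])

end Pool.Agent.SOCX
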