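import Pool.Agent.SOCX.Gad
import Pool.Agent.SOCX.RedA
import Pool.Agent.TM2Lib.Unary2

/-!
# `poly_red`: the reduction is computable in polynomial time
-/

namespace Pool.Agent.SOCX

open Pool.Agent.TM2Lib Pool.Agent.TM2Lib.NPC

variable {α γ : Type} [Enc α] [Enc γ]

theorem RedB_flatRange {n : α → ℕ} {h : α → ℕ → List γ} (hn : UPoly n)
    (hh : Poly (fun p : α × Un => h p.1 p.2.n)) :
    Poly (fun a => (List.range (n a)).flatMap (h a)) :=
  (Poly.flatMap (h := fun p : α × Un => h p.1 p.2.n) (Poly.range hn) hh).of_eq fun a => by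
    rw [List.flatMap_map]

theorem RedB_lits {φ : α → List Clause} (hφ : Poly φ) : Poly (fun a => lits (φ a)) :=
  Poly.flatMap (h := fun p : α × Clause => [p.2.1, p.2.2.1, p.2.2.2]) hφ
    (Poly.id.snd'.fst'.cons (Poly.id.snd'.snd'.fst'.cons (Poly.id.snd'.snd'.snd'.cons
      (TM2Lib.Poly.const []))))

theorem RedB_cf {φ : α → List Clause} {x y : α → ℕ} (hφ : Poly φ) (hx : UPoly x) (hy : UPoly y) :
    Poly (fun a => cf (φ a) (x a) (y a)) := by
  have h1 := Poly.getD (RedB_lits hφ) hx (TM2Lib.Poly.const ((0, true) : Lit))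
  have h2 := Poly.getD (RedB_lits hφ) hy (TM2Lib.Poly.const ((0, true) : Lit))
  exact (Poly.nat_eq h1.fst' h2.fst').and (h1.snd'.bne h2.snd')

theorem RedB_act {φ : α → List Clause} {x y : α → ℕ} (hφ : Poly φ) (hx : UPoly x) (hy : UPoly y) :
    Poly (fun a => act (cf (φ a)) (x a) (y a)) :=
  (hx.lt hy).and (RedB_cf hφ hx hy)

theorem RedB_hB {φ : α → List Clause} {N M x y t x' y' t' : α → ℕ} (hφ : Poly φ)
    (hN : UPoly N) (hM : UPoly M) (hx : UPoly x) (hy : UPoly y) (ht : UPoly t)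
    (hx' : UPoly x') (hy' : UPoly y') (ht' : UPoly t') :
    Poly (fun a => hB (N a) (M a) (cf (φ a)) (x a) (y a) (t a) (x' a) (y' a) (t' a)) := by
  have c : ∀ k : ℕ, UPoly (fun _ : α => k) := fun k => UPoly.const k
  have exy := (hx.eq hx').and (hy.eq hy')
  have exy2 := (hx.eq hy').and (hy.eq hx')
  have ac := RedB_act hφ hx' hy'
  have cl := (hx.lt hM).and (UPoly.le ((c 3).mul hx) hx') |>.and
    (UPoly.le hx' (((c 3).mul hx).add (c 2)))
  have A1 := ((ht.le (c 1)).and (ht'.le (c 1))).and exy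
  have A2 := ((ht.le (c 1)).and (ht.eq ht')).and ((hx.eq hx').and (hy.eq (hy'.add (c 1))))
  have A3 := ((ht.eq (c 0)).and (ht'.eq (c 6))).and exy
  have A4 := ((ht.eq (c 3)).and (ht'.eq (c 0))).and exy
  have A5 := ((ht.eq (c 4)).and (ht'.eq (c 2))).and (ac.and exy)
  have A6 := ((ht.eq (c 2)).and (((c 2).le ht').and (ht'.le (c 5)))).and (ac.and exy)
  have A7 := ((ht.eq (c 0)).and (ht'.eq (c 2))).and (ac.and (exy.or exy2))
  have A8 := ((ht.eq (c 1)).and (((c 3).le ht').and (ht'.le (c 5)))).and (ac.and (exy.or exy2))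
  have A9 := ((ht.eq (c 5)).and (ht'.eq (c 0))).and ((hy.eq (c 0)).and
    ((hy'.add (c 1)).eq hN) |>.and cl)
  have A10 := ((ht.eq (c 6)).and (ht'.eq (c 1))).and ((hy.lt (c 3)).and
    ((hy'.add (c 1)).eq hN) |>.and cl)
  have A11 := ((ht.eq (c 5)).and (ht'.eq (c 7))).and ((hy.eq (c 0)).and
    (hy'.eq (c 0)) |>.and ((hx.lt hM).and (hx.eq hx')))
  exact (((((((((A1.or A2).or A3).or A4).or A5).or A6).or A7).or A8).or A9).or A10).or A11

theorem RedB_idx {N x y t : α → ℕ} (hN : UPoly N) (hx : UPoly x) (hy : UPoly y) (ht : UPoly t) :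
    Poly (fun a => idx (N a) (x a) (y a) (t a)) :=
  UPoly.toNat ((((hx.mul hN).add hy).mul (UPoly.const 8)).add ht)

/-- The reduction. -/
def red (φ : List Clause) : ℕ × List (ℕ × ℕ) :=
  (gn (3 * φ.length + 3), posL (3 * φ.length + 3) φ.length (cf φ))

theorem poly_red : Poly red := by
  have hN : UPoly (fun φ : List Clause => 3 * φ.length + 3) :=
    ((UPoly.const 3).mul (UPoly.length Poly.id)).add (UPoly.const 3)
  refine Poly.pair (UPoly.toNat (((UPoly.const 16).mul (hN.mul hN)).sub (UPoly.const 4))) ?_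
  refine RedB_flatRange hN ?_
  refine RedB_flatRange (hN.comp Poly.id.fst') ?_
  refine RedB_flatRange (UPoly.const 8) ?_
  refine RedB_flatRange (hN.comp Poly.id.fst'.fst'.fst') ?_
  refine RedB_flatRange (hN.comp Poly.id.fst'.fst'.fst'.fst') ?_
  refine RedB_flatRange (UPoly.const 8) ?_
  have hφ : Poly (fun p : (((((List Clause × Un) × Un) × Un) × Un) × Un) × Un =>
    p.1.1.1.1.1.1) := Poly.id.fst'.fst'.fst'.fst'.fst'.fst'
  have hx : UPoly (fun p : (((((List Clause × Un) × Un) × Un) × Un) × Un) × Un =>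
    p.1.1.1.1.1.2.n) := UPoly.n.comp Poly.id.fst'.fst'.fst'.fst'.fst'.snd'
  have hy : UPoly (fun p : (((((List Clause × Un) × Un) × Un) × Un) × Un) × Un =>
    p.1.1.1.1.2.n) := UPoly.n.comp Poly.id.fst'.fst'.fst'.fst'.snd'
  have ht : UPoly (fun p : (((((List Clause × Un) × Un) × Un) × Un) × Un) × Un =>
    p.1.1.1.2.n) := UPoly.n.comp Poly.id.fst'.fst'.fst'.snd'
  have hx' : UPoly (fun p : (((((List Clause × Un) × Un) × Un) × Un) × Un) × Un =>
    p.1.1.2.n) := UPoly.n.comp Poly.id.fst'.fst'.snd'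
  have hy' : UPoly (fun p : (((((List Clause × Un) × Un) × Un) × Un) × Un) × Un =>
    p.1.2.n) := UPoly.n.comp Poly.id.fst'.snd'
  have ht' : UPoly (fun p : (((((List Clause × Un) × Un) × Un) × Un) × Un) × Un =>
    p.2.n) := UPoly.n.comp Poly.id.snd'
  have hN' := hN.comp hφ
  have hM' : UPoly (fun p : (((((List Clause × Un) × Un) × Un) × Un) × Un) × Un =>
    p.1.1.1.1.1.1.length) := UPoly.length hφ
  have hb := RedB_hB hφ hN' hM' hx hy ht hx' hy' ht'
  have hi := Poly.pair (RedB_idx hN' hx hy ht) (RedB_idx hN' hx' hy' ht')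
  refine (Poly.ite hb (TM2Lib.Poly.const ([] : List (ℕ × ℕ))) (hi.cons (TM2Lib.Poly.const []))).of_eq
    fun a => ?_
  rfl

end Pool.Agent.SOCX
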