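import Pool.Agent.SOCX.Gad
import Pool.Agent.SOCX.RedA
import Pool.Agent.SOCX.RedB
import Pool.Agent.TM2Lib.Sat3
import Pool.Agent.TM2Lib.Unary2

/-!
# The reduction from 3-SAT

For `φ` with `M` clauses the occurrences are `o = 3 j + s`; `N = 3 M + 3`.

`sel_iff`: an assignment `β` gives `T o` := `o < 3 M` and the literal of `o` is true under `β`.
Conversely `β v := true` iff `T o` for some `o < 3 M` whose literal is `(v, true)`; a clause `j`
has an occurrence `o` in `T`; if its literal is `(v, false)` then no `o'` in `T` has the literal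
`(v, true)`, because `o, o'` would be a conflict (in the order `<`).

`poly_red`: closure properties of `Poly` / `UPoly` (`Poly.range`, `Poly.flatMap`, `Poly.getD`,
`UPoly.add`, `UPoly.mul`, `UPoly.eq`, `UPoly.le`, `UPoly.lt`, `UPoly.toNat`, `Poly.ite`, ...).
-/

namespace Pool.Agent.SOCX

open Pool.Agent.TM2Lib Pool.Agent.TM2Lib.NPC


theorem red_iff (φ : List Clause) :
    Convex ℝ (proj (red φ).1 {p | ((p.1 : ℕ), (p.2 : ℕ)) ∈ (red φ).2}) ↔ ¬ Satis φ := by
  rw [← sel_iff]
  exact gadget (by omega) (by omega) _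

end Pool.Agent.SOCX
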